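import Pool.Agent.Lib.MP_2dbb30_al.AN.Koenigs

set_option autoImplicit false
set_option linter.unusedSectionVars false

open Topology Filter

namespace Pool.Agent.Lib.MP_2dbb30_al.AN

open Pool.Agent.Lib.MP_2dbb30_al.TF

section Alg

variable {p : ℕ} [Fact p.Prime] {B : Type*} [NormedRing B] [NormedAlgebra ℚ_[p] B]
  [IsUltrametricDist B]

theorem ml_add {x y : B} {t : ℝ} (hx : ‖x‖ ≤ t) (hy : ‖y‖ ≤ t) : ‖x + y‖ ≤ t :=
  (IsUltrametricDist.norm_add_le_max x y).trans (max_le hx hy)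

theorem ml_mul {x y : B} {s t : ℝ} (hx : ‖x‖ ≤ s) (hy : ‖y‖ ≤ t) : ‖x * y‖ ≤ s * t :=
  (norm_mul_le x y).trans (mul_le_mul hx hy (norm_nonneg _) ((norm_nonneg _).trans hx))

theorem ml_pow {A : B} {t : ℝ} (hA : ‖A - 1‖ ≤ t) (ht : t ≤ 1) (n : ℕ) : ‖A ^ n - 1‖ ≤ t := by
  have t0 : 0 ≤ t := (norm_nonneg _).trans hA
  induction n with
  | zero => simpa using t0
  | succ n ih =>
    have e : A ^ (n + 1) - 1 = (A ^ n - 1) * (A - 1) + (A ^ n - 1) + (A - 1) := by noncomm_ring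
    rw [e]
    exact ml_add (ml_add ((ml_mul ih hA).trans (mul_le_of_le_one_right t0 ht)) ih) hA

theorem ml_diff {A C : B} {t : ℝ} (hA : ‖A - 1‖ ≤ t) (hC : ‖C - 1‖ ≤ t) (ht : t ≤ 1) (n : ℕ) :
    ‖A ^ n - C ^ n - (n : ℚ_[p]) • (A - C)‖ ≤ t * ‖A - C‖ := by
  have t0 : 0 ≤ t := (norm_nonneg _).trans hA
  induction n with
  | zero => simp; positivity
  | succ n ih =>
    have h1 : ‖A ^ n - C ^ n‖ ≤ ‖A - C‖ := by
      rw [← sub_add_cancel (A ^ n - C ^ n) ((n : ℚ_[p]) • (A - C))]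
      refine ml_add (ih.trans (mul_le_of_le_one_left (norm_nonneg _) ht)) ?_
      rw [norm_smul]
      exact mul_le_of_le_one_left (norm_nonneg _) (IsUltrametricDist.norm_natCast_le_one _ n)
    have e : A ^ (n + 1) - C ^ (n + 1) - ((n + 1 : ℕ) : ℚ_[p]) • (A - C) =
        (A ^ n - C ^ n - (n : ℚ_[p]) • (A - C)) + (A - 1) * (A ^ n - C ^ n) +
          (A - C) * (C ^ n - 1) := by
      rw [Nat.cast_succ, add_smul, one_smul, pow_succ', pow_succ']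
      generalize (n : ℚ_[p]) • (A - C) = z
      noncomm_ring
    rw [e]
    exact ml_add (ml_add ih (ml_mul hA h1)) ((ml_mul le_rfl (ml_pow hC ht n)).trans_eq (mul_comm _ _))

theorem ml_base [CompleteSpace B] : ∃ Lg : B → B, Lg 1 = 0 ∧
    ∀ A : B, ‖A - 1‖ ≤ ‖(p : ℚ_[p])‖ ^ 2 →
      Tendsto (fun j : ℕ => ((p : ℚ_[p]) ^ j)⁻¹ • (A ^ p ^ j - 1)) atTop (𝓝 (Lg A)) ∧
      ∀ C : B, ‖C - 1‖ ≤ ‖(p : ℚ_[p])‖ ^ 2 → ‖Lg A - Lg C - (A - C)‖ ≤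
        ‖(p : ℚ_[p])‖⁻¹ * max ‖A - 1‖ ‖C - 1‖ * ‖A - C‖ := by
  have p0 : (p : ℚ_[p]) ≠ 0 := Nat.cast_ne_zero.2 (Fact.out : p.Prime).ne_zero
  have q1 : ‖(p : ℚ_[p])‖ ≤ 1 := Padic.norm_p_lt_one.le
  have q0 : 0 < ‖(p : ℚ_[p])‖ := norm_pos_iff.2 p0
  obtain ⟨c, hc⟩ : ∃ c : ℚ_[p], c = (p : ℚ_[p]) ^ 2 := ⟨_, rfl⟩
  have c0 : c ≠ 0 := hc ▸ pow_ne_zero 2 p0
  have nc : ‖c‖ = ‖(p : ℚ_[p])‖ ^ 2 := by rw [hc, norm_pow]
  have c1 : ‖c‖ ≤ 1 := nc ▸ pow_le_one₀ q0.le q1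
  have cp : 0 < ‖c‖ := norm_pos_iff.2 c0
  obtain ⟨F, F0, F1, F2, -⟩ := koenigs (p := p) (fun u : B => c⁻¹ • ((1 + c • u) ^ p - 1)) ‖c‖ cp.le
    nc.le (by simp) fun x y hx hy => by
      have m0 : max ‖x‖ ‖y‖ ≤ 1 := max_le hx hy
      have h := ml_diff (p := p) (A := 1 + c • x) (C := 1 + c • y) (t := ‖c‖ * max ‖x‖ ‖y‖)
        (by rw [add_sub_cancel_left, norm_smul]; gcongr; exact le_max_left _ _)
        (by rw [add_sub_cancel_left, norm_smul]; gcongr; exact le_max_right _ _)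
        (mul_le_one₀ c1 (by positivity) m0) p
      have e : c⁻¹ • ((1 + c • x) ^ p - 1) - c⁻¹ • ((1 + c • y) ^ p - 1) - (p : ℚ_[p]) • (x - y) =
          c⁻¹ • ((1 + c • x) ^ p - (1 + c • y) ^ p - (p : ℚ_[p]) • (1 + c • x - (1 + c • y))) := by
        rw [add_sub_add_left_eq_sub, ← smul_sub c, smul_comm (p : ℚ_[p]) c, smul_sub c⁻¹ _ (c • _),
          inv_smul_smul₀ c0, ← smul_sub, sub_sub_sub_cancel_right]
      rw [e, norm_smul, norm_inv, inv_mul_le_iff₀ cp]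
      refine h.trans_eq ?_
      rw [add_sub_add_left_eq_sub, ← smul_sub, norm_smul]
      ring
  have nx : ∀ A : B, ‖A - 1‖ ≤ ‖(p : ℚ_[p])‖ ^ 2 → ‖c⁻¹ • (A - 1)‖ ≤ 1 := fun A h => by
    rw [norm_smul, norm_inv, inv_mul_le_iff₀ cp, mul_one, nc]; exact h
  refine ⟨fun A => c • F (c⁻¹ • (A - 1)), by simp [F0], fun A hA => ⟨?_, fun C hC => ?_⟩⟩
  · refine ((F1 _ (nx A hA)).const_smul c).congr fun j => ?_
    have : (fun u : B => c⁻¹ • ((1 + c • u) ^ p - 1))^[j] (c⁻¹ • (A - 1)) =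
        c⁻¹ • (A ^ p ^ j - 1) := by
      induction j with
      | zero => simp
      | succ j ih =>
        rw [Function.iterate_succ_apply', ih, smul_inv_smul₀ c0, add_sub_cancel, ← pow_mul,
          ← pow_succ]
    rw [this, smul_comm, smul_inv_smul₀ c0]
  · have h := F2 _ _ (nx A hA) (nx C hC)
    have e : c • F (c⁻¹ • (A - 1)) - c • F (c⁻¹ • (C - 1)) - (A - C) =
        c • (F (c⁻¹ • (A - 1)) - F (c⁻¹ • (C - 1)) - (c⁻¹ • (A - 1) - c⁻¹ • (C - 1))) := by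
      rw [← smul_sub c⁻¹, sub_sub_sub_cancel_right, smul_sub c, smul_sub c, smul_inv_smul₀ c0]
    rw [e, norm_smul]
    refine (mul_le_mul_of_nonneg_left h cp.le).trans_eq ?_
    rw [← smul_sub c⁻¹, sub_sub_sub_cancel_right, norm_smul, norm_smul, norm_smul, norm_inv,
      ← mul_max_of_nonneg _ _ (inv_nonneg.2 cp.le)]
    field_simp

theorem ml_main [CompleteSpace B] (h1 : ‖(1 : B)‖ ≤ 1) : ∃ Lg : B → B,
    ∀ A : B, ‖A - 1‖ ≤ ‖(p : ℚ_[p])‖ ^ 2 →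
      Tendsto (fun j : ℕ => ((p : ℚ_[p]) ^ j)⁻¹ • (A ^ p ^ j - 1)) atTop (𝓝 (Lg A)) ∧
      ‖Lg A‖ ≤ 1 ∧ Lg (A ^ p) = (p : ℚ_[p]) • Lg A ∧
      (∀ C : B, ‖C - 1‖ ≤ ‖(p : ℚ_[p])‖ ^ 2 →
        ‖Lg (A * C) - Lg A - Lg C‖ ≤ ‖(p : ℚ_[p])‖⁻¹ * ‖Lg A‖ * ‖Lg C‖) ∧
      ∀ R : Submodule ℚ_[p] B, IsClosed (R : Set B) → (∀ X ∈ R, ∀ Y ∈ R, X * Y ∈ R) →
        (A - 1 ∈ R ↔ Lg A ∈ R) := by
  have p0 : (p : ℚ_[p]) ≠ 0 := Nat.cast_ne_zero.2 (Fact.out : p.Prime).ne_zero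
  have q1 : ‖(p : ℚ_[p])‖ < 1 := Padic.norm_p_lt_one
  have q0 : 0 < ‖(p : ℚ_[p])‖ := norm_pos_iff.2 p0
  obtain ⟨Lg, L1, hL⟩ := ml_base (p := p) (B := B)
  generalize hq : ‖(p : ℚ_[p])‖ = q at *
  have q2 : q ^ 2 ≤ 1 := pow_le_one₀ q0.le q1.le
  have qi : 1 ≤ q⁻¹ := one_le_inv_iff₀.2 ⟨q0, q1.le⟩
  have qh : ∀ t, t ≤ q ^ 2 → q⁻¹ * t ≤ q := fun t h => by
    rw [inv_mul_le_iff₀ q0, ← sq]; exact h
  have near : ∀ A : B, ‖A - 1‖ ≤ q ^ 2 → ‖Lg A - (A - 1)‖ ≤ q⁻¹ * ‖A - 1‖ * ‖A - 1‖ := fun A hA => by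
    have := (hL A hA).2 1 (by simp; positivity)
    rwa [L1, sub_zero, sub_self, norm_zero, max_eq_left (norm_nonneg _)] at this
  have near' : ∀ A : B, ‖A - 1‖ ≤ q ^ 2 → ‖Lg A - (A - 1)‖ ≤ q * ‖A - 1‖ := fun A hA =>
    (near A hA).trans (mul_le_mul_of_nonneg_right (qh _ hA) (norm_nonneg _))
  have low : ∀ A : B, ‖A - 1‖ ≤ q ^ 2 → ‖A - 1‖ ≤ ‖Lg A‖ := fun A hA => by
    have h := IsUltrametricDist.norm_add_le_max (Lg A) (-(Lg A - (A - 1)))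
    rw [norm_neg, neg_sub, add_sub_cancel] at h
    rcases le_max_iff.1 h with k | k
    · exact k
    · nlinarith [near' A hA, norm_nonneg (A - 1), norm_nonneg (Lg A)]
  have n1 : ∀ A : B, ‖A - 1‖ ≤ q ^ 2 → ‖A‖ ≤ 1 := fun A hA => by
    rw [← sub_add_cancel A 1]; exact ml_add (hA.trans q2) h1
  have mem : ∀ A : B, ‖A - 1‖ ≤ q ^ 2 → ∀ R : Submodule ℚ_[p] B, IsClosed (R : Set B) →
      (∀ X ∈ R, ∀ Y ∈ R, X * Y ∈ R) → A - 1 ∈ R → Lg A ∈ R := fun A hA R hR hm h => by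
    have : ∀ n : ℕ, A ^ n - 1 ∈ R := fun n => by
      induction n with
      | zero => simp
      | succ n ih =>
        have e : A ^ (n + 1) - 1 = (A ^ n - 1) * (A - 1) + (A ^ n - 1) + (A - 1) := by noncomm_ring
        exact e ▸ R.add_mem (R.add_mem (hm _ ih _ h) ih) h
    exact hR.mem_of_tendsto (hL A hA).1 (.of_forall fun j => R.smul_mem _ (this _))
  refine ⟨Lg, fun A hA => ⟨(hL A hA).1, ?_, ?_, fun C hC => ?_, fun R hR hm =>
    ⟨mem A hA R hR hm, fun h => ?_⟩⟩⟩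
  · rw [← sub_add_cancel (Lg A) (A - 1)]
    exact ml_add ((near' A hA).trans (mul_le_one₀ q1.le (norm_nonneg _) (hA.trans q2))) (hA.trans q2)
  · refine tendsto_nhds_unique (hL _ (ml_pow hA q2 p)).1
      ((((hL A hA).1.comp (tendsto_add_atTop_nat 1)).const_smul (p : ℚ_[p])).congr fun j => ?_)
    simp only [Function.comp_apply]
    rw [smul_smul, ← pow_mul, ← pow_succ', pow_succ', mul_inv, mul_inv_cancel_left₀ p0]
  · have e0 : A * C - 1 = (A - 1) * (C - 1) + (A - 1) + (C - 1) := by noncomm_ring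
    have hm : ∀ t, ‖A - 1‖ ≤ t → ‖C - 1‖ ≤ t → ‖A * C - 1‖ ≤ t := fun t a b => e0 ▸
      ml_add (ml_add ((ml_mul a (hC.trans q2)).trans_eq (mul_one _)) a) b
    have hAC := hm _ hA hC
    have h3 : ‖(A - 1) * (C - 1)‖ ≤ q⁻¹ * ‖A - 1‖ * ‖C - 1‖ := by
      refine (norm_mul_le _ _).trans ?_
      rw [mul_assoc]
      exact le_mul_of_one_le_left (by positivity) qi
    refine le_trans (b := q⁻¹ * ‖A - 1‖ * ‖C - 1‖) ?_ (by gcongr; exacts [low A hA, low C hC])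
    rcases le_total ‖C - 1‖ ‖A - 1‖ with k | k
    · have e : Lg (A * C) - Lg A - Lg C = (Lg (A * C) - Lg A - (A * C - A)) + (A - 1) * (C - 1) +
          -(Lg C - (C - 1)) := by noncomm_ring
      rw [e]
      refine ml_add (ml_add (((hL _ hAC).2 A hA).trans ?_) h3) ?_
      · rw [max_eq_right (hm _ le_rfl k), ← mul_sub_one]
        gcongr
        exact (ml_mul (n1 A hA) le_rfl).trans_eq (one_mul _)
      · rw [norm_neg]
        exact (near C hC).trans (by gcongr)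
    · have e : Lg (A * C) - Lg A - Lg C = (Lg (A * C) - Lg C - (A * C - C)) + (A - 1) * (C - 1) +
          -(Lg A - (A - 1)) := by noncomm_ring
      rw [e]
      refine ml_add (ml_add (((hL _ hAC).2 C hC).trans ?_) h3) ?_
      · rw [max_eq_right (hm _ k le_rfl), ← sub_one_mul, mul_right_comm]
        gcongr
        exact (ml_mul le_rfl (n1 C hC)).trans_eq (mul_one _)
      · rw [norm_neg]
        exact (near A hA).trans (by gcongr)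
  · have key : ∀ m : ℕ, ∃ X ∈ R, ‖X - (A - 1)‖ ≤ q ^ m * q ^ 2 := fun m => by
      induction m with
      | zero => exact ⟨0, R.zero_mem, by simpa using (norm_sub_rev 1 A).trans_le hA⟩
      | succ m ih =>
        obtain ⟨X, hX, hd⟩ := ih
        have nX : ‖1 + X - 1‖ ≤ q ^ 2 := by
          rw [add_sub_cancel_left, ← sub_add_cancel X (A - 1)]
          exact ml_add (hd.trans (mul_le_of_le_one_left (by positivity)
            (pow_le_one₀ q0.le q1.le))) hA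
        refine ⟨X + (Lg A - Lg (1 + X)), R.add_mem hX (R.sub_mem h
          (mem _ nX R hR hm (by rwa [add_sub_cancel_left]))), ?_⟩
        have e : X + (Lg A - Lg (1 + X)) - (A - 1) = Lg A - Lg (1 + X) - (A - (1 + X)) := by abel
        have e' : A - (1 + X) = -(X - (A - 1)) := by abel
        rw [e]
        refine ((hL A hA).2 _ nX).trans ?_
        rw [e', norm_neg, pow_succ', mul_assoc q]
        exact mul_le_mul (qh _ (max_le hA nX)) hd (norm_nonneg _) q0.le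
    choose X hX hd using key
    refine hR.mem_of_tendsto (f := X) (b := atTop) (tendsto_iff_norm_sub_tendsto_zero.2
      (squeeze_zero (fun _ => norm_nonneg _) hd ?_)) (.of_forall hX)
    simpa using (tendsto_pow_atTop_nhds_zero_of_lt_one q0.le q1).mul_const (q ^ 2)

end Alg

variable {p : ℕ} [Fact p.Prime] {E : Type*} [NormedAddCommGroup E] [NormedSpace ℚ_[p] E]
  [IsUltrametricDist E] [FiniteDimensional ℚ_[p] E]

/-- the logarithm of an operator close to the identity -/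
theorem exists_mlog : ∃ Lg : (E →L[ℚ_[p]] E) → (E →L[ℚ_[p]] E),
    ∀ A : E →L[ℚ_[p]] E, ‖A - 1‖ ≤ ‖(p : ℚ_[p])‖ ^ 2 →
      Tendsto (fun j : ℕ => ((p : ℚ_[p]) ^ j)⁻¹ • (A ^ p ^ j - 1)) atTop (𝓝 (Lg A)) ∧
      ‖Lg A‖ ≤ 1 ∧ Lg (A ^ p) = (p : ℚ_[p]) • Lg A ∧
      (∀ B : E →L[ℚ_[p]] E, ‖B - 1‖ ≤ ‖(p : ℚ_[p])‖ ^ 2 →
        ‖Lg (A * B) - Lg A - Lg B‖ ≤ ‖(p : ℚ_[p])‖⁻¹ * ‖Lg A‖ * ‖Lg B‖) ∧
      ∀ R : Submodule ℚ_[p] (E →L[ℚ_[p]] E), (∀ X ∈ R, ∀ Y ∈ R, X * Y ∈ R) →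
        (A - 1 ∈ R ↔ Lg A ∈ R) := by
  have : IsUltrametricDist (E →L[ℚ_[p]] E) :=
    IsUltrametricDist.isUltrametricDist_of_forall_norm_add_le_max_norm fun X Y =>
      ContinuousLinearMap.opNorm_le_bound _ (by positivity) fun x =>
        (IsUltrametricDist.norm_add_le_max (X x) (Y x)).trans (max_le
          (X.le_of_opNorm_le (le_max_left _ _) x) (Y.le_of_opNorm_le (le_max_right _ _) x))
  have : CompleteSpace E := FiniteDimensional.complete ℚ_[p] E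
  obtain ⟨Lg, h⟩ := ml_main (p := p) (B := E →L[ℚ_[p]] E) ContinuousLinearMap.norm_id_le
  exact ⟨Lg, fun A hA => ⟨(h A hA).1, (h A hA).2.1, (h A hA).2.2.1, (h A hA).2.2.2.1,
    fun R hR => (h A hA).2.2.2.2 R R.closed_of_finiteDimensional hR⟩⟩

end Pool.Agent.Lib.MP_2dbb30_al.AN
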