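import Pool.Agent.Lib.MP_2dbb30_al.AN.Induced
import Pool.Agent.Lib.MP_2dbb30_al.AN.MLog

set_option autoImplicit false
set_option linter.unusedSectionVars false

open Topology Filter

namespace Pool.Agent.Lib.MP_2dbb30_al.AN

open Pool.Agent.Lib.MP_2dbb30_al.TF

variable {p : ℕ} [Fact p.Prime] {G : Type*} [Group G] [TopologicalSpace G] [IsTopologicalGroup G]
  [CompactSpace G] [T2Space G] [TotallyDisconnectedSpace G]
  {E : Type*} [NormedAddCommGroup E] [NormedSpace ℚ_[p] E] [IsUltrametricDist E]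
  [FiniteDimensional ℚ_[p] E] {U : Subgroup G} {lam : G → E} {Ad : G → Module.End ℚ_[p] E}
  {ad : E →ₗ[ℚ_[p]] E →ₗ[ℚ_[p]] E} {S : Submodule ℚ_[p] E}

theorem LogModel.ad_lv (m : LogModel p U lam) {a : G} :
    Lv U lam (⊤ : Submodule ℚ_[p] E) 0 a ↔ a ∈ U :=
  ⟨fun h => h.1, fun h => ⟨h, trivial, by simpa using m.norm_le a h⟩⟩

theorem ad_pne (N : ℕ) : ((p : ℚ_[p]) ^ N) ≠ 0 :=
  pow_ne_zero _ (by exact_mod_cast (Fact.out : p.Prime).ne_zero)

theorem LogModel.ad_small (m : LogModel p U lam) (x : E) :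
    ∃ (c : ℚ_[p]) (a : G), c ≠ 0 ∧ a ∈ U ∧ lam a = c • x := by
  obtain ⟨N, a, ha, h⟩ := m.exists_small (S := ⊤) (x := x) trivial 0
  exact ⟨_, a, ad_pne N, ha.1, h⟩

theorem LogModel.ad_ext (m : LogModel p U lam) {E' : Type*} [AddCommGroup E'] [Module ℚ_[p] E']
    (f g : E →ₗ[ℚ_[p]] E') (h : ∀ a ∈ U, f (lam a) = g (lam a)) : f = g := by
  ext x
  obtain ⟨c, a, hc, ha, hx⟩ := m.ad_small x
  have := h a ha
  rw [hx, map_smul, map_smul] at this
  exact smul_right_injective _ hc this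

theorem ad_q_le : ‖(p : ℚ_[p])‖ ≤ 1 := (Padic.norm_p_lt_one (p := p)).le

theorem LogModel.ad_conj (m : LogModel p U lam) : ∃ Ad : G → Module.End ℚ_[p] E,
    ∀ g ∈ U, ∀ a ∈ U, lam (g * a * g⁻¹) = Ad g (lam a) := by
  have key : ∀ g : G, ∃ φ : Module.End ℚ_[p] E, g ∈ U → ∀ a ∈ U, lam (g * a * g⁻¹) = φ (lam a) := by
    intro g
    by_cases hg : g ∈ U
    · have hc : ∀ a ∈ U, g * a * g⁻¹ ∈ U := fun a ha =>
        U.mul_mem (U.mul_mem hg ha) (U.inv_mem hg)
      obtain ⟨φ, hφ⟩ := m.induced (good_top U lam) 0 (fun a => lam (g * a * g⁻¹)) 1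
        (fun a ha => m.norm_le _ (hc a ha.1))
        (fun a ha => by
          have := m.pow _ (hc a ha.1) p
          rwa [conj_pow] at this)
        (fun a b ha hb => by
          have h := m.mul _ (hc a ha.1) _ (hc b hb.1)
          rw [conj_mul] at h
          refine h.trans ?_
          have h2 : ‖(p : ℚ_[p])‖ ^ 2 ≤ 1 := pow_le_one₀ (norm_nonneg _) ad_q_le
          gcongr)
      exact ⟨φ, fun _ a ha => (hφ a (m.ad_lv.2 ha)).symm⟩
    · exact ⟨1, fun h => absurd h hg⟩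
  choose Ad hAd using key
  exact ⟨Ad, hAd⟩

theorem LogModel.exists_ad (m : LogModel p U lam) :
    ∃ (Ad : G → Module.End ℚ_[p] E) (ad : E →ₗ[ℚ_[p]] E →ₗ[ℚ_[p]] E),
      AdModel p U lam Ad ad := by
  obtain ⟨Ad, hconj⟩ := m.ad_conj
  have hc : ∀ g ∈ U, ∀ a ∈ U, g * a * g⁻¹ ∈ U := fun g hg a ha =>
    U.mul_mem (U.mul_mem hg ha) (U.inv_mem hg)
  have hone : Ad 1 = 1 := m.ad_ext _ _ fun a ha => by
    rw [← hconj 1 U.one_mem a ha]; simp
  have hmul : ∀ g ∈ U, ∀ h ∈ U, Ad (g * h) = Ad g * Ad h := fun g hg h hh =>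
    m.ad_ext _ _ fun a ha => by
      rw [Module.End.mul_apply, ← hconj h hh a ha, ← hconj g hg _ (hc h hh a ha),
        ← hconj _ (U.mul_mem hg hh) a ha]
      congr 1
      group
  have hnear : ∀ g ∈ U, ∀ x, ‖Ad g x - x‖ ≤ ‖(p : ℚ_[p])‖ ^ 2 * ‖lam g‖ * ‖x‖ := by
    intro g hg x
    obtain ⟨c, a, hc0, ha, hx⟩ := m.ad_small x
    have h := m.norm_conj hg ha
    rw [hconj g hg a ha, hx, map_smul, ← smul_sub, norm_smul, norm_smul] at h
    have hp : 0 < ‖c‖ := norm_pos_iff.2 hc0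
    refine le_of_mul_le_mul_left (h.trans_eq ?_) hp
    ring
  let A : G → (E →L[ℚ_[p]] E) := fun g => LinearMap.toContinuousLinearMap (Ad g)
  have hA : ∀ g x, A g x = Ad g x := fun _ _ => rfl
  have hAn : ∀ g ∈ U, ‖A g - 1‖ ≤ ‖(p : ℚ_[p])‖ ^ 2 := by
    intro g hg
    refine ContinuousLinearMap.opNorm_le_bound _ (by positivity) fun x => ?_
    refine (hnear g hg x).trans ?_
    have := m.norm_le g hg
    calc ‖(p : ℚ_[p])‖ ^ 2 * ‖lam g‖ * ‖x‖ ≤ ‖(p : ℚ_[p])‖ ^ 2 * 1 * ‖x‖ := by gcongr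
      _ = _ := by ring
  have hAm : ∀ g ∈ U, ∀ h ∈ U, A (g * h) = A g * A h := by
    intro g hg h hh
    ext x
    change Ad (g * h) x = Ad g (Ad h x)
    rw [hmul g hg h hh]; rfl
  have hAp : ∀ g ∈ U, ∀ n : ℕ, A (g ^ n) = A g ^ n := by
    intro g hg n
    induction n with
    | zero =>
      ext x
      change Ad (g ^ 0) x = _
      rw [pow_zero, pow_zero, hone]; rfl
    | succ n ih => rw [pow_succ, pow_succ, hAm _ (U.pow_mem hg n) g hg, ih]
  obtain ⟨Lg, hLg⟩ := exists_mlog (p := p) (E := E)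
  have hq0 : 0 < ‖(p : ℚ_[p])‖ := norm_pos_iff.2 (by simpa using ad_pne (p := p) 1)
  obtain ⟨φ, hφ⟩ := m.induced (good_top U lam) 0 (fun a => Lg (A a)) ‖(p : ℚ_[p])‖⁻¹
    (fun a ha => (hLg _ (hAn a ha.1)).2.1.trans ((one_le_inv₀ hq0).2 ad_q_le))
    (fun a ha => by
      rw [hAp a ha.1]; exact (hLg _ (hAn a ha.1)).2.2.1)
    (fun a b ha hb => by
      rw [hAm a ha.1 b hb.1]; exact (hLg _ (hAn a ha.1)).2.2.2.1 _ (hAn b hb.1))
  replace hφ : ∀ a ∈ U, φ (lam a) = Lg (A a) := fun a ha => hφ a (m.ad_lv.2 ha)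
  let ad : E →ₗ[ℚ_[p]] E →ₗ[ℚ_[p]] E := (ContinuousLinearMap.coeLM ℚ_[p]).comp φ
  have had : ∀ x y, ad x y = φ x y := fun _ _ => rfl
  have hlim : ∀ g ∈ U, ∀ x, Tendsto
      (fun j : ℕ => ((p : ℚ_[p]) ^ j)⁻¹ • (Ad (g ^ p ^ j) x - x)) atTop (𝓝 (ad (lam g) x)) := by
    intro g hg x
    have h := ((ContinuousLinearMap.apply ℚ_[p] E x).continuous.tendsto _).comp
      (hLg _ (hAn g hg)).1
    rw [had, hφ g hg]
    refine h.congr fun j => ?_
    rw [← hA, hAp g hg]
    rfl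
  have hfix : ∀ g ∈ U, ∀ x, Ad g x = x ↔ ad (lam g) x = 0 := by
    intro g hg x
    let R : Submodule ℚ_[p] (E →L[ℚ_[p]] E) :=
      { carrier := {X | X x = 0}
        add_mem' := fun {X Y} hX hY => by
          change X x + Y x = 0
          rw [show X x = 0 from hX, show Y x = 0 from hY, add_zero]
        zero_mem' := rfl
        smul_mem' := fun c X hX => by
          change c • X x = 0
          rw [show X x = 0 from hX, smul_zero] }
    have h := (hLg _ (hAn g hg)).2.2.2.2 R fun X _ Y hY => by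
      change X (Y x) = 0
      rw [show Y x = 0 from hY, map_zero]
    rw [had, hφ g hg, ← sub_eq_zero]
    exact h
  have hinv : ∀ g ∈ U, ∀ I : Submodule ℚ_[p] E,
      (∀ x ∈ I, Ad g x ∈ I) ↔ ∀ x ∈ I, ad (lam g) x ∈ I := by
    intro g hg I
    let R : Submodule ℚ_[p] (E →L[ℚ_[p]] E) :=
      { carrier := {X | ∀ x ∈ I, X x ∈ I}
        add_mem' := fun {X Y} hX hY x hx => I.add_mem (hX x hx) (hY x hx)
        zero_mem' := fun _ _ => I.zero_mem
        smul_mem' := fun c X hX x hx => I.smul_mem c (hX x hx) }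
    have h := (hLg _ (hAn g hg)).2.2.2.2 R fun X hX Y hY x hx => hX _ (hY x hx)
    rw [← hφ g hg] at h
    refine Iff.trans ?_ h
    constructor
    · intro h1 x hx
      exact I.sub_mem (h1 x hx) hx
    · intro h1 x hx
      have h2 : Ad g x - x ∈ I := h1 x hx
      simpa using I.add_mem h2 hx
  have haut : ∀ g ∈ U, ∀ x y, Ad g (ad x y) = ad (Ad g x) (Ad g y) := by
    intro g hg x y
    obtain ⟨c, a, hc0, ha, hx⟩ := m.ad_small x
    have h1 := ((A g).continuous.tendsto _).comp (hlim a ha y)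
    have h2 := hlim _ (hc g hg a ha) (Ad g y)
    have h3 : A g (ad (lam a) y) = ad (lam (g * a * g⁻¹)) (Ad g y) := by
      refine tendsto_nhds_unique (h1.congr fun j => ?_) h2
      have h4 : Ad g * Ad (a ^ p ^ j) = Ad ((g * a * g⁻¹) ^ p ^ j) * Ad g := by
        rw [← hmul g hg _ (U.pow_mem ha _), ← hmul _ (U.pow_mem (hc g hg a ha) _) g hg, conj_pow]
        congr 1
        group
      have h5 := LinearMap.congr_fun h4 y
      rw [Module.End.mul_apply, Module.End.mul_apply] at h5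
      rw [Function.comp_apply, hA, map_smul, map_sub, h5]
    rw [hA, hconj g hg a ha, hx] at h3
    simp only [map_smul, LinearMap.smul_apply] at h3
    exact smul_right_injective _ hc0 h3
  refine ⟨Ad, ad, hconj, hone, hmul, hnear, hlim, hfix, hinv, ?_, ?_, haut⟩
  · intro x
    obtain ⟨c, a, hc0, ha, hx⟩ := m.ad_small x
    have h := (hfix a ha (lam a)).1 (by rw [← hconj a ha a ha]; simp)
    rw [hx] at h
    simp only [map_smul, LinearMap.smul_apply] at h
    simpa [hc0] using h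
  · intro x y z
    obtain ⟨c, a, hc0, ha, hx⟩ := m.ad_small x
    have hz : Tendsto (fun j : ℕ => Ad (a ^ p ^ j) z) atTop (𝓝 z) := by
      have h0 : Tendsto (fun j : ℕ => (p : ℚ_[p]) ^ j) atTop (𝓝 0) :=
        tendsto_pow_atTop_nhds_zero_of_norm_lt_one (Padic.norm_p_lt_one (p := p))
      have h1 := (h0.smul (hlim a ha z)).add_const z
      rw [zero_smul, zero_add] at h1
      refine h1.congr fun j => ?_
      rw [smul_inv_smul₀ (ad_pne j), sub_add_cancel]
    have h1 := ((LinearMap.toContinuousLinearMap φ).continuous₂.tendsto _).comp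
      ((hlim a ha y).prodMk_nhds hz)
    have h2 := ((φ y).continuous.tendsto _).comp (hlim a ha z)
    have h3 : ad (lam a) (ad y z) = ad (ad (lam a) y) z + ad y (ad (lam a) z) := by
      refine tendsto_nhds_unique (hlim a ha (ad y z)) ((h1.add h2).congr fun j => ?_)
      change ad (((p : ℚ_[p]) ^ j)⁻¹ • (Ad (a ^ p ^ j) y - y)) (Ad (a ^ p ^ j) z) +
        ad y (((p : ℚ_[p]) ^ j)⁻¹ • (Ad (a ^ p ^ j) z - z)) = _
      rw [haut _ (U.pow_mem ha _)]
      simp only [map_smul, map_sub, LinearMap.smul_apply, LinearMap.sub_apply, ← smul_add]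
      congr 1
      abel
    rw [hx] at h3
    simp only [map_smul, LinearMap.smul_apply, ← smul_add] at h3
    exact smul_right_injective _ hc0 h3

end Pool.Agent.Lib.MP_2dbb30_al.AN
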