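import Pool.Agent.Lib.MP_2dbb30_al.AN.Defs

set_option autoImplicit false
set_option linter.unusedSectionVars false

open Topology Filter

namespace Pool.Agent.Lib.MP_2dbb30_al.AN

open Pool.Agent.Lib.MP_2dbb30_al.TF

/-- a nilpotent element either spans an ideal or lies in a spanning `sl2` triple -/
theorem line_or_sl2 {K W : Type*} [Field K] [CharZero K] [AddCommGroup W] [Module K W]
    [FiniteDimensional K W] (br : W →ₗ[K] W →ₗ[K] W) (alt : ∀ x, br x x = 0)
    (leib : ∀ x y z, br x (br y z) = br (br x y) z + br y (br x z)) {e : W} (he : e ≠ 0)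
    (hnil : ∃ N : ℕ, (br e : Module.End K W) ^ N = 0)
    (hC : ∀ x y, br x e = 0 → br y e = 0 → br x y = 0)
    (hE : ∀ h, (∀ c, br c e = 0 → br (br h c) e = 0) → ∀ c, br c e = 0 →
      ∃ s : K, br h c = s • c) :
    (∀ x, ∃ s : K, br x e = s • e) ∨
      ∃ h f, br h e = (2 : K) • e ∧ br h f = (-2 : K) • f ∧ br e f = h ∧
        ∀ w, ∃ x y z : K, w = x • e + y • h + z • f := by
  have anti : ∀ x y, br x y = - br y x := by
    intro x y
    have h := alt (x + y)
    simp only [map_add, LinearMap.add_apply, alt, zero_add, add_zero] at h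
    exact eq_neg_of_add_eq_zero_right h
  have hsw : ∀ c, br e c = 0 → br c e = 0 := fun c hc => by rw [anti, hc, neg_zero]
  have hsw' : ∀ c, br c e = 0 → br e c = 0 := fun c hc => by rw [anti, hc, neg_zero]
  have k2 : ∀ x, br e (br e x) = 0 → ∀ c, br e c = 0 → ∃ s : K, br x c = s • c := by
    intro x hx c hc
    refine hE x (fun c' hc' => hsw _ ?_) c (hsw c hc)
    rw [leib, hsw' c' hc', map_zero, add_zero]
    exact hC _ _ (hsw _ hx) hc'
  obtain ⟨N, hN⟩ := hnil
  have hdown : ∀ m : ℕ, (∀ x, ((br e : Module.End K W) ^ (m + 1)) x = 0 →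
      ((br e : Module.End K W) ^ m) x = 0) → ∀ x, ((br e : Module.End K W) ^ m) x = 0 := by
    intro m hm
    have key : ∀ j : ℕ, ∀ x, ((br e : Module.End K W) ^ (m + j)) x = 0 →
        ((br e : Module.End K W) ^ m) x = 0 := by
      intro j
      induction j with
      | zero => intro x hx; simpa using hx
      | succ j ih =>
        intro x hx
        apply hm
        rw [pow_succ, Module.End.mul_apply]
        apply ih
        rw [← Module.End.mul_apply, ← pow_succ]
        exact hx
    intro x
    apply key N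
    rw [pow_add, hN, mul_zero, LinearMap.zero_apply]
  by_cases h32 : ∀ x, br e (br e (br e x)) = 0 → br e (br e x) = 0
  · left
    intro x
    refine k2 x ?_ e (alt e)
    have := hdown 2 (fun x hx => by
      simp only [pow_succ, pow_zero, one_mul, Module.End.mul_apply] at hx ⊢
      exact h32 x hx) x
    simpa only [pow_succ, pow_zero, one_mul, Module.End.mul_apply] using this
  right
  push Not at h32
  obtain ⟨f0, hf3, hf2⟩ := h32
  obtain ⟨s, hs⟩ := k2 (br e f0) hf3 e (alt e)
  have hs0 : s ≠ 0 := by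
    rintro rfl
    apply hf2
    rw [anti, hs, zero_smul, neg_zero]
  obtain ⟨f1, h, hef1, hhe⟩ : ∃ f1 h, br e f1 = h ∧ br h e = (2 : K) • e := by
    refine ⟨(2 / s) • f0, (2 / s) • br e f0, by rw [map_smul], ?_⟩
    rw [map_smul, LinearMap.smul_apply, hs, smul_smul, div_mul_cancel₀ _ hs0]
  have heh : br e h = (-2 : K) • e := by rw [anti, hhe, neg_smul]
  have hh2 : br e (br e h) = 0 := by rw [heh, map_smul, alt, smul_zero]
  have hC2 : ∀ c, br e c = 0 → br h c = (2 : K) • c := by
    intro c hc
    obtain ⟨a, ha⟩ := k2 h hh2 c hc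
    obtain ⟨b, hb⟩ := k2 h hh2 (c + e) (by rw [map_add, hc, alt, add_zero])
    rw [map_add, ha, hhe] at hb
    by_cases hab : a = b
    · subst hab
      have h1 : (2 - a) • e = 0 := by linear_combination (norm := module) hb
      have h2 : a = 2 := by
        rcases smul_eq_zero.mp h1 with h3 | h3
        · exact (sub_eq_zero.mp h3).symm
        · exact absurd h3 he
      rw [ha, h2]
    · have hab' : a - b ≠ 0 := sub_ne_zero.mpr hab
      have h1 : (a - b) • c = (b - 2) • e := by linear_combination (norm := module) hb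
      have h2 : c = ((a - b)⁻¹ * (b - 2)) • e := by
        rw [mul_smul, ← h1, smul_smul, inv_mul_cancel₀ hab', one_smul]
      rw [h2, map_smul, hhe, smul_comm]
  obtain ⟨f, hef, hhf⟩ : ∃ f, br e f = h ∧ br h f = (-2 : K) • f := by
    have hc0 : br e (br h f1 + (2 : K) • f1) = 0 := by
      rw [map_add, map_smul, leib, hef1, heh, alt, map_smul, LinearMap.smul_apply, hef1]
      module
    refine ⟨f1 - (1 / 4 : K) • (br h f1 + (2 : K) • f1), ?_, ?_⟩
    · rw [map_sub, map_smul, hc0, hef1, smul_zero, sub_zero]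
    · rw [map_sub, map_smul, hC2 _ hc0]
      module
  have k1 : ∀ c, br e c = 0 → ∃ t : K, c = t • e := by
    intro c hc
    have h1 : br e (br c f) = (-2 : K) • c := by
      rw [leib, hc, hef, map_zero, LinearMap.zero_apply, zero_add, anti, hC2 c hc, neg_smul]
    obtain ⟨t, ht⟩ := k2 (br c f) (by rw [h1, map_smul, hc, smul_zero]) e (alt e)
    rw [anti, h1] at ht
    refine ⟨t / 2, ?_⟩
    linear_combination (norm := module) (1 / 2 : K) • ht
  have k3 : ∀ w, br e (br e (br e w)) = 0 → ∃ x y z : K, w = x • e + y • h + z • f := by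
    intro w hw
    obtain ⟨a, ha⟩ := k1 _ hw
    obtain ⟨b, hb⟩ := k1 (br e w + (a / 2) • h) (by
      rw [map_add, map_smul, ha, heh]; module)
    obtain ⟨c, hc⟩ := k1 (w + (b / 2) • h + (a / 2) • f) (by
      rw [map_add, map_add, map_smul, map_smul, heh, hef]
      linear_combination (norm := module) hb)
    exact ⟨c, -(b / 2), -(a / 2), by linear_combination (norm := module) hc⟩
  refine ⟨h, f, hhe, hhf, hef, ?_⟩
  by_cases h43 : ∀ x, br e (br e (br e (br e x))) = 0 → br e (br e (br e x)) = 0
  · intro w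
    apply k3
    have := hdown 3 (fun x hx => by
      simp only [pow_succ, pow_zero, one_mul, Module.End.mul_apply] at hx ⊢
      exact h43 x hx) w
    simpa only [pow_succ, pow_zero, one_mul, Module.End.mul_apply] using this
  exfalso
  push Not at h43
  obtain ⟨g0, hg4, hg3⟩ := h43
  obtain ⟨a, b, z, hz⟩ := k3 _ hg4
  have hz0 : z ≠ 0 := by
    rintro rfl
    apply hg3
    rw [hz, zero_smul, add_zero, map_add, map_smul, map_smul, alt, heh, smul_zero, zero_add,
      map_smul, map_smul, alt, smul_zero, smul_zero]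
  obtain ⟨g1, hg1⟩ : ∃ g1, br e g1 = f := by
    refine ⟨z⁻¹ • (g0 + (a / 2) • h - b • f), ?_⟩
    rw [map_smul, map_sub, map_add, map_smul, map_smul, heh, hef, hz]
    have : a • e + b • h + z • f + (a / 2) • (-2 : K) • e - b • h = z • f := by module
    rw [this, smul_smul, inv_mul_cancel₀ hz0, one_smul]
  obtain ⟨g, heg, hhg⟩ : ∃ g, br e g = f ∧ br h g = (-4 : K) • g := by
    obtain ⟨t, ht⟩ := k1 (br h g1 + (4 : K) • g1) (by
      rw [map_add, map_smul, leib, hg1, heh, hhf, map_smul, LinearMap.smul_apply, hg1]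
      module)
    refine ⟨g1 - (t / 6) • e, ?_, ?_⟩
    · rw [map_sub, map_smul, alt, hg1, smul_zero, sub_zero]
    · rw [map_sub, map_smul, hhe]
      linear_combination (norm := module) ht
  have hf0 : f ≠ 0 := by
    intro h0
    rw [h0, map_zero] at hef
    rw [← hef, map_zero] at heh
    rcases smul_eq_zero.mp heh.symm with h3 | h3
    · norm_num at h3
    · exact he h3
  have hev : ∀ j : ℕ, br h (((br f : Module.End K W) ^ j) g) =
      (-4 - 2 * (j : K)) • ((br f : Module.End K W) ^ j) g := by
    intro j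
    induction j with
    | zero => simpa using hhg
    | succ j ih =>
      rw [pow_succ', Module.End.mul_apply, leib, hhf, ih, map_smul, map_smul,
        LinearMap.smul_apply]
      push_cast
      module
  have hlow : ∀ j : ℕ, br e (((br f : Module.End K W) ^ (j + 1)) g) =
      (-(((j : K) + 1) * ((j : K) + 4))) • ((br f : Module.End K W) ^ j) g := by
    intro j
    induction j with
    | zero =>
      rw [zero_add, pow_one, pow_zero, Module.End.one_apply, leib, hef, heg, alt, hhg]
      push_cast
      module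
    | succ j ih =>
      rw [pow_succ' _ (j + 1), Module.End.mul_apply, leib, hef, hev, ih, map_smul,
        pow_succ' _ j, Module.End.mul_apply]
      push_cast
      module
  have hne : ∀ j : ℕ, ((br f : Module.End K W) ^ j) g ≠ 0 := by
    intro j
    induction j with
    | zero =>
      intro h0
      rw [pow_zero, Module.End.one_apply] at h0
      rw [h0, map_zero] at heg
      exact hf0 heg.symm
    | succ j ih =>
      intro h0
      have h1 := hlow j
      rw [h0, map_zero] at h1
      rcases smul_eq_zero.mp h1.symm with h3 | h3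
      · have h4 : (((j + 1) * (j + 4) : ℕ) : K) = 0 := by
          push_cast
          exact neg_eq_zero.mp h3
        have h5 := Nat.cast_eq_zero.mp h4
        simp at h5
      · exact ih h3
  have hfin := Module.End.finite_hasEigenvalue (br h : Module.End K W)
  refine Set.infinite_of_injective_forall_mem (f := fun j : ℕ => (-4 - 2 * (j : K))) ?_ ?_ hfin
  · intro i j hij
    have h1 : (i : K) = j := by
      have h2 : -4 - 2 * (i : K) = -4 - 2 * (j : K) := hij
      linear_combination (-1 / 2 : K) * h2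
    exact_mod_cast h1
  · intro j
    exact Module.End.hasEigenvalue_of_hasEigenvector
      ⟨Module.End.mem_eigenspace_iff.mpr (hev j), hne j⟩

variable {p : ℕ} [Fact p.Prime] {E : Type*} [NormedAddCommGroup E] [NormedSpace ℚ_[p] E]
  [IsUltrametricDist E] [FiniteDimensional ℚ_[p] E]

/-- without nilpotent elements the orbits of the automorphisms are bounded -/
theorem bounded_orbit (br : E →ₗ[ℚ_[p]] E →ₗ[ℚ_[p]] E)
    (hno : ∀ y, (∃ N : ℕ, (br y : Module.End ℚ_[p] E) ^ N = 0) → y = 0) (w : E) :
    ∃ K : ℝ, ∀ ψ : Module.End ℚ_[p] E, Function.Injective ψ →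
      (∀ x y, ψ (br x y) = br (ψ x) (ψ y)) → ‖ψ w‖ ≤ K := by
  classical
  have : ProperSpace E := FiniteDimensional.proper ℚ_[p] E
  by_contra hcon
  push Not at hcon
  choose ψ hinj hbr hbig using fun n : ℕ => hcon (n : ℝ)
  obtain ⟨P, hmon, hP⟩ : ∃ P : Polynomial ℚ_[p], P.Monic ∧
      Polynomial.aeval (br w : Module.End ℚ_[p] E) P = 0 :=
    ⟨LinearMap.charpoly (br w), LinearMap.charpoly_monic _, LinearMap.aeval_self_charpoly _⟩
  let B : E →ₗ[ℚ_[p]] (E →L[ℚ_[p]] E) :=
    (LinearMap.toContinuousLinearMap : (E →ₗ[ℚ_[p]] E) ≃ₗ[ℚ_[p]] (E →L[ℚ_[p]] E)).toLinearMap ∘ₗ br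
  have hB : Continuous B := B.continuous_of_finiteDimensional
  have hcont : ∀ (i : ℕ) (v : E), Continuous fun y : E => ((br y : Module.End ℚ_[p] E) ^ i) v := by
    intro i v
    induction i with
    | zero => simpa using continuous_const
    | succ i ih =>
      have h1 : Continuous fun y : E => B y (((br y : Module.End ℚ_[p] E) ^ i) v) :=
        hB.clm_apply ih
      refine h1.congr fun y => ?_
      rw [pow_succ', Module.End.mul_apply]
      rfl
  have hpow : ∀ (n i : ℕ) (v : E), ((br (ψ n w) : Module.End ℚ_[p] E) ^ i) (ψ n v) =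
      ψ n (((br w : Module.End ℚ_[p] E) ^ i) v) := by
    intro n i v
    induction i with
    | zero => simp
    | succ i ih => rw [pow_succ', pow_succ', Module.End.mul_apply, Module.End.mul_apply, ih, hbr]
  have hsum : ∀ (n : ℕ) (v : E), ∑ i ∈ Finset.range (P.natDegree + 1),
      P.coeff i • ((br (ψ n w) : Module.End ℚ_[p] E) ^ i) v = 0 := by
    intro n v
    obtain ⟨u, rfl⟩ := (LinearMap.injective_iff_surjective.mp (hinj n)) v
    rw [Polynomial.aeval_eq_sum_range] at hP
    have h1 := congrArg (fun A : Module.End ℚ_[p] E => ψ n (A u)) hP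
    simp only [LinearMap.sum_apply, LinearMap.smul_apply, map_sum, map_smul,
      LinearMap.zero_apply, map_zero] at h1
    simpa only [hpow] using h1
  obtain ⟨c, hc⟩ := NormedField.exists_one_lt_norm ℚ_[p]
  have hne : ∀ n : ℕ, ψ n w ≠ 0 := by
    intro n h0
    have := hbig n
    rw [h0, norm_zero] at this
    exact absurd this (not_lt.mpr (Nat.cast_nonneg n))
  choose t ht0 ht1 ht2 ht3 using fun n : ℕ => rescale_to_shell hc one_pos (hne n)
  have hc0 : 0 < ‖c‖ := one_pos.trans hc
  obtain ⟨y, hy, φ, hφ, hlim⟩ := (isCompact_closedBall (0 : E) 1).tendsto_subseq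
    (x := fun n => t n • ψ n w) (fun n => by simpa using (ht1 n).le)
  have hy0 : y ≠ 0 := by
    have h1 : 1 / ‖c‖ ≤ ‖y‖ := ge_of_tendsto' hlim.norm fun n => ht2 (φ n)
    intro h0
    rw [h0, norm_zero] at h1
    exact absurd h1 (not_le.mpr (by positivity))
  have htlim : Tendsto t atTop (𝓝 0) := by
    rw [tendsto_zero_iff_norm_tendsto_zero]
    refine squeeze_zero' (Eventually.of_forall fun n => norm_nonneg _) ?_
      (tendsto_one_div_atTop_nhds_zero_nat (𝕜 := ℝ))
    filter_upwards [eventually_gt_atTop 0] with n hn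
    have hn' : (0 : ℝ) < n := by exact_mod_cast hn
    have h1 := ht1 n
    rw [norm_smul] at h1
    rw [le_div_iff₀ hn']
    nlinarith [hbig n, norm_nonneg (t n)]
  refine hy0 (hno y ⟨P.natDegree, LinearMap.ext fun v => ?_⟩)
  have hz : ∀ n : ℕ, ∑ i ∈ Finset.range (P.natDegree + 1),
      (P.coeff i * t n ^ (P.natDegree - i)) •
        ((br (t n • ψ n w) : Module.End ℚ_[p] E) ^ i) v = 0 := by
    intro n
    have h1 := congrArg (fun u : E => t n ^ P.natDegree • u) (hsum n v)
    simp only [Finset.smul_sum, smul_zero] at h1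
    rw [← h1]
    refine Finset.sum_congr rfl fun i hi => ?_
    have hi' : i ≤ P.natDegree := Nat.lt_succ_iff.mp (Finset.mem_range.mp hi)
    rw [map_smul, smul_pow, LinearMap.smul_apply, smul_smul, smul_smul, mul_assoc, ← pow_add,
      Nat.sub_add_cancel hi', mul_comm]
  have hl : Tendsto (fun n => ∑ i ∈ Finset.range (P.natDegree + 1),
      (P.coeff i * t (φ n) ^ (P.natDegree - i)) •
        ((br (t (φ n) • ψ (φ n) w) : Module.End ℚ_[p] E) ^ i) v) atTop
      (𝓝 (∑ i ∈ Finset.range (P.natDegree + 1),
        (P.coeff i * (0 : ℚ_[p]) ^ (P.natDegree - i)) • ((br y : Module.End ℚ_[p] E) ^ i) v)) := by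
    refine tendsto_finsetSum _ fun i _ => Tendsto.smul ?_ ?_
    · exact ((htlim.comp hφ.tendsto_atTop).pow _).const_mul _
    · exact ((hcont i v).tendsto y).comp hlim
  simp only [hz] at hl
  have h0 := tendsto_nhds_unique hl tendsto_const_nhds
  rw [Finset.sum_range_succ, Finset.sum_eq_zero, zero_add, Nat.sub_self, pow_zero, mul_one,
    hmon.coeff_natDegree, one_smul] at h0
  · exact h0
  · intro i hi
    have hi' : P.natDegree - i ≠ 0 := Nat.sub_ne_zero_of_lt (Finset.mem_range.mp hi)
    rw [zero_pow hi', mul_zero, zero_smul]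

end Pool.Agent.Lib.MP_2dbb30_al.AN
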