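import Pool.Agent.Lib.MP_2dbb30_al.AN.Induced

set_option autoImplicit false
set_option linter.unusedSectionVars false

open Topology Filter

namespace Pool.Agent.Lib.MP_2dbb30_al.AN

open Pool.Agent.Lib.MP_2dbb30_al.TF

variable {p : ℕ} [Fact p.Prime] {G : Type*} [Group G] [TopologicalSpace G] [IsTopologicalGroup G]
  [CompactSpace G] [T2Space G] [TotallyDisconnectedSpace G]
  {E : Type*} [NormedAddCommGroup E] [NormedSpace ℚ_[p] E] [IsUltrametricDist E]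
  [FiniteDimensional ℚ_[p] E] {U : Subgroup G} {lam : G → E} {Ad : G → Module.End ℚ_[p] E}
  {ad : E →ₗ[ℚ_[p]] E →ₗ[ℚ_[p]] E} {S : Submodule ℚ_[p] E}

theorem VED.aut_one {H D : Subgroup G} {f : G → G} (hv : VED p H D f) : f 1 = 1 := by
  have h := hv.2.2.2.1 1 D.one_mem 1 D.one_mem
  rw [mul_one] at h
  exact mul_eq_left.1 h.symm

theorem VED.aut_inv {H D : Subgroup G} {f : G → G} (hv : VED p H D f) {a : G} (ha : a ∈ D) :
    f a⁻¹ = (f a)⁻¹ := by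
  have h := hv.2.2.2.1 a⁻¹ (D.inv_mem ha) a ha
  rw [inv_mul_cancel, hv.aut_one] at h
  exact eq_inv_of_mul_eq_one_left h.symm

theorem VED.aut_pow {H D : Subgroup G} {f : G → G} (hv : VED p H D f) {a : G} (ha : a ∈ D)
    (n : ℕ) : f (a ^ n) = f a ^ n := by
  induction n with
  | zero => rw [pow_zero, pow_zero, hv.aut_one]
  | succ n ih => rw [pow_succ, hv.2.2.2.1 _ (D.pow_mem ha n) _ ha, ih, pow_succ]

theorem VED.aut_conj {H D : Subgroup G} {f : G → G} (hv : VED p H D f) {g a : G} (hg : g ∈ D)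
    (ha : a ∈ D) : f (g * a * g⁻¹) = f g * f a * (f g)⁻¹ := by
  rw [hv.2.2.2.1 _ (D.mul_mem hg ha) _ (D.inv_mem hg), hv.2.2.2.1 _ hg _ ha, hv.aut_inv hg]

theorem VED.aut_lv (m : LogModel p U lam) {k : ℕ} {H D : Subgroup G} {f : G → G}
    (hv : VED p H D f) (h1 : ∀ a, Lv U lam S k a → a ∈ H) {a : G} (ha : Lv U lam S (k + 1) a) :
    a ∈ D := by
  obtain ⟨b, hb, rfl⟩ := m.exists_root ha
  rw [pow_one]
  exact (index_facts hv.2.1 hv.2.2.1).1 b (h1 b hb)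

theorem aut_ppow_ne (N : ℕ) : (p : ℚ_[p]) ^ N ≠ 0 :=
  pow_ne_zero N (Nat.cast_ne_zero.2 (Fact.out : p.Prime).ne_zero)

theorem aut_norm_p_le : ‖(p : ℚ_[p])‖ ≤ 1 := by
  simpa using IsUltrametricDist.norm_natCast_le_one ℚ_[p] p

/-- a simple virtual endomorphism induces an automorphism of the Lie algebra -/
theorem ve_aut (m : LogModel p U lam) (am : AdModel p U lam Ad ad) (hS : Good U lam S) (k : ℕ)
    {H D : Subgroup G} {f : G → G} (h1 : ∀ a, Lv U lam S k a → a ∈ H)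
    (h2 : ∀ a ∈ H, Lv U lam S 0 a) (hv : VED p H D f) :
    ∃ φ : Module.End ℚ_[p] E, (∀ a ∈ D, φ (lam a) = lam (f a)) ∧ (∀ x ∈ S, φ x ∈ S) ∧
      (∀ x ∈ S, φ x = 0 → x = 0) ∧ ∀ x ∈ S, ∀ y ∈ S, φ (ad x y) = ad (φ x) (φ y) := by
  have hD : ∀ a, Lv U lam S (k + 1) a → a ∈ D := fun a ha => hv.aut_lv m h1 ha
  have hDU : ∀ a ∈ D, a ∈ U := fun a ha => (h2 a (hv.1 ha)).1
  have hfU : ∀ a ∈ D, f a ∈ U := fun a ha => (h2 _ (hv.2.2.2.2.1 a ha)).1
  obtain ⟨φ, hφ0⟩ := m.induced hS (k + 1) (fun a => lam (f a)) 1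
    (fun a ha => m.norm_le _ (hfU a (hD a ha)))
    (fun a ha => by
      show lam (f (a ^ p)) = _
      rw [hv.aut_pow (hD a ha), m.pow _ (hfU a (hD a ha))])
    (fun a b ha hb => by
      show ‖lam (f (a * b)) - lam (f a) - lam (f b)‖ ≤ 1 * ‖lam (f a)‖ * ‖lam (f b)‖
      rw [hv.2.2.2.1 a (hD a ha) b (hD b hb)]
      refine (m.mul _ (hfU a (hD a ha)) _ (hfU b (hD b hb))).trans ?_
      exact mul_le_mul_of_nonneg_right (mul_le_mul_of_nonneg_right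
        (pow_le_one₀ (norm_nonneg _) aut_norm_p_le) (norm_nonneg _)) (norm_nonneg _))
  have hφ : ∀ a ∈ D, φ (lam a) = lam (f a) := by
    intro a ha
    have h := hφ0 _ (m.exists_pow_lv (h2 a (hv.1 ha)) (k + 1))
    rw [hv.aut_pow ha, m.pow _ (hDU a ha), m.pow _ (hfU a ha), map_smul, Nat.cast_pow] at h
    exact smul_right_injective E (aut_ppow_ne (k + 1)) h
  have hsm : ∀ x ∈ S, ∃ (N : ℕ) (a : G), a ∈ D ∧ lam a = (p : ℚ_[p]) ^ N • x := by
    intro x hx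
    obtain ⟨N, a, ha, h⟩ := m.exists_small hx (k + 1)
    exact ⟨N, a, hD a ha, h⟩
  have hφS : ∀ x ∈ S, φ x ∈ S := by
    intro x hx
    obtain ⟨N, a, ha, h⟩ := hsm x hx
    have h3 : lam (f a) ∈ S := (h2 _ (hv.2.2.2.2.1 a ha)).2.1
    rw [← hφ a ha, h, map_smul] at h3
    exact (S.smul_mem_iff (aut_ppow_ne N)).1 h3
  have hAd : ∀ g ∈ D, ∀ y ∈ S, φ (Ad g y) = Ad (f g) (φ y) := by
    intro g hg y hy
    obtain ⟨N, a, ha, h⟩ := hsm y hy
    have h3 := hφ _ (hv.2.1 g (hv.1 hg) a ha)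
    rw [hv.aut_conj hg ha, am.conj g (hDU g hg) a (hDU a ha), am.conj _ (hfU g hg) _ (hfU a ha),
      ← hφ a ha, h, map_smul, map_smul, map_smul, map_smul] at h3
    exact smul_right_injective E (aut_ppow_ne N) h3
  have hbr : ∀ x ∈ S, ∀ y ∈ S, φ (ad x y) = ad (φ x) (φ y) := by
    intro x hx y hy
    obtain ⟨N, g, hg, h⟩ := hsm x hx
    have hc : Continuous φ := LinearMap.continuous_of_finiteDimensional φ
    have h3 := (hc.tendsto _).comp (am.lim g (hDU g hg) y)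
    have h4 := am.lim (f g) (hfU g hg) (φ y)
    have h5 : φ (ad (lam g) y) = ad (lam (f g)) (φ y) := by
      refine tendsto_nhds_unique h3 (h4.congr fun j => ?_)
      show _ = φ (((p : ℚ_[p]) ^ j)⁻¹ • (Ad (g ^ p ^ j) y - y))
      rw [map_smul, map_sub, hAd _ (D.pow_mem hg _) y hy, hv.aut_pow hg]
    rw [← hφ g hg, h, map_smul, map_smul, map_smul, LinearMap.smul_apply, LinearMap.smul_apply,
      map_smul] at h5
    exact smul_right_injective E (aut_ppow_ne N) h5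
  refine ⟨φ, hφ, hφS, ?_, hbr⟩
  have hAdS : ∀ g ∈ H, ∀ y ∈ S, Ad g y ∈ S := by
    intro g hg y hy
    obtain ⟨N, a, ha, h⟩ := hsm y hy
    have h3 : lam (g * a * g⁻¹) ∈ S := (h2 _ (hv.1 (hv.2.1 g hg a ha))).2.1
    rw [am.conj g (h2 g hg).1 a (hDU a ha), h, map_smul] at h3
    exact (S.smul_mem_iff (aut_ppow_ne N)).1 h3
  have hI : ∀ g ∈ H, ∀ y ∈ S ⊓ LinearMap.ker φ, Ad g y ∈ S ⊓ LinearMap.ker φ := by
    intro g hg
    refine (am.inv g (h2 g hg).1 (S ⊓ LinearMap.ker φ)).2 fun y hy => ⟨?_, ?_⟩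
    · exact (am.inv g (h2 g hg).1 S).1 (hAdS g hg) y hy.1
    · have h3 : φ y = 0 := hy.2
      show φ (ad (lam g) y) = 0
      rw [hbr _ (h2 g hg).2.1 y hy.1, h3, map_zero]
  have hone : ∀ a ∈ D, φ (lam a) = 0 → f a = 1 := by
    intro a ha h
    refine m.inj (hfU a ha) U.one_mem ?_
    rw [← hφ a ha, h, m.one]
  let N : Subgroup G :=
    { carrier := {a | a ∈ D ∧ f a = 1}
      one_mem' := ⟨D.one_mem, hv.aut_one⟩
      mul_mem' := fun {a b} ha hb =>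
        ⟨D.mul_mem ha.1 hb.1, by rw [hv.2.2.2.1 a ha.1 b hb.1, ha.2, hb.2, mul_one]⟩
      inv_mem' := fun {a} ha => ⟨D.inv_mem ha.1, by rw [hv.aut_inv ha.1, ha.2, inv_one]⟩ }
  have hN : N = ⊥ := by
    refine hv.2.2.2.2.2 N (fun a ha => ha.1) (fun h hh n hn => ?_) fun n hn => ?_
    · have hn1 : n ∈ D := hn.1
      have hn2 : f n = 1 := hn.2
      refine ⟨hv.2.1 h hh n hn1, hone _ (hv.2.1 h hh n hn1) ?_⟩
      rw [am.conj h (h2 h hh).1 n (hDU n hn1)]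
      refine (hI h hh (lam n) ⟨(h2 n (hv.1 hn1)).2.1, ?_⟩).2
      show φ (lam n) = 0
      rw [hφ n hn1, hn2, m.one]
    · have hn2 : f n = 1 := hn.2
      rw [hn2]
      exact N.one_mem
  intro x hx h0
  obtain ⟨M, a, ha, h⟩ := hsm x hx
  have h3 : a ∈ N := ⟨ha, hone a ha (by rw [h, map_smul, h0, smul_zero])⟩
  rw [hN, Subgroup.mem_bot] at h3
  rw [h3, m.one] at h
  exact (smul_eq_zero.1 h.symm).resolve_left (aut_ppow_ne M)

/-- a small invariant set generates an invariant normal subgroup -/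
theorem not_ved_of_inv (m : LogModel p U lam) (am : AdModel p U lam Ad ad) (k : ℕ)
    {H D : Subgroup G} {f : G → G} (h1 : ∀ a, Lv U lam (⊤ : Submodule ℚ_[p] E) k a → a ∈ H)
    (h2 : H ≤ U) (hv : VED p H D f) (φ : Module.End ℚ_[p] E)
    (hφ : ∀ a ∈ D, φ (lam a) = lam (f a)) (Ω : Set E)
    (hΩ : ∀ x ∈ Ω, ‖x‖ ≤ ‖(p : ℚ_[p])‖ ^ (k + 1)) (hne : ∃ x ∈ Ω, x ≠ 0)
    (hφΩ : ∀ x ∈ Ω, φ x ∈ Ω) (hAd : ∀ g ∈ H, ∀ x ∈ Ω, Ad g x ∈ Ω) : False := by
  have hgen : ∀ a ∈ {a : G | a ∈ U ∧ lam a ∈ Ω}, a ∈ D := fun a ha =>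
    hv.aut_lv m h1 ⟨ha.1, trivial, hΩ _ ha.2⟩
  have hle : Subgroup.closure {a : G | a ∈ U ∧ lam a ∈ Ω} ≤ D := (Subgroup.closure_le D).2 hgen
  have hN : Subgroup.closure {a : G | a ∈ U ∧ lam a ∈ Ω} = ⊥ := by
    refine hv.2.2.2.2.2 _ hle (fun h hh n hn => ?_) fun n hn => ?_
    · induction hn using Subgroup.closure_induction with
      | mem a ha =>
        refine Subgroup.subset_closure ⟨U.mul_mem (U.mul_mem (h2 hh) ha.1) (U.inv_mem (h2 hh)), ?_⟩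
        rw [am.conj h (h2 hh) a ha.1]
        exact hAd h hh _ ha.2
      | one => rw [mul_one, mul_inv_cancel]; exact Subgroup.one_mem _
      | mul a b _ _ iha ihb =>
        have e : h * (a * b) * h⁻¹ = (h * a * h⁻¹) * (h * b * h⁻¹) := by group
        rw [e]
        exact Subgroup.mul_mem _ iha ihb
      | inv a _ iha =>
        have e : h * a⁻¹ * h⁻¹ = (h * a * h⁻¹)⁻¹ := by group
        rw [e]
        exact Subgroup.inv_mem _ iha
    · induction hn using Subgroup.closure_induction with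
      | mem a ha =>
        refine Subgroup.subset_closure ⟨h2 (hv.2.2.2.2.1 a (hgen a ha)), ?_⟩
        rw [← hφ a (hgen a ha)]
        exact hφΩ _ ha.2
      | one => rw [hv.aut_one]; exact Subgroup.one_mem _
      | mul a b ha hb iha ihb =>
        rw [hv.2.2.2.1 a (hle ha) b (hle hb)]
        exact Subgroup.mul_mem _ iha ihb
      | inv a ha iha =>
        rw [hv.aut_inv (hle ha)]
        exact Subgroup.inv_mem _ iha
  obtain ⟨x, hx, hx0⟩ := hne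
  obtain ⟨a, ha, rfl⟩ := m.surj x
    ((hΩ x hx).trans (pow_le_one₀ (norm_nonneg _) aut_norm_p_le))
  have h3 : a ∈ Subgroup.closure {a : G | a ∈ U ∧ lam a ∈ Ω} := Subgroup.subset_closure ⟨ha, hx⟩
  rw [hN, Subgroup.mem_bot] at h3
  exact hx0 (by rw [h3, m.one])

end Pool.Agent.Lib.MP_2dbb30_al.AN
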