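import Pool.Agent.Lib.MP_2dbb30_al.AN.Aut

set_option autoImplicit false
set_option linter.unusedSectionVars false

open Topology Filter

namespace Pool.Agent.Lib.MP_2dbb30_al.AN

open Pool.Agent.Lib.MP_2dbb30_al.TF

variable {p : ℕ} [Fact p.Prime] {G : Type*} [Group G] [TopologicalSpace G] [IsTopologicalGroup G]
  [CompactSpace G] [T2Space G] [TotallyDisconnectedSpace G]
  {E : Type*} [NormedAddCommGroup E] [NormedSpace ℚ_[p] E] [IsUltrametricDist E]
  [FiniteDimensional ℚ_[p] E] {U : Subgroup G} {lam : G → E} {Ad : G → Module.End ℚ_[p] E}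
  {ad : E →ₗ[ℚ_[p]] E →ₗ[ℚ_[p]] E} {S : Submodule ℚ_[p] E}

theorem ppow_ne (N : ℕ) : ((p : ℚ_[p]) ^ N) ≠ 0 :=
  pow_ne_zero _ (Nat.cast_ne_zero.2 (Fact.out : p.Prime).ne_zero)

/-- two elements of `U` commute exactly when their logarithms do -/
theorem comm_iff (m : LogModel p U lam) (am : AdModel p U lam Ad ad) {a b : G} (ha : a ∈ U)
    (hb : b ∈ U) : a * b = b * a ↔ ad (lam a) (lam b) = 0 := by
  rw [← am.fix a ha, ← am.conj a ha b hb, ← mul_inv_eq_iff_eq_mul]
  exact ⟨fun h => by rw [h], fun h => m.inj (U.mul_mem (U.mul_mem ha hb) (U.inv_mem ha)) hb h⟩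

theorem good_cent (am : AdModel p U lam Ad ad) (e : E) :
    Good U lam (LinearMap.ker (ad.flip e)) := by
  intro a ha b hb h1 h2
  rw [LinearMap.mem_ker, LinearMap.flip_apply] at h1 h2 ⊢
  rw [← am.fix a ha] at h1
  rw [← am.fix b hb] at h2
  rw [← am.fix _ (U.mul_mem ha hb), am.mul a ha b hb, Module.End.mul_apply, h2, h1]

/-- a group with a simple virtual endomorphism and a central element outside the domain -/
theorem comm_of_central {H D : Subgroup G} {f : G → G} (hv : VED p H D f) {z : G} (hz : z ∈ H)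
    (hzD : z ∉ D) (hc : ∀ h ∈ H, z * h = h * z) : ∀ a ∈ H, ∀ b ∈ H, a * b = b * a := by
  obtain ⟨hDH, hn, hi, hf, hfH, hs⟩ := hv
  obtain ⟨-, i2, i3, -⟩ := index_facts hn hi
  have f1 : f 1 = 1 := by
    have := hf 1 D.one_mem 1 D.one_mem
    rw [mul_one] at this
    exact mul_eq_left.1 this.symm
  have fi : ∀ a ∈ D, f a⁻¹ = (f a)⁻¹ := fun a ha => by
    apply eq_inv_of_mul_eq_one_left
    rw [← hf _ (D.inv_mem ha) _ ha, inv_mul_cancel, f1]
  let X : Set G := {c | ∃ h ∈ H, ∃ k ∈ H, c = h * k * h⁻¹ * k⁻¹}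
  have hND : Subgroup.closure X ≤ D := (Subgroup.closure_le _).2 (by
    rintro _ ⟨h, hh, k, hk, rfl⟩
    exact i2 h hh k hk)
  have hN := hs (Subgroup.closure X) hND (fun h hh n hn' => by
      induction hn' using Subgroup.closure_induction with
      | mem x hx =>
        obtain ⟨a, ha, b, hb, rfl⟩ := hx
        exact Subgroup.subset_closure ⟨h * a * h⁻¹, H.mul_mem (H.mul_mem hh ha) (H.inv_mem hh),
          h * b * h⁻¹, H.mul_mem (H.mul_mem hh hb) (H.inv_mem hh), by group⟩
      | one => simp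
      | mul x y _ _ h1 h2 =>
        have e : h * (x * y) * h⁻¹ = h * x * h⁻¹ * (h * y * h⁻¹) := by group
        rw [e]
        exact Subgroup.mul_mem _ h1 h2
      | inv x _ h1 =>
        have e : h * x⁻¹ * h⁻¹ = (h * x * h⁻¹)⁻¹ := by group
        rw [e]
        exact Subgroup.inv_mem _ h1)
    (fun n hn' => by
      induction hn' using Subgroup.closure_induction with
      | mem x hx =>
        obtain ⟨a, ha, b, hb, rfl⟩ := hx
        obtain ⟨i, hi'⟩ := i3 z hz hzD a ha
        obtain ⟨j, hj'⟩ := i3 z hz hzD b hb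
        generalize hd : (z ^ i)⁻¹ * a = d at hi'
        generalize hd' : (z ^ j)⁻¹ * b = d' at hj'
        have ea : a = z ^ i * d := by rw [← hd, mul_inv_cancel_left]
        have eb : b = z ^ j * d' := by rw [← hd', mul_inv_cancel_left]
        have c1 : Commute z d := hc d (hDH hi')
        have c2 : Commute z d' := hc d' (hDH hj')
        have e : a * b * a⁻¹ * b⁻¹ = d * d' * d⁻¹ * d'⁻¹ := by
          have k1 : a * b * a⁻¹ = d * b * d⁻¹ := by
            have c3 : Commute (z ^ i) (d * b * d⁻¹) :=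
              Commute.pow_left (hc _ (H.mul_mem (H.mul_mem (hDH hi') hb)
                (H.inv_mem (hDH hi')))) i
            calc a * b * a⁻¹ = z ^ i * (d * b * d⁻¹) * (z ^ i)⁻¹ := by rw [ea]; group
              _ = d * b * d⁻¹ := by rw [c3.eq, mul_inv_cancel_right]
          have k2 : b * d⁻¹ * b⁻¹ = d' * d⁻¹ * d'⁻¹ := by
            have c3 : Commute (z ^ j) (d' * d⁻¹ * d'⁻¹) :=
              Commute.pow_left (hc _ (H.mul_mem (H.mul_mem (hDH hj') (H.inv_mem (hDH hi')))
                (H.inv_mem (hDH hj')))) j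
            calc b * d⁻¹ * b⁻¹ = z ^ j * (d' * d⁻¹ * d'⁻¹) * (z ^ j)⁻¹ := by rw [eb]; group
              _ = d' * d⁻¹ * d'⁻¹ := by rw [c3.eq, mul_inv_cancel_right]
          calc a * b * a⁻¹ * b⁻¹ = d * (b * d⁻¹ * b⁻¹) := by rw [k1]; group
            _ = d * d' * d⁻¹ * d'⁻¹ := by rw [k2]; group
        rw [e, hf _ (D.mul_mem (D.mul_mem hi' hj') (D.inv_mem hi')) _ (D.inv_mem hj'),
          hf _ (D.mul_mem hi' hj') _ (D.inv_mem hi'), hf _ hi' _ hj', fi _ hi', fi _ hj']
        exact Subgroup.subset_closure ⟨_, hfH _ hi', _, hfH _ hj', rfl⟩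
      | one => rw [f1]; exact Subgroup.one_mem _
      | mul x y hx hy h1 h2 =>
        rw [hf _ (hND hx) _ (hND hy)]
        exact Subgroup.mul_mem _ h1 h2
      | inv x hx h1 =>
        rw [fi _ (hND hx)]
        exact Subgroup.inv_mem _ h1)
  intro a ha b hb
  have : a * b * a⁻¹ * b⁻¹ ∈ Subgroup.closure X := Subgroup.subset_closure ⟨a, ha, b, hb, rfl⟩
  rw [hN, Subgroup.mem_bot, mul_inv_eq_one, mul_inv_eq_iff_eq_mul] at this
  exact this

/-- centralisers of nonzero elements are abelian -/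
theorem cent_abelian (m : LogModel p U lam) (am : AdModel p U lam Ad ad) (hG : ProP p G)
    (hss : SH p G) {e : E} (he : e ≠ 0) (x y : E) (hx : ad x e = 0) (hy : ad y e = 0) :
    ad x y = 0 := by
  have hS := good_cent am e
  generalize hSe : LinearMap.ker (ad.flip e) = S at hS
  have mS : ∀ w, w ∈ S ↔ ad w e = 0 := fun w => by
    rw [← hSe, LinearMap.mem_ker, LinearMap.flip_apply]
  obtain ⟨H, hH, hm⟩ := m.exists_lvl hS 0
  obtain ⟨N, ε, hε, eε⟩ := m.exists_small ((mS e).2 (am.alt e)) 0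
  have hε1 : ε ≠ 1 := fun h => by
    rw [h, m.one] at eε
    exact smul_ne_zero (ppow_ne N) he eε.symm
  have hne : H ≠ ⊥ := fun h => hε1 (by
    have := (hm ε).2 hε
    rwa [h, Subgroup.mem_bot] at this)
  obtain ⟨D, f, hv⟩ := ve_iff.1 (ve_of_selfSimilar hG H hH (hss H hne
    (m.fg hS 0 H hH (fun a h => (hm a).2 h) fun a h => (hm a).1 h)))
  have scale : ∀ z ∈ H, (∀ h ∈ H, z * h = h * z) → ∀ w ∈ S, ad (lam z) w = 0 := by
    intro z hz hc w hw
    obtain ⟨M, b, hb, eb⟩ := m.exists_small hw 0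
    have := (comm_iff m am ((hm z).1 hz).1 hb.1).1 (hc b ((hm b).2 hb))
    rw [eb, map_smul] at this
    exact (smul_eq_zero.1 this).resolve_left (ppow_ne M)
  have key : ∀ a ∈ H, ∀ b ∈ H, a * b = b * a := by
    by_cases hZ : ∀ z ∈ H, (∀ h ∈ H, z * h = h * z) → z ∈ D
    · exfalso
      obtain ⟨φ, h1, h2, h3, h4⟩ := ve_aut m am hS 0 (fun a h => (hm a).2 h)
        (fun a h => (hm a).1 h) hv
      have hsurj : Function.Surjective (φ.restrict h2) :=
        LinearMap.injective_iff_surjective.1 ((injective_iff_map_eq_zero _).2 fun w hw =>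
          Subtype.ext (h3 w w.2 (congrArg Subtype.val hw)))
      have mZ : ∀ z, z ∈ H ⊓ Subgroup.centralizer (H : Set G) ↔
          z ∈ H ∧ ∀ h ∈ H, z * h = h * z := fun z => by
        rw [Subgroup.mem_inf, Subgroup.mem_centralizer_iff]
        exact and_congr_right fun _ => forall₂_congr fun _ _ => eq_comm
      have hb := hv.2.2.2.2.2 (H ⊓ Subgroup.centralizer (H : Set G))
        (fun z hz => hZ z ((mZ z).1 hz).1 ((mZ z).1 hz).2)
        (fun h hh z hz => by rwa [← ((mZ z).1 hz).2 h hh, mul_inv_cancel_right])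
        (fun z hz => by
          obtain ⟨z1, z2⟩ := (mZ z).1 hz
          have hzD := hZ z z1 z2
          have hf := hv.2.2.2.2.1 z hzD
          refine (mZ _).2 ⟨hf, fun h hh => ?_⟩
          obtain ⟨w, hw⟩ := hsurj ⟨lam h, ((hm h).1 hh).2.1⟩
          have hw' : φ w = lam h := congrArg Subtype.val hw
          rw [comm_iff m am ((hm _).1 hf).1 ((hm h).1 hh).1, ← h1 z hzD, ← hw',
            ← h4 _ ((hm z).1 z1).2.1 _ w.2, scale z z1 z2 w w.2, map_zero])
      have : ε ∈ H ⊓ Subgroup.centralizer (H : Set G) := (mZ ε).2 ⟨(hm ε).2 hε, fun h hh => by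
        symm
        rw [comm_iff m am ((hm h).1 hh).1 hε.1, eε, map_smul, (mS _).1 ((hm h).1 hh).2.1,
          smul_zero]⟩
      rw [hb, Subgroup.mem_bot] at this
      exact hε1 this
    · obtain ⟨z, hz⟩ := not_forall.1 hZ
      obtain ⟨z1, hz⟩ := Classical.not_imp.1 hz
      obtain ⟨z2, z3⟩ := Classical.not_imp.1 hz
      exact comm_of_central hv z1 z3 z2
  obtain ⟨M, a, ha, ea⟩ := m.exists_small ((mS x).2 hx) 0
  have := scale a ((hm a).2 ha) (key a ((hm a).2 ha)) y ((mS y).2 hy)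
  rw [ea, map_smul, LinearMap.smul_apply] at this
  exact (smul_eq_zero.1 this).resolve_left (ppow_ne M)

end Pool.Agent.Lib.MP_2dbb30_al.AN
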