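import Pool.Agent.Lib.MP_2dbb30_al.AN.Defs

set_option autoImplicit false
set_option linter.unusedSectionVars false

open Topology Filter

namespace Pool.Agent.Lib.MP_2dbb30_al.AN

open Pool.Agent.Lib.MP_2dbb30_al.TF

open scoped Manifold ContDiff

/-- the quadratic Lipschitz bound for multiplication read in a chart at the identity -/
theorem chart_quad {𝕜 E G : Type*} [NontriviallyNormedField 𝕜] [NormedAddCommGroup E]
    [NormedSpace 𝕜 E] [Group G] [TopologicalSpace G] [IsTopologicalGroup G] [ChartedSpace E G]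
    [LieGroup 𝓘(𝕜, E) ω G] :
    ∃ C ε : ℝ, 0 < ε ∧ (∀ u : E, ‖u - chartAt E (1 : G) 1‖ < ε → u ∈ (chartAt E (1 : G)).target) ∧
      ∀ a b a' b' : G, a ∈ (chartAt E (1 : G)).source → b ∈ (chartAt E (1 : G)).source →
        a' ∈ (chartAt E (1 : G)).source → b' ∈ (chartAt E (1 : G)).source →
        ‖chartAt E (1 : G) a - chartAt E (1 : G) 1‖ < ε →
        ‖chartAt E (1 : G) b - chartAt E (1 : G) 1‖ < ε →
        ‖chartAt E (1 : G) a' - chartAt E (1 : G) 1‖ < ε →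
        ‖chartAt E (1 : G) b' - chartAt E (1 : G) 1‖ < ε →
        a * b ∈ (chartAt E (1 : G)).source ∧
        ‖chartAt E (1 : G) (a * b) - chartAt E (1 : G) (a' * b') -
            ((chartAt E (1 : G) a - chartAt E (1 : G) a') +
              (chartAt E (1 : G) b - chartAt E (1 : G) b'))‖ ≤
          C * (max (max ‖chartAt E (1 : G) a - chartAt E (1 : G) 1‖
              ‖chartAt E (1 : G) b - chartAt E (1 : G) 1‖)
            (max ‖chartAt E (1 : G) a' - chartAt E (1 : G) 1‖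
              ‖chartAt E (1 : G) b' - chartAt E (1 : G) 1‖) *
            max ‖chartAt E (1 : G) a - chartAt E (1 : G) a'‖
              ‖chartAt E (1 : G) b - chartAt E (1 : G) b'‖) := by
  have h1s : (1 : G) ∈ (chartAt E (1 : G)).source := mem_chart_source E 1
  have c1 : ContMDiffOn 𝓘(𝕜, E) 𝓘(𝕜, E) ω (chartAt E (1 : G)) (chartAt E (1 : G)).source :=
    contMDiffOn_chart
  have c2 : ContMDiffOn 𝓘(𝕜, E) 𝓘(𝕜, E) ω (chartAt E (1 : G)).symm (chartAt E (1 : G)).target :=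
    contMDiffOn_chart_symm
  generalize chartAt E (1 : G) = φ at h1s c1 c2 ⊢
  have hx0 : φ 1 ∈ φ.target := φ.map_source h1s
  have htn : φ.target ∈ 𝓝 (φ 1) := φ.open_target.mem_nhds hx0
  have hsn : φ.source ∈ 𝓝 (1 : G) := φ.open_source.mem_nhds h1s
  have hs1 : φ.symm (φ 1) = 1 := φ.left_inv h1s
  have d2 : ContMDiffAt 𝓘(𝕜, E) 𝓘(𝕜, E) ω φ.symm (φ 1) := c2.contMDiffAt htn
  have d1 : ContMDiffAt 𝓘(𝕜, E) 𝓘(𝕜, E) ω φ 1 := c1.contMDiffAt hsn
  have e1 : ContMDiffAt 𝓘(𝕜, E × E) 𝓘(𝕜, E) ω (fun q : E × E => φ.symm q.1) (φ 1, φ 1) :=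
    ContMDiffAt.comp (φ 1, φ 1) (g := φ.symm) (f := fun q : E × E => q.1) d2
      (contMDiffAt_iff_contDiffAt.2 contDiffAt_fst)
  have e2 : ContMDiffAt 𝓘(𝕜, E × E) 𝓘(𝕜, E) ω (fun q : E × E => φ.symm q.2) (φ 1, φ 1) :=
    ContMDiffAt.comp (φ 1, φ 1) (g := φ.symm) (f := fun q : E × E => q.2) d2
      (contMDiffAt_iff_contDiffAt.2 contDiffAt_snd)
  have e3 : ContMDiffAt 𝓘(𝕜, E × E) 𝓘(𝕜, E) ω (fun q : E × E => φ.symm q.1 * φ.symm q.2)
      (φ 1, φ 1) := e1.mul e2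
  have e4 : ContMDiffAt 𝓘(𝕜, E × E) 𝓘(𝕜, E) ω (fun q : E × E => φ (φ.symm q.1 * φ.symm q.2))
      (φ 1, φ 1) :=
    ContMDiffAt.comp (φ 1, φ 1) (g := φ) (f := fun q : E × E => φ.symm q.1 * φ.symm q.2)
      (by simpa [hs1] using d1) e3
  obtain ⟨P, hP⟩ := (contMDiffAt_iff_contDiffAt.1 e4).analyticAt
  have hD := hP.hasFDerivAt
  set L := continuousMultilinearCurryFin1 𝕜 (E × E) E (P 1) with hL
  have hid : HasFDerivAt (fun u : E => u) (ContinuousLinearMap.id 𝕜 E) (φ 1) := hasFDerivAt_id _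
  have hc : HasFDerivAt (fun _ : E => φ 1) (0 : E →L[𝕜] E) (φ 1) := hasFDerivAt_const _ _
  have k1 : L.comp ((ContinuousLinearMap.id 𝕜 E).prod 0) = ContinuousLinearMap.id 𝕜 E := by
    have := HasFDerivAt.comp (φ 1) (g := fun q : E × E => φ (φ.symm q.1 * φ.symm q.2))
      (f := fun u : E => (u, φ 1)) hD (hid.prodMk hc)
    refine this.unique (hid.congr_of_eventuallyEq ?_)
    filter_upwards [htn] with u hu
    simp only [Function.comp, hs1, mul_one, φ.right_inv hu]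
  have k2 : L.comp ((0 : E →L[𝕜] E).prod (ContinuousLinearMap.id 𝕜 E)) =
      ContinuousLinearMap.id 𝕜 E := by
    have := HasFDerivAt.comp (φ 1) (g := fun q : E × E => φ (φ.symm q.1 * φ.symm q.2))
      (f := fun u : E => (φ 1, u)) hD (hc.prodMk hid)
    refine this.unique (hid.congr_of_eventuallyEq ?_)
    filter_upwards [htn] with u hu
    simp only [Function.comp, hs1, one_mul, φ.right_inv hu]
  have hLa : ∀ u v : E, L (u, v) = u + v := by
    intro u v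
    have a1 : L (u, 0) = u := by simpa using congrArg (fun T : E →L[𝕜] E => T u) k1
    have a2 : L (0, v) = v := by simpa using congrArg (fun T : E →L[𝕜] E => T v) k2
    have : ((u, v) : E × E) = (u, 0) + (0, v) := by simp
    rw [this, map_add, a1, a2]
  have hPL : ∀ w : E × E, (P 1 fun _ => w) = w.1 + w.2 := by
    intro w
    rw [← hLa w.1 w.2, hL, continuousMultilinearCurryFin1_apply]
    refine congrArg (P 1) (funext fun i => ?_)
    rw [Subsingleton.elim i (Fin.last 0), Fin.snoc_last]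
  obtain ⟨C, hC⟩ := hP.isBigO_image_sub_norm_mul_norm_sub.bound
  have hsrc : ∀ᶠ y : (E × E) × E × E in 𝓝 ((φ 1, φ 1), (φ 1, φ 1)),
      φ.symm y.1.1 * φ.symm y.1.2 ∈ φ.source := by
    have : ContinuousAt (fun y : (E × E) × E × E => φ.symm y.1.1 * φ.symm y.1.2)
        ((φ 1, φ 1), (φ 1, φ 1)) :=
      ContinuousAt.comp (g := fun q : E × E => φ.symm q.1 * φ.symm q.2)
        (f := fun y : (E × E) × E × E => y.1) e3.continuousAt continuousAt_fst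
    exact this.eventually (by simpa [hs1] using hsn)
  obtain ⟨ε1, hε1, H1⟩ := Metric.eventually_nhds_iff.1 (hC.and hsrc)
  obtain ⟨ε2, hε2, H2⟩ := Metric.eventually_nhds_iff.1 (show ∀ᶠ u in 𝓝 (φ 1), u ∈ φ.target from htn)
  refine ⟨C, min ε1 ε2, lt_min hε1 hε2, fun u hu => H2 ?_, ?_⟩
  · rw [dist_eq_norm]; exact hu.trans_le (min_le_right _ _)
  intro a b a' b' ha hb ha' hb' na nb na' nb'
  have := @H1 ((φ a, φ b), (φ a', φ b')) (by
    rw [dist_eq_norm]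
    simp only [Prod.mk_sub_mk, Prod.norm_mk, max_lt_iff]
    exact ⟨⟨na.trans_le (min_le_left _ _), nb.trans_le (min_le_left _ _)⟩,
      na'.trans_le (min_le_left _ _), nb'.trans_le (min_le_left _ _)⟩)
  simp only [φ.left_inv ha, φ.left_inv hb, φ.left_inv ha', φ.left_inv hb', hPL, Prod.mk_sub_mk,
    Prod.norm_mk] at this
  refine ⟨this.2, this.1.trans (le_of_eq ?_)⟩
  rw [Real.norm_of_nonneg (by positivity)]

variable {p : ℕ} [Fact p.Prime] {G : Type*} [Group G] [TopologicalSpace G] [IsTopologicalGroup G]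
  [CompactSpace G] [T2Space G] [TotallyDisconnectedSpace G]

theorem exists_chartModel (hG : ProP p G) {n : ℕ} [ChartedSpace (Fin n → ℚ_[p]) G]
    [LieGroup 𝓘(ℚ_[p], Fin n → ℚ_[p]) ω G] :
    ∃ (U : Subgroup G) (c : G → Fin n → ℚ_[p]), ChartModel p U c := by
  obtain ⟨C, ε, hε, htgt, hq⟩ := chart_quad (𝕜 := ℚ_[p]) (E := Fin n → ℚ_[p]) (G := G)
  have h1s : (1 : G) ∈ (chartAt (Fin n → ℚ_[p]) (1 : G)).source := mem_chart_source _ 1
  generalize chartAt (Fin n → ℚ_[p]) (1 : G) = φ at h1s htgt hq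
  have hp0 : (p : ℚ_[p]) ≠ 0 := Nat.cast_ne_zero.2 (Fact.out : p.Prime).ne_zero
  have hq0 : 0 < ‖(p : ℚ_[p])‖ := norm_pos_iff.2 hp0
  have hq1 : ‖(p : ℚ_[p])‖ < 1 := Padic.norm_p_lt_one
  have hlim : Tendsto (fun s : ℕ => ‖(p : ℚ_[p])‖ ^ s) atTop (𝓝 0) :=
    tendsto_pow_atTop_nhds_zero_of_lt_one hq0.le hq1
  have hlim2 : Tendsto (fun s : ℕ => C * ‖(p : ℚ_[p])‖ ^ s) atTop (𝓝 0) := by
    simpa using hlim.const_mul C
  obtain ⟨s, hs1, hs2⟩ := ((hlim.eventually (gt_mem_nhds hε)).and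
    (hlim2.eventually (gt_mem_nhds (pow_pos hq0 3)))).exists
  rw [← norm_pow] at hs1 hs2
  have ht0 : (p : ℚ_[p]) ^ s ≠ 0 := pow_ne_zero _ hp0
  generalize (p : ℚ_[p]) ^ s = t at hs1 hs2 ht0
  have htn : 0 < ‖t‖ := norm_pos_iff.2 ht0
  obtain ⟨c, hc⟩ : ∃ c : G → Fin n → ℚ_[p], ∀ a, c a = t⁻¹ • (φ a - φ 1) := ⟨_, fun _ => rfl⟩
  have hc0 : ∀ a, φ a - φ 1 = t • c a := fun a => by rw [hc, smul_inv_smul₀ ht0]
  have hc1 : ∀ a, ‖φ a - φ 1‖ = ‖t‖ * ‖c a‖ := fun a => by rw [hc0, norm_smul]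
  have hc2 : ∀ a b, φ a - φ b = t • (c a - c b) := fun a b => by
    rw [smul_sub, ← hc0, ← hc0]; abel
  have hc3 : ∀ a b, ‖φ a - φ b‖ = ‖t‖ * ‖c a - c b‖ := fun a b => by rw [hc2, norm_smul]
  have hone : c 1 = 0 := by rw [hc, sub_self, smul_zero]
  have hle : ∀ a, ‖c a‖ ≤ 1 ↔ ‖φ a - φ 1‖ ≤ ‖t‖ := fun a => by
    rw [hc1]
    exact (mul_le_iff_le_one_right htn).symm
  have key : ∀ a b a' b' : G, (a ∈ φ.source ∧ ‖c a‖ ≤ 1) → (b ∈ φ.source ∧ ‖c b‖ ≤ 1) →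
      (a' ∈ φ.source ∧ ‖c a'‖ ≤ 1) → (b' ∈ φ.source ∧ ‖c b'‖ ≤ 1) → a * b ∈ φ.source ∧
      ‖c (a * b) - c (a' * b') - (c a - c a') - (c b - c b')‖ ≤
        ‖(p : ℚ_[p])‖ ^ 3 * max (max ‖c a‖ ‖c b‖) (max ‖c a'‖ ‖c b'‖) *
          max ‖c a - c a'‖ ‖c b - c b'‖ := by
    intro a b a' b' ha hb ha' hb'
    obtain ⟨k1, k2⟩ := hq a b a' b' ha.1 hb.1 ha'.1 hb'.1 (((hle _).1 ha.2).trans_lt hs1)
      (((hle _).1 hb.2).trans_lt hs1) (((hle _).1 ha'.2).trans_lt hs1)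
      (((hle _).1 hb'.2).trans_lt hs1)
    refine ⟨k1, ?_⟩
    rw [hc1, hc1, hc1, hc1, hc3, hc3, hc2, hc2, hc2, ← smul_add, ← smul_sub, norm_smul,
      ← mul_max_of_nonneg _ _ htn.le, ← mul_max_of_nonneg _ _ htn.le,
      ← mul_max_of_nonneg _ _ htn.le, ← mul_max_of_nonneg _ _ htn.le, ← sub_sub] at k2
    have hM : 0 ≤ max (max ‖c a‖ ‖c b‖) (max ‖c a'‖ ‖c b'‖) * max ‖c a - c a'‖ ‖c b - c b'‖ := by
      positivity
    generalize max (max ‖c a‖ ‖c b‖) (max ‖c a'‖ ‖c b'‖) = M at k2 hM ⊢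
    generalize max ‖c a - c a'‖ ‖c b - c b'‖ = D at k2 hM ⊢
    have k3 : C * (‖t‖ * M * (‖t‖ * D)) = ‖t‖ * (C * ‖t‖ * (M * D)) := by ring
    rw [k3] at k2
    refine (le_of_mul_le_mul_left k2 htn).trans ?_
    rw [mul_assoc (‖(p : ℚ_[p])‖ ^ 3)]
    exact mul_le_mul_of_nonneg_right hs2.le hM
  have h1W : (1 : G) ∈ φ.source ∧ ‖c 1‖ ≤ 1 := ⟨h1s, by rw [hone, norm_zero]; exact zero_le_one⟩
  have hmul : ∀ a b : G, (a ∈ φ.source ∧ ‖c a‖ ≤ 1) → (b ∈ φ.source ∧ ‖c b‖ ≤ 1) →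
      a * b ∈ φ.source ∧ ‖c (a * b)‖ ≤ 1 := by
    intro a b ha hb
    obtain ⟨k1, k2⟩ := key a b 1 1 ha hb h1W h1W
    refine ⟨k1, ?_⟩
    rw [mul_one, hone, sub_zero, sub_zero, sub_zero, norm_zero, max_self] at k2
    have m1 : max ‖c a‖ ‖c b‖ ≤ 1 := max_le ha.2 hb.2
    have k3 : ‖c (a * b) - c a - c b‖ ≤ 1 := k2.trans
      (mul_le_one₀ (mul_le_one₀ (pow_le_one₀ hq0.le hq1.le) (by positivity)
        (max_le m1 zero_le_one)) (by positivity) m1)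
    have e : c (a * b) = (c (a * b) - c a - c b) + (c a + c b) := by abel
    rw [e]
    exact (IsUltrametricDist.norm_add_le_max _ _).trans
      (max_le k3 ((IsUltrametricDist.norm_add_le_max _ _).trans m1))
  have hW : {a | a ∈ φ.source ∧ ‖c a‖ ≤ 1} = φ.source ∩ φ ⁻¹' Metric.closedBall (φ 1) ‖t‖ := by
    ext a
    simp only [Set.mem_ofPred_eq, Set.mem_inter_iff, Set.mem_preimage, Metric.mem_closedBall,
      dist_eq_norm, hle]
  have hball : Metric.closedBall (φ 1) ‖t‖ ⊆ φ.target := fun u hu =>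
    htgt u ((mem_closedBall_iff_norm.1 hu).trans_lt hs1)
  have hopen : IsOpen {a | a ∈ φ.source ∧ ‖c a‖ ≤ 1} := by
    rw [hW]
    exact φ.isOpen_inter_preimage (IsUltrametricDist.isOpen_closedBall _ htn.ne')
  have hclosed : IsClosed {a | a ∈ φ.source ∧ ‖c a‖ ≤ 1} := by
    rw [hW, ← φ.symm_image_eq_source_inter_preimage hball]
    exact ((isCompact_closedBall _ _).image_of_continuousOn
      (φ.continuousOn_symm.mono hball)).isClosed
  have hinv : ∀ a : G, (a ∈ φ.source ∧ ‖c a‖ ≤ 1) → a⁻¹ ∈ φ.source ∧ ‖c a⁻¹‖ ≤ 1 := by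
    intro a ha
    have h1 : a⁻¹ ∈ closure (Set.range (a ^ · : ℤ → G)) := subset_closure ⟨-1, by simp⟩
    rw [closure_range_zpow_eq_pow] at h1
    refine hclosed.closure_subset_iff.2 ?_ h1
    rintro _ ⟨k, rfl⟩
    induction k with
    | zero => simpa using h1W
    | succ k ih =>
      show a ^ (k + 1) ∈ φ.source ∧ ‖c (a ^ (k + 1))‖ ≤ 1
      rw [pow_succ]
      exact hmul _ _ ih ha
  refine ⟨⟨⟨⟨{a | a ∈ φ.source ∧ ‖c a‖ ≤ 1}, fun ha hb => hmul _ _ ha hb⟩, h1W⟩,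
    fun ha => hinv _ ha⟩, c, hopen, ?_, fun a ha => ha.2, ?_, ?_, hone,
    fun a ha b hb a' ha' b' hb' => (key a b a' b' ha hb ha' hb').2⟩
  · have : ContinuousOn (fun a => t⁻¹ • (φ a - φ 1)) φ.source :=
      (φ.continuousOn.sub (continuousOn_const (c := φ 1))).const_smul t⁻¹
    exact (this.congr fun a _ => hc a).mono fun a ha => ha.1
  · intro a ha b hb hab
    refine φ.injOn ha.1 hb.1 (sub_eq_zero.1 ?_)
    rw [hc2, hab, sub_self, smul_zero]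
  · intro x hx
    have hu : φ 1 + t • x ∈ φ.target := htgt _ (by
      rw [add_sub_cancel_left, norm_smul]
      exact (mul_le_of_le_one_right htn.le hx).trans_lt hs1)
    have e : c (φ.symm (φ 1 + t • x)) = x := by
      rw [hc, φ.right_inv hu, add_sub_cancel_left, inv_smul_smul₀ ht0]
    exact ⟨φ.symm (φ 1 + t • x), ⟨φ.map_target hu, e.symm ▸ hx⟩, e⟩

end Pool.Agent.Lib.MP_2dbb30_al.AN
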