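import Pool.Agent.Lib.MP_2dbb30_al.AN.Koenigs

set_option autoImplicit false
set_option linter.unusedSectionVars false

open Topology Filter

namespace Pool.Agent.Lib.MP_2dbb30_al.AN

open Pool.Agent.Lib.MP_2dbb30_al.TF

variable {p : ℕ} [Fact p.Prime] {G : Type*} [Group G] [TopologicalSpace G] [IsTopologicalGroup G]
  [CompactSpace G] [T2Space G] [TotallyDisconnectedSpace G]
  {E : Type*} [NormedAddCommGroup E] [NormedSpace ℚ_[p] E] [IsUltrametricDist E]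
  [FiniteDimensional ℚ_[p] E] {U : Subgroup G} {lam : G → E} {Ad : G → Module.End ℚ_[p] E}
  {ad : E →ₗ[ℚ_[p]] E →ₗ[ℚ_[p]] E} {S : Submodule ℚ_[p] E}

theorem cl_ultra {a b : E} {r : ℝ} (ha : ‖a‖ ≤ r) (hb : ‖b‖ ≤ r) : ‖a + b‖ ≤ r :=
  (IsUltrametricDist.norm_add_le_max a b).trans (max_le ha hb)

theorem cl_nat (n : ℕ) (x : E) : ‖(n : ℚ_[p]) • x‖ ≤ ‖x‖ := by
  rw [norm_smul]
  exact mul_le_of_le_one_left (norm_nonneg _) (IsUltrametricDist.norm_natCast_le_one ℚ_[p] n)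

theorem cl_q3 : ‖(p : ℚ_[p])‖ ^ 3 ≤ 1 := pow_le_one₀ (norm_nonneg _) (kq_lt (p := p)).le

theorem cl_pow1 {c : G → E} (m : ChartModel p U c) {a : G} (ha : a ∈ U) (n : ℕ) :
    ‖c (a ^ n)‖ ≤ ‖c a‖ := by
  induction n with
  | zero => simp [m.one]
  | succ n ih =>
    have h := m.lip _ (U.pow_mem ha n) a ha 1 U.one_mem 1 U.one_mem
    rw [one_mul, m.one, sub_zero, sub_zero, sub_zero, norm_zero, max_self, ← pow_succ,
      max_eq_right ih, max_eq_left (norm_nonneg _)] at h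
    have h2 : ‖(p : ℚ_[p])‖ ^ 3 * ‖c a‖ * ‖c a‖ ≤ ‖c a‖ :=
      mul_le_of_le_one_left (norm_nonneg _) (mul_le_one₀ cl_q3 (norm_nonneg _) (m.norm_le a ha))
    have := cl_ultra (cl_ultra (h.trans h2) (le_refl ‖c a‖)) ih
    rwa [sub_add_cancel, sub_add_cancel] at this

theorem cl_pow2 {c : G → E} (m : ChartModel p U c) {a b : G} (ha : a ∈ U) (hb : b ∈ U) (n : ℕ) :
    ‖c (a ^ n) - c (b ^ n) - (n : ℚ_[p]) • (c a - c b)‖ ≤
      ‖(p : ℚ_[p])‖ ^ 3 * max ‖c a‖ ‖c b‖ * ‖c a - c b‖ := by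
  induction n with
  | zero =>
    simp only [pow_zero, sub_self, Nat.cast_zero, zero_smul, norm_zero]
    positivity
  | succ n ih =>
    have h := m.lip _ (U.pow_mem ha n) a ha _ (U.pow_mem hb n) b hb
    have h1 : ‖(p : ℚ_[p])‖ ^ 3 * max ‖c a‖ ‖c b‖ * ‖c a - c b‖ ≤ ‖c a - c b‖ :=
      mul_le_of_le_one_left (norm_nonneg _) (mul_le_one₀ cl_q3 (by positivity)
        (max_le (m.norm_le a ha) (m.norm_le b hb)))
    have h2 := cl_ultra (ih.trans h1) (cl_nat (p := p) n (c a - c b))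
    rw [sub_add_cancel] at h2
    rw [max_eq_right (cl_pow1 m ha n), max_eq_right (cl_pow1 m hb n), max_eq_right h2,
      ← pow_succ, ← pow_succ] at h
    have := cl_ultra h ih
    refine le_of_eq_of_le (congrArg norm ?_) this
    rw [Nat.cast_succ, add_smul, one_smul]
    abel

theorem cl_pp {c : G → E} (m : ChartModel p U c) {a : G} (ha : a ∈ U) (j : ℕ) :
    ‖c (a ^ p ^ j)‖ ≤ ‖(p : ℚ_[p])‖ ^ j := by
  induction j with
  | zero => simpa using m.norm_le a ha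
  | succ j ih =>
    have hb := U.pow_mem ha (p ^ j)
    have h := cl_pow2 m hb U.one_mem p
    rw [one_pow, m.one, sub_zero, sub_zero, norm_zero, max_eq_left (norm_nonneg _)] at h
    have q0 := kq_pos (p := p)
    have q1 := kq_lt (p := p)
    have h1 : ‖(p : ℚ_[p])‖ ^ 3 * ‖c (a ^ p ^ j)‖ ≤ ‖(p : ℚ_[p])‖ := by
      have := mul_le_of_le_one_right (pow_nonneg q0.le 3) (m.norm_le _ hb)
      refine this.trans ?_
      exact pow_le_of_le_one q0.le q1.le (by omega)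
    have h2 := h.trans (mul_le_mul_of_nonneg_right h1 (norm_nonneg _))
    have h3 := cl_ultra h2 (le_of_eq (norm_smul (p : ℚ_[p]) (c (a ^ p ^ j))))
    rw [sub_add_cancel, ← pow_mul, ← pow_succ] at h3
    exact h3.trans ((mul_le_mul_of_nonneg_left ih q0.le).trans (le_of_eq (pow_succ' _ _).symm))

theorem cl_mul {F : E → E} (F0 : F 0 = 0) {r : ℝ} (r0 : 0 ≤ r) (r1 : r ≤ 1)
    (hL : ∀ x y, ‖x‖ ≤ 1 → ‖y‖ ≤ 1 → ‖F x - F y - (x - y)‖ ≤ r * max ‖x‖ ‖y‖ * ‖x - y‖)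
    {u v w : E} (hu : ‖u‖ ≤ 1) (hv : ‖v‖ ≤ ‖u‖) (hw : ‖w - u - v‖ ≤ r * ‖u‖ * ‖v‖) :
    ‖F w - F u - F v‖ ≤ r * ‖u‖ * ‖v‖ := by
  have h1 : r * ‖u‖ * ‖v‖ ≤ ‖v‖ :=
    mul_le_of_le_one_left (norm_nonneg _) (mul_le_one₀ r1 (norm_nonneg _) hu)
  have h2 := cl_ultra (hw.trans h1) (le_refl ‖v‖)
  rw [sub_add_cancel] at h2
  have h3 := cl_ultra (h2.trans hv) (le_refl ‖u‖)
  rw [sub_add_cancel] at h3
  have h4 := hL w u (h3.trans hu) hu
  rw [max_eq_right h3] at h4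
  have h5 := hL 0 v (by simp) (hv.trans hu)
  rw [F0, norm_zero, max_eq_right (norm_nonneg _), zero_sub v, norm_neg] at h5
  have h6 : r * ‖u‖ * ‖w - u‖ ≤ r * ‖u‖ * ‖v‖ := by gcongr
  have h7 : r * ‖v‖ * ‖v‖ ≤ r * ‖u‖ * ‖v‖ := by gcongr
  have := cl_ultra (cl_ultra (h4.trans h6) (h5.trans h7)) hw
  refine le_of_eq_of_le (congrArg norm ?_) this
  abel

theorem logModel_of_chart {c : G → E} (m : ChartModel p U c) :
    ∃ lam : G → E, LogModel p U lam := by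
  classical
  have : CompleteSpace E := FiniteDimensional.complete ℚ_[p] E
  have q0 := kq_pos (p := p)
  have q1 := kq_lt (p := p)
  have hci : ∀ x : E, ∃ a ∈ U, ‖x‖ ≤ 1 → c a = x := by
    intro x
    by_cases hx : ‖x‖ ≤ 1
    · obtain ⟨a, ha, h⟩ := m.surj x hx
      exact ⟨a, ha, fun _ => h⟩
    · exact ⟨1, U.one_mem, fun h => absurd h hx⟩
  choose ci ciU cic using hci
  have cci : ∀ a ∈ U, ci (c a) = a := fun a ha => m.inj (ciU _) ha (cic _ (m.norm_le a ha))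
  obtain ⟨F, F0, hlim, hL, hon⟩ := koenigs (p := p) (fun x => c (ci x ^ p)) (‖(p : ℚ_[p])‖ ^ 3)
    (by positivity) (pow_le_pow_of_le_one q0.le q1.le (by omega))
    (by
      have := cci 1 U.one_mem
      rw [m.one] at this
      simp only [this, one_pow, m.one])
    (fun x y hx hy => by
      have := cl_pow2 m (ciU x) (ciU y) p
      rwa [cic x hx, cic y hy] at this)
  have e3 : ‖(p : ℚ_[p])‖ ^ 3 / ‖(p : ℚ_[p])‖ = ‖(p : ℚ_[p])‖ ^ 2 := by field_simp
  rw [e3] at hL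
  have r0 : 0 ≤ ‖(p : ℚ_[p])‖ ^ 2 := by positivity
  have r1 : ‖(p : ℚ_[p])‖ ^ 2 < 1 := pow_lt_one₀ q0.le q1 (by omega)
  have hL2 : ∀ x y, ‖x‖ ≤ 1 → ‖y‖ ≤ 1 →
      ‖F x - F y - (x - y)‖ ≤ ‖(p : ℚ_[p])‖ ^ 2 * ‖x - y‖ := fun x y hx hy =>
    (hL x y hx hy).trans (mul_le_mul_of_nonneg_right
      (mul_le_of_le_one_right r0 (max_le hx hy)) (norm_nonneg _))
  have up : ∀ x y, ‖x‖ ≤ 1 → ‖y‖ ≤ 1 → ‖F x - F y‖ ≤ ‖x - y‖ := by
    intro x y hx hy
    have := cl_ultra ((hL2 x y hx hy).trans (mul_le_of_le_one_left (norm_nonneg _) r1.le))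
      (le_refl ‖x - y‖)
    rwa [sub_add_cancel] at this
  have down : ∀ x y, ‖x‖ ≤ 1 → ‖y‖ ≤ 1 → ‖x - y‖ ≤ ‖F x - F y‖ := by
    intro x y hx hy
    have h1 := IsUltrametricDist.norm_add_le_max (F x - F y) (-(F x - F y - (x - y)))
    rw [norm_neg, show F x - F y + -(F x - F y - (x - y)) = x - y by abel] at h1
    rcases le_max_iff.1 h1 with h | h
    · exact h
    · have h2 := h.trans (hL2 x y hx hy)
      have h3 : ‖x - y‖ ≤ 0 := by nlinarith [norm_nonneg (x - y)]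
      exact h3.trans (norm_nonneg _)
  have it : ∀ a ∈ U, ∀ j : ℕ, (fun x => c (ci x ^ p))^[j] (c a) = c (a ^ p ^ j) := by
    intro a ha j
    induction j with
    | zero => simp
    | succ j ih =>
      rw [Function.iterate_succ_apply', ih, cci _ (U.pow_mem ha _), ← pow_mul, ← pow_succ]
  have lim : ∀ a ∈ U,
      Tendsto (fun j : ℕ => ((p : ℚ_[p]) ^ j)⁻¹ • c (a ^ p ^ j)) atTop (𝓝 (F (c a))) := by
    intro a ha
    have := hlim _ (m.norm_le a ha)
    simpa only [it a ha] using this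
  have dn0 : ∀ a ∈ U, ‖c a‖ ≤ ‖F (c a)‖ := by
    intro a ha
    have := down (c a) 0 (m.norm_le a ha) (by simp)
    rwa [F0, sub_zero, sub_zero] at this
  refine ⟨fun a => F (c a), m.isOpen, ?_, ?_, ?_, ?_, ?_, ?_⟩
  · have hl : LipschitzOnWith 1 F (Metric.closedBall 0 1) :=
      LipschitzOnWith.of_dist_le_mul fun x hx y hy => by
        rw [dist_eq_norm, dist_eq_norm, NNReal.coe_one, one_mul]
        exact up x y (mem_closedBall_zero_iff.1 hx) (mem_closedBall_zero_iff.1 hy)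
    exact hl.continuousOn.comp m.cont fun a ha => mem_closedBall_zero_iff.2 (m.norm_le a ha)
  · intro a ha
    have := up (c a) 0 (m.norm_le a ha) (by simp)
    rw [F0, sub_zero, sub_zero] at this
    exact this.trans (m.norm_le a ha)
  · intro a ha b hb h
    have h' : F (c a) = F (c b) := h
    have := down (c a) (c b) (m.norm_le a ha) (m.norm_le b hb)
    rw [h', sub_self, norm_zero] at this
    exact m.inj ha hb (sub_eq_zero.1 (norm_le_zero_iff.1 this))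
  · intro x hx
    obtain ⟨y, hy, h⟩ := hon x hx
    exact ⟨ci y, ciU y, by rw [cic y hy, h]⟩
  · intro a ha n
    have h1 := (lim _ (U.pow_mem ha n)).sub ((lim a ha).const_smul (n : ℚ_[p]))
    have h2 : Tendsto (fun j : ℕ => ((p : ℚ_[p]) ^ j)⁻¹ • c ((a ^ n) ^ p ^ j) -
        (n : ℚ_[p]) • ((p : ℚ_[p]) ^ j)⁻¹ • c (a ^ p ^ j)) atTop (𝓝 0) := by
      refine squeeze_zero_norm (fun j => ?_) (tendsto_pow_atTop_nhds_zero_of_lt_one q0.le q1)
      have h3 := cl_pow2 m (U.pow_mem ha (p ^ j)) U.one_mem n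
      rw [one_pow, m.one, sub_zero, sub_zero, norm_zero, max_eq_left (norm_nonneg _)] at h3
      have h4 := cl_pp m ha j
      have h5 : 0 < ‖(p : ℚ_[p])‖ ^ j := pow_pos q0 _
      rw [smul_comm (n : ℚ_[p]), ← smul_sub, norm_smul, norm_inv, norm_pow, ← pow_mul, mul_comm n,
        pow_mul, inv_mul_le_iff₀ h5]
      refine h3.trans (mul_le_mul ?_ h4 (norm_nonneg _) h5.le)
      exact (mul_le_of_le_one_left (norm_nonneg _) cl_q3).trans h4
    exact sub_eq_zero.1 (tendsto_nhds_unique h1 h2)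
  · intro a ha b hb
    have r3 : ‖(p : ℚ_[p])‖ ^ 3 ≤ ‖(p : ℚ_[p])‖ ^ 2 := pow_le_pow_of_le_one q0.le q1.le (by omega)
    have fin : ‖(p : ℚ_[p])‖ ^ 2 * ‖c a‖ * ‖c b‖ ≤
        ‖(p : ℚ_[p])‖ ^ 2 * ‖F (c a)‖ * ‖F (c b)‖ := by
      have := dn0 a ha
      have := dn0 b hb
      gcongr
    refine le_trans ?_ fin
    rcases le_total ‖c b‖ ‖c a‖ with h | h
    · have h1 := m.lip a ha b hb a ha 1 U.one_mem
      rw [mul_one, m.one, sub_self, sub_zero, sub_zero, norm_zero, max_eq_left h,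
        max_eq_left (norm_nonneg _), max_self, max_eq_right (norm_nonneg _)] at h1
      exact cl_mul F0 r0 r1.le hL (m.norm_le a ha) h (h1.trans (by gcongr))
    · have h1 := m.lip a ha b hb 1 U.one_mem b hb
      rw [one_mul, m.one, sub_self, sub_zero, sub_zero, norm_zero, max_eq_right h,
        max_eq_right (norm_nonneg _), max_self, max_eq_left (norm_nonneg _)] at h1
      have h2 := cl_mul F0 r0 r1.le hL (m.norm_le b hb) h (h1.trans (by gcongr))
      rw [sub_right_comm, mul_right_comm]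
      exact h2

end Pool.Agent.Lib.MP_2dbb30_al.AN
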