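import Pool.Agent.Lib.MP_2dbb30_al.TF.CMain

set_option autoImplicit false
set_option linter.unusedSectionVars false

open Topology Filter

namespace Pool.Agent.Lib.MP_2dbb30_al.AN

open Pool.Agent.Lib.MP_2dbb30_al.TF

/-- all nontrivial finitely generated closed subgroups are self-similar of index `p` -/
def SH (p : ℕ) (G : Type*) [Group G] [TopologicalSpace G] [IsTopologicalGroup G] : Prop :=
  ∀ L : Subgroup G, L ≠ ⊥ →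
    (∃ F : Finset G, (Subgroup.closure (F : Set G)).topologicalClosure = L) → SelfSimilar p L

/-- the data of `VE` -/
def VED (p : ℕ) {G : Type*} [Group G] (H D : Subgroup G) (f : G → G) : Prop :=
  D ≤ H ∧ (∀ h ∈ H, ∀ d ∈ D, h * d * h⁻¹ ∈ D) ∧
    D.relIndex H = p ∧ (∀ a ∈ D, ∀ b ∈ D, f (a * b) = f a * f b) ∧ (∀ a ∈ D, f a ∈ H) ∧
    ∀ N : Subgroup G, N ≤ D → (∀ h ∈ H, ∀ n ∈ N, h * n * h⁻¹ ∈ N) → (∀ n ∈ N, f n ∈ N) → N = ⊥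

theorem ve_iff {p : ℕ} {G : Type*} [Group G] {H : Subgroup G} : VE p H ↔ ∃ D f, VED p H D f :=
  Iff.rfl

variable (p : ℕ) [Fact p.Prime] {G : Type*} [Group G] [TopologicalSpace G]
  {E : Type*} [NormedAddCommGroup E] [NormedSpace ℚ_[p] E]

/-- a rescaled analytic chart on an open subgroup -/
structure ChartModel (U : Subgroup G) (c : G → E) : Prop where
  isOpen : IsOpen (U : Set G)
  cont : ContinuousOn c U
  norm_le : ∀ a ∈ U, ‖c a‖ ≤ 1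
  inj : Set.InjOn c U
  surj : ∀ x : E, ‖x‖ ≤ 1 → ∃ a ∈ U, c a = x
  one : c 1 = 0
  lip : ∀ a ∈ U, ∀ b ∈ U, ∀ a' ∈ U, ∀ b' ∈ U,
    ‖c (a * b) - c (a' * b') - (c a - c a') - (c b - c b')‖ ≤
      ‖(p : ℚ_[p])‖ ^ 3 * max (max ‖c a‖ ‖c b‖) (max ‖c a'‖ ‖c b'‖) *
        max ‖c a - c a'‖ ‖c b - c b'‖

/-- a logarithm on an open subgroup -/
structure LogModel (U : Subgroup G) (lam : G → E) : Prop where
  isOpen : IsOpen (U : Set G)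
  cont : ContinuousOn lam U
  norm_le : ∀ a ∈ U, ‖lam a‖ ≤ 1
  inj : Set.InjOn lam U
  surj : ∀ x : E, ‖x‖ ≤ 1 → ∃ a ∈ U, lam a = x
  pow : ∀ a ∈ U, ∀ n : ℕ, lam (a ^ n) = (n : ℚ_[p]) • lam a
  mul : ∀ a ∈ U, ∀ b ∈ U,
    ‖lam (a * b) - lam a - lam b‖ ≤ ‖(p : ℚ_[p])‖ ^ 2 * ‖lam a‖ * ‖lam b‖

/-- the adjoint action and the bracket -/
structure AdModel (U : Subgroup G) (lam : G → E) (Ad : G → Module.End ℚ_[p] E)
    (ad : E →ₗ[ℚ_[p]] E →ₗ[ℚ_[p]] E) : Prop where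
  conj : ∀ g ∈ U, ∀ a ∈ U, lam (g * a * g⁻¹) = Ad g (lam a)
  one : Ad 1 = 1
  mul : ∀ g ∈ U, ∀ h ∈ U, Ad (g * h) = Ad g * Ad h
  near : ∀ g ∈ U, ∀ x, ‖Ad g x - x‖ ≤ ‖(p : ℚ_[p])‖ ^ 2 * ‖lam g‖ * ‖x‖
  lim : ∀ g ∈ U, ∀ x, Tendsto (fun j : ℕ => ((p : ℚ_[p]) ^ j)⁻¹ • (Ad (g ^ p ^ j) x - x)) atTop
    (𝓝 (ad (lam g) x))
  fix : ∀ g ∈ U, ∀ x, Ad g x = x ↔ ad (lam g) x = 0
  inv : ∀ g ∈ U, ∀ I : Submodule ℚ_[p] E,
    (∀ x ∈ I, Ad g x ∈ I) ↔ ∀ x ∈ I, ad (lam g) x ∈ I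
  alt : ∀ x, ad x x = 0
  leib : ∀ x y z, ad x (ad y z) = ad (ad x y) z + ad y (ad x z)
  aut : ∀ g ∈ U, ∀ x y, Ad g (ad x y) = ad (Ad g x) (Ad g y)

variable {p}

/-- elements of level `k` with logarithm in `S` -/
def Lv (U : Subgroup G) (lam : G → E) (S : Submodule ℚ_[p] E) (k : ℕ) (a : G) : Prop :=
  a ∈ U ∧ lam a ∈ S ∧ ‖lam a‖ ≤ ‖(p : ℚ_[p])‖ ^ k

/-- the elements with logarithm in `S` are closed under products -/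
def Good (U : Subgroup G) (lam : G → E) (S : Submodule ℚ_[p] E) : Prop :=
  ∀ a ∈ U, ∀ b ∈ U, lam a ∈ S → lam b ∈ S → lam (a * b) ∈ S

theorem good_top (U : Subgroup G) (lam : G → E) : Good U lam (⊤ : Submodule ℚ_[p] E) :=
  fun _ _ _ _ _ _ => trivial

end Pool.Agent.Lib.MP_2dbb30_al.AN
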