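import Pool.Agent.Lib.MP_2dbb30_al.AN.Cent

set_option autoImplicit false
set_option linter.unusedSectionVars false

open Topology Filter

namespace Pool.Agent.Lib.MP_2dbb30_al.AN

open Pool.Agent.Lib.MP_2dbb30_al.TF

variable {p : ℕ} [Fact p.Prime] {G : Type*} [Group G] [TopologicalSpace G] [IsTopologicalGroup G]
  [CompactSpace G] [T2Space G] [TotallyDisconnectedSpace G]
  {E : Type*} [NormedAddCommGroup E] [NormedSpace ℚ_[p] E] [IsUltrametricDist E]
  [FiniteDimensional ℚ_[p] E] {U : Subgroup G} {lam : G → E} {Ad : G → Module.End ℚ_[p] E}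
  {ad : E →ₗ[ℚ_[p]] E →ₗ[ℚ_[p]] E} {S : Submodule ℚ_[p] E}

theorem selfSimilar_equiv {d : ℕ} {L L' : Type*} [Group L] [Group L'] (φ : L ≃* L')
    (h : SelfSimilar d L') : SelfSimilar d L := by
  obtain ⟨ρ, h1, h2, h3, h4, h5⟩ := h
  refine ⟨ρ.comp φ.toMonoidHom, h1.comp φ.injective, fun g => h2 _, fun g => h3 _,
    fun g x => ?_, fun x y => ?_⟩
  · obtain ⟨y, k, hk⟩ := h4 (φ g) x
    exact ⟨y, φ.symm k, fun w => by simpa using hk w⟩
  · obtain ⟨g, hg⟩ := h5 x y
    exact ⟨φ.symm g, by simpa using hg⟩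

theorem sh_subgroup (hss : SH p G) (P : Subgroup G) (hP : IsClosed (P : Set G)) : SH p P := by
  classical
  rintro L hL ⟨F, hF⟩
  refine selfSimilar_equiv (L.equivMapOfInjective P.subtype P.subtype_injective)
    (hss _ (fun h => hL ((Subgroup.map_eq_bot_iff_of_injective _ P.subtype_injective).1 h))
      ⟨F.image P.subtype, SetLike.coe_injective ?_⟩)
  rw [Finset.coe_image, ← MonoidHom.map_closure, Subgroup.topologicalClosure_coe,
    Subgroup.coe_map, Subgroup.coe_map, ← hF, Subgroup.topologicalClosure_coe]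
  exact hP.isClosedEmbedding_subtypeVal.closure_image_eq _

theorem hve_of_sh (hG : ProP p G) (hss : SH p G) : HVE p G := by
  classical
  intro a b ha
  refine ve_of_selfSimilar hG _ (Subgroup.isClosed_topologicalClosure _) (hss _ (fun h => ha ?_)
    ⟨{a, b}, by simp⟩)
  have : a ∈ (Subgroup.closure ({a, b} : Set G)).topologicalClosure :=
    Subgroup.le_topologicalClosure _ (Subgroup.subset_closure (by simp))
  rwa [h, Subgroup.mem_bot] at this

/-- the domain of a logarithm is torsion-free -/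
theorem LogModel.tf (m : LogModel p U lam) {g : G} (hg : g ∈ U) (h : IsOfFinOrder g) : g = 1 := by
  obtain ⟨n, hn, h1⟩ := isOfFinOrder_iff_pow_eq_one.1 h
  have := m.pow g hg n
  rw [h1, m.one] at this
  have h2 : lam g = 0 := (smul_eq_zero.1 this.symm).resolve_left (Nat.cast_ne_zero.2 hn.ne')
  exact m.inj hg U.one_mem (h2.trans m.one.symm)

/-- an element normalising the centraliser of `e` has every vector of it as an eigenvector -/
theorem eigen' (m : LogModel p U lam) (am : AdModel p U lam Ad ad) (hG : ProP p G)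
    (hss : SH p G) {e : E} (he : e ≠ 0) (h : E)
    (hh : ∀ c, ad c e = 0 → ad (ad h c) e = 0) (c : E) (hc : ad c e = 0) :
    ∃ s : ℚ_[p], ad h c = s • c := by
  have hC := good_cent am e
  generalize hCe : LinearMap.ker (ad.flip e) = C at hC
  have mC : ∀ w, w ∈ C ↔ ad w e = 0 := fun w => by
    rw [← hCe, LinearMap.mem_ker, LinearMap.flip_apply]
  have ab : ∀ x ∈ C, ∀ y ∈ C, ad x y = 0 := fun x hx y hy =>
    cent_abelian m am hG hss he x y ((mC x).1 hx) ((mC y).1 hy)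
  obtain ⟨S', mS⟩ : ∃ S' : Submodule ℚ_[p] E, ∀ x, x ∈ S' ↔ ∀ y ∈ C, ad x y ∈ C :=
    ⟨{ carrier := {x | ∀ y ∈ C, ad x y ∈ C}
       add_mem' := fun {x y} hx hy w hw => by
         rw [map_add, LinearMap.add_apply]
         exact C.add_mem (hx w hw) (hy w hw)
       zero_mem' := fun w _ => by
         rw [map_zero, LinearMap.zero_apply]
         exact C.zero_mem
       smul_mem' := fun r x hx w hw => by
         rw [map_smul, LinearMap.smul_apply]
         exact C.smul_mem r (hx w hw) }, fun _ => Iff.rfl⟩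
  have hS : Good U lam S' := by
    intro a ha b hb h1 h2
    rw [mS, ← am.inv _ (by assumption)] at h1 h2
    rw [mS, ← am.inv _ (U.mul_mem ha hb), am.mul a ha b hb]
    exact fun x hx => h1 _ (h2 x hx)
  have hT : Good U lam (Submodule.span ℚ_[p] {c}) := by
    intro a ha b hb h1 h2
    obtain ⟨r, hr⟩ := Submodule.mem_span_singleton.1 h1
    obtain ⟨r', hr'⟩ := Submodule.mem_span_singleton.1 h2
    have : a * b = b * a := by
      rw [comm_iff m am ha hb, ← hr, ← hr', map_smul, map_smul, LinearMap.smul_apply, am.alt,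
        smul_zero, smul_zero]
    rw [m.mul_of_commute ha hb this]
    exact Submodule.add_mem _ h1 h2
  obtain ⟨P, hP, mP⟩ := m.exists_lvl hS 0
  obtain ⟨Q, hQ, mQ⟩ := m.exists_lvl hC 0
  obtain ⟨T, hTc, mT⟩ := m.exists_lvl hT 0
  have : CompactSpace P := isCompact_iff_compactSpace.1 hP.isCompact
  have hGP := proP_subgroup hG P hP
  have hn : (Q.subgroupOf P).Normal := ⟨fun a ha g => by
    have ha' := (mQ a).1 ha
    have hg := (mP g).1 g.2
    have hU : (g : G) * a * (g : G)⁻¹ ∈ U := U.mul_mem (U.mul_mem hg.1 ha'.1) (U.inv_mem hg.1)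
    refine (mQ ((g : G) * a * (g : G)⁻¹)).2 ⟨hU, ?_, by simpa using m.norm_le _ hU⟩
    rw [am.conj _ hg.1 _ ha'.1]
    exact (am.inv _ hg.1 C).2 ((mS _).1 hg.2.1) _ ha'.2.1⟩
  obtain ⟨V, _, _, _, _, ι, ρ, mm⟩ := exists_model hGP (Q.subgroupOf P) hn
    (hQ.preimage continuous_subtype_val) fun a ha b hb => Subtype.ext
      ((comm_iff m am ((mQ a).1 ha).1 ((mQ b).1 hb).1).2
        (ab _ ((mQ a).1 ha).2.1 _ ((mQ b).1 hb).2.1))
  obtain ⟨N, x, hx, ex⟩ := m.exists_small
    ((mS h).2 fun y hy => (mC _).2 (hh y ((mC y).1 hy))) 0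
  obtain ⟨M, b, hb, eb⟩ := m.exists_small (Submodule.mem_span_singleton_self (R := ℚ_[p]) c) 0
  have hbC : lam b ∈ C := eb ▸ C.smul_mem _ ((mC c).2 hc)
  have hbP : b ∈ P := (mP b).2 ⟨hb.1, (mS _).2 fun y hy => by
    rw [ab _ hbC y hy]; exact C.zero_mem, hb.2.2⟩
  obtain ⟨v, hv⟩ := (mm.mem ⟨b, hbP⟩).1 ((mQ b).2 ⟨hb.1, hbC, hb.2.2⟩)
  obtain ⟨n, s, hs⟩ := line_pow mm hGP
    (fun g hg => Subtype.ext (m.tf ((mP g).1 g.2).1 (P.subtype.isOfFinOrder hg)))
    (hve_of_sh hGP (sh_subgroup hss P hP)) ⟨x, (mP x).2 hx⟩ v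
  have h1 : (ι (s • v) : G) ∈ T :=
    padic_nat_ind (P := fun s : ℤ_[p] => (ι (s • v) : G) ∈ T)
      (hTc.preimage (continuous_subtype_val.comp (mm.emb.continuous.comp (mm.smul v))))
      (fun k => by
        rw [Nat.cast_smul_eq_nsmul, mm.nsmul, hv, Subgroup.coe_pow]
        exact T.pow_mem ((mT b).2 hb) k) s
  rw [← hs, mm.conj, hv] at h1
  have hg : x ^ p ^ n ∈ U := U.pow_mem hx.1 _
  have h2 : lam (x ^ p ^ n * b * (x ^ p ^ n)⁻¹) ∈ Submodule.span ℚ_[p] {c} := ((mT _).1 h1).2.1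
  rw [am.conj _ hg _ hb.1, eb, map_smul, Submodule.smul_mem_iff _ (ppow_ne M)] at h2
  have h3 := (am.inv _ hg (Submodule.span ℚ_[p] {c})).1 (fun w hw => by
    obtain ⟨r, rfl⟩ := Submodule.mem_span_singleton.1 hw
    rw [map_smul]
    exact Submodule.smul_mem _ _ h2) c (Submodule.mem_span_singleton_self c)
  rw [m.pow _ hx.1, ex, map_smul, map_smul, LinearMap.smul_apply, LinearMap.smul_apply,
    Nat.cast_pow, Submodule.smul_mem_iff _ (ppow_ne n),
    Submodule.smul_mem_iff _ (ppow_ne N)] at h3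
  obtain ⟨r, hr⟩ := Submodule.mem_span_singleton.1 h3
  exact ⟨r, hr.symm⟩

theorem eigen (m : LogModel p U lam) (am : AdModel p U lam Ad ad) (hG : ProP p G)
    (_htf : ∀ g : G, IsOfFinOrder g → g = 1) (hss : SH p G) {e : E} (he : e ≠ 0) (h : E)
    (hh : ∀ c, ad c e = 0 → ad (ad h c) e = 0) (c : E) (hc : ad c e = 0) :
    ∃ s : ℚ_[p], ad h c = s • c :=
  eigen' m am hG hss he h hh c hc

end Pool.Agent.Lib.MP_2dbb30_al.AN
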