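import Pool.Agent.Lib.MP_2dbb30_al.AN.Log

set_option autoImplicit false
set_option linter.unusedSectionVars false

open Topology Filter

namespace Pool.Agent.Lib.MP_2dbb30_al.AN

open Pool.Agent.Lib.MP_2dbb30_al.TF

variable {p : ℕ} [Fact p.Prime] {G : Type*} [Group G] [TopologicalSpace G] [IsTopologicalGroup G]
  [CompactSpace G] [T2Space G] [TotallyDisconnectedSpace G]
  {E : Type*} [NormedAddCommGroup E] [NormedSpace ℚ_[p] E] [IsUltrametricDist E]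
  [FiniteDimensional ℚ_[p] E] {U : Subgroup G} {lam : G → E} {Ad : G → Module.End ℚ_[p] E}
  {ad : E →ₗ[ℚ_[p]] E →ₗ[ℚ_[p]] E} {S : Submodule ℚ_[p] E}

theorem ind_q_pos : 0 < ‖(p : ℚ_[p])‖ :=
  norm_pos_iff.2 (Nat.cast_ne_zero.2 (Fact.out : p.Prime).ne_zero)

theorem ind_q_lt : ‖(p : ℚ_[p])‖ < 1 := Padic.norm_p_lt_one

theorem ind_lv_mono {k j : ℕ} {a : G} (h : k ≤ j) (ha : Lv U lam S j a) : Lv U lam S k a :=
  ⟨ha.1, ha.2.1, ha.2.2.trans (pow_le_pow_of_le_one ind_q_pos.le ind_q_lt.le h)⟩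

theorem LogModel.ind_pow (m : LogModel p U lam) {a : G} (ha : a ∈ U) (j : ℕ) :
    lam (a ^ p ^ j) = (p : ℚ_[p]) ^ j • lam a := by
  rw [m.pow a ha, Nat.cast_pow]

/-- a map which is approximately additive and commutes with `p`-th powers is linear -/
theorem LogModel.induced (m : LogModel p U lam) (hS : Good U lam S) (k : ℕ) {E' : Type*}
    [NormedAddCommGroup E'] [NormedSpace ℚ_[p] E'] (ψ : G → E') (K : ℝ)
    (hb : ∀ a, Lv U lam S k a → ‖ψ a‖ ≤ K)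
    (hp : ∀ a, Lv U lam S k a → ψ (a ^ p) = (p : ℚ_[p]) • ψ a)
    (hm : ∀ a b, Lv U lam S k a → Lv U lam S k b → ‖ψ (a * b) - ψ a - ψ b‖ ≤ K * ‖ψ a‖ * ‖ψ b‖) :
    ∃ φ : E →ₗ[ℚ_[p]] E', ∀ a, Lv U lam S k a → φ (lam a) = ψ a := by
  obtain ⟨P, -, hP⟩ := m.exists_lvl hS k
  have q0 := ind_q_pos (p := p)
  have q1 := ind_q_lt (p := p)
  have p0 : (p : ℚ_[p]) ≠ 0 := norm_pos_iff.1 q0
  have lp : ∀ a, Lv U lam S k a → ∀ n : ℕ, Lv U lam S k (a ^ n) := fun a ha n =>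
    (hP _).1 (P.pow_mem ((hP a).2 ha) n)
  have K0 : 0 ≤ K := (norm_nonneg _).trans (hb 1 ((hP 1).1 P.one_mem))
  have s0 : ∀ a, Lv U lam S k a → ∀ j : ℕ, ψ (a ^ p ^ j) = (p : ℚ_[p]) ^ j • ψ a := by
    intro a ha j
    induction j with
    | zero => simp
    | succ j ih => rw [pow_succ, pow_mul, hp _ (lp a ha _), ih, smul_smul, pow_succ']
  have s0' : ∀ a, Lv U lam S k a → ∀ j : ℕ, ‖ψ (a ^ p ^ j)‖ ≤ K * ‖(p : ℚ_[p])‖ ^ j := by
    intro a ha j
    rw [s0 a ha, norm_smul, norm_pow, mul_comm]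
    exact mul_le_mul_of_nonneg_right (hb a ha) (by positivity)
  have s1 : ∀ (j : ℕ) a, Lv U lam S (k + j) a → ‖ψ a‖ ≤ K * ‖(p : ℚ_[p])‖ ^ j := by
    intro j a ha
    obtain ⟨b, h1, rfl⟩ := m.exists_root ha
    exact s0' b h1 j
  have s2 : ∀ a b c, Lv U lam S k a → Lv U lam S k b → Lv U lam S k c →
      lam c = lam a + lam b → ψ c = ψ a + ψ b := by
    intro a b c ha hb' hc e
    have key : ∀ j : ℕ, ‖ψ a + ψ b - ψ c‖ ≤ (K + 2 * K ^ 3) * ‖(p : ℚ_[p])‖ ^ j := by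
      intro j
      have hA := lp a ha (p ^ j)
      have hB := lp b hb' (p ^ j)
      have hC := lp c hc (p ^ j)
      have hr : Lv U lam S k ((c ^ p ^ j)⁻¹ * (a ^ p ^ j * b ^ p ^ j)) :=
        (hP _).1 (P.mul_mem (P.inv_mem ((hP _).2 hC)) (P.mul_mem ((hP _).2 hA) ((hP _).2 hB)))
      have hr2 : Lv U lam S (k + 2 * j) ((c ^ p ^ j)⁻¹ * (a ^ p ^ j * b ^ p ^ j)) := by
        refine ⟨hr.1, hr.2.1, ?_⟩
        rw [m.norm_inv_mul hC.1 (U.mul_mem hA.1 hB.1), m.ind_pow hc.1, e, smul_add,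
          ← m.ind_pow ha.1, ← m.ind_pow hb'.1, ← sub_sub]
        refine (m.mul _ hA.1 _ hB.1).trans ?_
        rw [m.ind_pow ha.1, m.ind_pow hb'.1, norm_smul, norm_smul, norm_pow]
        have y1 := ha.2.2
        have y2 := m.norm_le b hb'.1
        have y3 : ‖(p : ℚ_[p])‖ ^ 2 ≤ 1 := pow_le_one₀ q0.le q1.le
        calc _ ≤ 1 * (‖(p : ℚ_[p])‖ ^ j * ‖(p : ℚ_[p])‖ ^ k) * (‖(p : ℚ_[p])‖ ^ j * 1) := by
              gcongr
          _ = _ := by ring
      have n1 := s1 _ _ hr2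
      have n2 := hm _ _ hA hB
      have n3 := hm _ _ hC hr
      rw [mul_inv_cancel_left] at n3
      have nA := s0' a ha j
      have nB := s0' b hb' j
      have nC := s0' c hc j
      have e1 : (p : ℚ_[p]) ^ j • (ψ a + ψ b - ψ c) =
          ψ ((c ^ p ^ j)⁻¹ * (a ^ p ^ j * b ^ p ^ j)) +
          (ψ (a ^ p ^ j * b ^ p ^ j) - ψ (c ^ p ^ j) -
            ψ ((c ^ p ^ j)⁻¹ * (a ^ p ^ j * b ^ p ^ j))) -
          (ψ (a ^ p ^ j * b ^ p ^ j) - ψ (a ^ p ^ j) - ψ (b ^ p ^ j)) := by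
        rw [smul_sub, smul_add, ← s0 a ha, ← s0 b hb', ← s0 c hc]
        abel
      have n4 := congrArg norm e1
      rw [norm_smul, norm_pow] at n4
      have n5 := (le_of_eq n4).trans ((norm_sub_le _ _).trans
        (add_le_add ((norm_add_le _ _).trans (add_le_add n1 n3)) n2))
      rw [mul_comm 2 j, pow_mul] at n1 n5
      have t0 : 0 < ‖(p : ℚ_[p])‖ ^ j := by positivity
      have t1 : ‖(p : ℚ_[p])‖ ^ j ≤ 1 := pow_le_one₀ q0.le q1.le
      generalize ‖(p : ℚ_[p])‖ ^ j = t at n1 n5 nA nB nC t0 t1 ⊢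
      have n6 : K * ‖ψ (c ^ p ^ j)‖ * ‖ψ ((c ^ p ^ j)⁻¹ * (a ^ p ^ j * b ^ p ^ j))‖ ≤
          K * (K * 1) * (K * t ^ 2) := by
        have := nC.trans (mul_le_mul_of_nonneg_left t1 K0)
        gcongr
      have n7 : K * ‖ψ (a ^ p ^ j)‖ * ‖ψ (b ^ p ^ j)‖ ≤ K * (K * t) * (K * t) := by gcongr
      refine le_of_mul_le_mul_left ?_ t0
      linarith
    have lim : Tendsto (fun j : ℕ => (K + 2 * K ^ 3) * ‖(p : ℚ_[p])‖ ^ j) atTop (𝓝 0) := by
      simpa using (tendsto_pow_atTop_nhds_zero_of_lt_one q0.le q1).const_mul (K + 2 * K ^ 3)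
    have := ge_of_tendsto' lim key
    exact (sub_eq_zero.1 (norm_le_zero_iff.1 this)).symm
  have ex : ∀ x : S, ∃ y : E', ∃ (N : ℕ) (a : G), Lv U lam S k a ∧
      lam a = (p : ℚ_[p]) ^ N • (x : E) ∧ ψ a = (p : ℚ_[p]) ^ N • y := fun x => by
    obtain ⟨N, a, h1, h2⟩ := m.exists_small x.2 k
    exact ⟨((p : ℚ_[p]) ^ N)⁻¹ • ψ a, N, a, h1, h2, by
      rw [smul_inv_smul₀ (pow_ne_zero _ p0)]⟩
  choose F N g hg1 hg2 hg3 using ex
  have un : ∀ (x : S) (M : ℕ) (b : G), Lv U lam S k b → lam b = (p : ℚ_[p]) ^ M • (x : E) →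
      ψ b = (p : ℚ_[p]) ^ M • F x := by
    intro x M b h1 h2
    have e1 : b ^ p ^ N x = g x ^ p ^ M :=
      m.inj (lp b h1 _).1 (lp _ (hg1 x) _).1 (by
        rw [m.ind_pow h1.1, m.ind_pow (hg1 x).1, h2, hg2, smul_comm])
    have e2 := congrArg ψ e1
    rw [s0 b h1, s0 _ (hg1 x), hg3, smul_comm] at e2
    exact smul_right_injective _ (pow_ne_zero _ p0) e2
  have add : ∀ x y : S, F (x + y) = F x + F y := by
    intro x y
    have hA := lp _ (hg1 x) (p ^ N y)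
    have hB := lp _ (hg1 y) (p ^ N x)
    have nb : ‖lam (g x ^ p ^ N y) + lam (g y ^ p ^ N x)‖ ≤ ‖(p : ℚ_[p])‖ ^ k :=
      (IsUltrametricDist.norm_add_le_max _ _).trans (max_le hA.2.2 hB.2.2)
    obtain ⟨c, c1, c2⟩ := m.surj _ (nb.trans (pow_le_one₀ q0.le q1.le))
    have hc : Lv U lam S k c := ⟨c1, c2 ▸ S.add_mem hA.2.1 hB.2.1, c2 ▸ nb⟩
    have e1 := s2 _ _ c hA hB hc c2
    have e2 := un (x + y) (N x + N y) c hc (by
      rw [c2, m.ind_pow (hg1 x).1, m.ind_pow (hg1 y).1, hg2, hg2, smul_smul, smul_smul,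
        Submodule.coe_add, smul_add, pow_add, mul_comm])
    rw [e2, s0 _ (hg1 x), s0 _ (hg1 y), hg3, hg3, smul_smul, smul_smul,
      mul_comm ((p : ℚ_[p]) ^ N y), ← smul_add, ← pow_add] at e1
    exact smul_right_injective _ (pow_ne_zero _ p0) e1
  let F1 : S →+ E' := AddMonoidHom.mk' F add
  have cont : Continuous F1 := by
    refine continuous_of_continuousAt_zero F1 (Metric.continuousAt_iff.2 fun ε hε => ?_)
    have lim : Tendsto (fun j : ℕ => K * ‖(p : ℚ_[p])‖ ^ j) atTop (𝓝 0) := by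
      simpa using (tendsto_pow_atTop_nhds_zero_of_lt_one q0.le q1).const_mul K
    obtain ⟨j, hj⟩ := (lim.eventually (gt_mem_nhds hε)).exists
    refine ⟨‖(p : ℚ_[p])‖ ^ (k + j), by positivity, fun x hx => ?_⟩
    rw [dist_zero_right] at hx
    rw [map_zero, dist_zero_right]
    have hx' : ‖(x : E)‖ ≤ ‖(p : ℚ_[p])‖ ^ (k + j) := hx.le
    obtain ⟨a, a1, a2⟩ := m.surj _ (hx'.trans (pow_le_one₀ q0.le q1.le))
    have ha : Lv U lam S (k + j) a := ⟨a1, a2 ▸ x.2, a2 ▸ hx'⟩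
    have e := un x 0 a (ind_lv_mono (Nat.le_add_right _ _) ha) (by rw [pow_zero, one_smul, a2])
    rw [pow_zero, one_smul] at e
    exact lt_of_le_of_lt (le_of_eq_of_le (congrArg norm e.symm) (s1 j a ha)) hj
  have hom : ∀ (c : ℚ_[p]) (x : S), F1 (c • x) = c • F1 x := fun c x =>
    (Padic.denseRange_ratCast p).induction_on c
      (isClosed_eq (cont.comp (continuous_id.smul continuous_const))
        (continuous_id.smul continuous_const))
      (fun r => map_ratCast_smul F1 ℚ_[p] ℚ_[p] r x)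
  obtain ⟨φ, hφ⟩ := LinearMap.exists_extend
    ({ toFun := F1, map_add' := F1.map_add, map_smul' := hom } : S →ₗ[ℚ_[p]] E')
  refine ⟨φ, fun a ha => ?_⟩
  have e := un ⟨lam a, ha.2.1⟩ 0 a ha (by rw [pow_zero, one_smul])
  rw [pow_zero, one_smul] at e
  exact (DFunLike.congr_fun hφ ⟨lam a, ha.2.1⟩).trans e.symm

theorem LogModel.fg (m : LogModel p U lam) (hS : Good U lam S) (k : ℕ) (H : Subgroup G)
    (hH : IsClosed (H : Set G)) (h1 : ∀ a, Lv U lam S k a → a ∈ H)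
    (h2 : ∀ a ∈ H, Lv U lam S 0 a) :
    ∃ F : Finset G, (Subgroup.closure (F : Set G)).topologicalClosure = H := by
  have q0 := ind_q_pos (p := p)
  have q1 := ind_q_lt (p := p)
  have op : IsOpen ((U : Set G) ∩ lam ⁻¹' Metric.ball 0 (‖(p : ℚ_[p])‖ ^ (k + 1))) :=
    m.cont.isOpen_inter_preimage m.isOpen Metric.isOpen_ball
  obtain ⟨F, hF1, hF2⟩ := hH.isCompact.elim_nhds_subcover
    (fun h => (fun g => h⁻¹ * g) ⁻¹'
      ((U : Set G) ∩ lam ⁻¹' Metric.ball 0 (‖(p : ℚ_[p])‖ ^ (k + 1))))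
    (fun h _ => (op.preimage (continuous_const.mul continuous_id)).mem_nhds (by
      show h⁻¹ * h ∈ (U : Set G) ∩ lam ⁻¹' Metric.ball 0 (‖(p : ℚ_[p])‖ ^ (k + 1))
      rw [inv_mul_cancel]
      refine ⟨U.one_mem, ?_⟩
      rw [Set.mem_preimage, m.one]
      exact Metric.mem_ball_self (by positivity)))
  have hle : Subgroup.closure (F : Set G) ≤ H := (Subgroup.closure_le _).2 fun x hx => hF1 x hx
  have base : ∀ g ∈ H, ∃ a ∈ Subgroup.closure (F : Set G),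
      ‖lam (a⁻¹ * g)‖ ≤ ‖(p : ℚ_[p])‖ ^ (k + 1) := fun g hg => by
    obtain ⟨a, ha, h⟩ := Set.mem_iUnion₂.1 (hF2 hg)
    exact ⟨a, Subgroup.subset_closure ha, (mem_ball_zero_iff.1 h.2).le⟩
  have step : ∀ j : ℕ, ∀ g ∈ H, ∃ a ∈ Subgroup.closure (F : Set G),
      Lv U lam S (k + (j + 1)) (a⁻¹ * g) := by
    intro j
    induction j with
    | zero =>
      intro g hg
      obtain ⟨a, ha, h⟩ := base g hg
      have := h2 _ (H.mul_mem (H.inv_mem (hle ha)) hg)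
      exact ⟨a, ha, this.1, this.2.1, h⟩
    | succ j ih =>
      intro g hg
      obtain ⟨a, ha, h⟩ := ih g hg
      obtain ⟨b, b1, b2⟩ := m.exists_root h
      obtain ⟨c, hc, h'⟩ := base b (h1 b b1)
      have c1 := (h2 c (hle hc)).1
      have hm := Subgroup.mul_mem _ ha (Subgroup.pow_mem _ hc (p ^ (j + 1)))
      have := h2 _ (H.mul_mem (H.inv_mem (hle hm)) hg)
      refine ⟨_, hm, this.1, this.2.1, ?_⟩
      rw [mul_inv_rev, mul_assoc, ← b2, m.norm_inv_mul (U.pow_mem c1 _) (U.pow_mem b1.1 _),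
        m.ind_pow c1, m.ind_pow b1.1, ← smul_sub, norm_smul, norm_pow,
        ← m.norm_inv_mul c1 b1.1]
      calc _ ≤ ‖(p : ℚ_[p])‖ ^ (j + 1) * ‖(p : ℚ_[p])‖ ^ (k + 1) := by gcongr
        _ = _ := by ring
  refine ⟨F, le_antisymm (Subgroup.topologicalClosure_minimal _ hle hH) fun g hg => ?_⟩
  choose P hP1 hP2 using fun j : ℕ => m.exists_lvl hS (k + (j + 1))
  have cl : ∀ j, IsClosed ((P j : Set G) ∩ (fun r => g * r⁻¹) ⁻¹'
      ((Subgroup.closure (F : Set G)).topologicalClosure : Set G)) := fun j =>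
    (hP1 j).inter ((Subgroup.isClosed_topologicalClosure _).preimage
      (continuous_const.mul continuous_inv))
  obtain ⟨r, hr⟩ := IsCompact.nonempty_iInter_of_sequence_nonempty_isCompact_isClosed
    (fun j => (P j : Set G) ∩ (fun r => g * r⁻¹) ⁻¹'
      ((Subgroup.closure (F : Set G)).topologicalClosure : Set G))
    (fun j x hx => ⟨(hP2 j x).2 (ind_lv_mono (by omega) ((hP2 (j + 1) x).1 hx.1)), hx.2⟩)
    (fun j => by
      obtain ⟨a, ha, h⟩ := step j g hg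
      refine ⟨a⁻¹ * g, (hP2 j _).2 h, ?_⟩
      show g * (a⁻¹ * g)⁻¹ ∈ (Subgroup.closure (F : Set G)).topologicalClosure
      rw [mul_inv_rev, mul_inv_cancel_left, inv_inv]
      exact Subgroup.le_topologicalClosure _ ha)
    (cl 0).isCompact cl
  have hr' := fun j => Set.mem_iInter.1 hr j
  have r0 : ‖lam r‖ ≤ 0 :=
    ge_of_tendsto' ((tendsto_pow_atTop_nhds_zero_of_lt_one q0.le q1))
      fun j => ((hP2 j r).1 (hr' j).1).2.2.trans (pow_le_pow_of_le_one q0.le q1.le (by omega))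
  have r1 : r = 1 := m.inj ((hP2 0 r).1 (hr' 0).1).1 U.one_mem (by
    rw [m.one]; exact norm_le_zero_iff.1 r0)
  have : g * r⁻¹ ∈ (Subgroup.closure (F : Set G)).topologicalClosure := (hr' 0).2
  rwa [r1, inv_one, mul_one] at this

end Pool.Agent.Lib.MP_2dbb30_al.AN
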