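import Pool.Agent.Lib.MP_2dbb30_al.AN.Defs

set_option autoImplicit false
set_option linter.unusedSectionVars false

open Topology Filter

namespace Pool.Agent.Lib.MP_2dbb30_al.AN

open Pool.Agent.Lib.MP_2dbb30_al.TF

variable {p : ℕ} [Fact p.Prime] {E : Type*} [NormedAddCommGroup E] [NormedSpace ℚ_[p] E]
  [IsUltrametricDist E] [FiniteDimensional ℚ_[p] E]

/-- the invariant quadratic form in coordinates -/
noncomputable def sQ (v : ℚ_[p] × ℚ_[p] × ℚ_[p]) : ℚ_[p] := v.2.1 ^ 2 + v.1 * v.2.2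

/-- its polar form -/
noncomputable def sB (v w : ℚ_[p] × ℚ_[p] × ℚ_[p]) : ℚ_[p] :=
  2 * v.2.1 * w.2.1 + v.1 * w.2.2 + w.1 * v.2.2

/-- the bracket in coordinates -/
noncomputable def sBr (v w : ℚ_[p] × ℚ_[p] × ℚ_[p]) : ℚ_[p] × ℚ_[p] × ℚ_[p] :=
  (2 * (v.2.1 * w.1 - v.1 * w.2.1), v.1 * w.2.2 - v.2.2 * w.1,
    2 * (v.2.2 * w.2.1 - v.2.1 * w.2.2))

theorem sl2_cube (v w : ℚ_[p] × ℚ_[p] × ℚ_[p]) :
    sBr v (sBr v (sBr v w)) = (4 * sQ v) • sBr v w := by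
  simp only [sBr, sQ, Prod.smul_mk, smul_eq_mul, Prod.mk.injEq]
  refine ⟨by ring, by ring, by ring⟩

theorem sl2_Q (φ : Module.End ℚ_[p] (ℚ_[p] × ℚ_[p] × ℚ_[p])) (hi : Function.Injective φ)
    (h : ∀ v w, φ (sBr v w) = sBr (φ v) (φ w)) (v : ℚ_[p] × ℚ_[p] × ℚ_[p]) :
    sQ (φ v) = sQ v := by
  by_contra hn
  have key : ∀ w, sBr v w = 0 := fun w => by
    have h1 := congrArg φ (sl2_cube v w)
    rw [h, h, h, sl2_cube, map_smul, ← h, ← sub_eq_zero, ← sub_smul, smul_eq_zero] at h1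
    refine hi (((h1.resolve_left fun k => hn ?_)).trans (map_zero φ).symm)
    linear_combination k / 4
  have a := key (1, 0, 0)
  have b := key (0, 1, 0)
  simp only [sBr, Prod.mk_eq_zero] at a b
  have : v = 0 := Prod.ext (by simpa using b.1) (Prod.ext (by simpa using a.1) (by simpa using a.2.1))
  exact hn (by rw [this, map_zero])

theorem sl2_par (x y : ℚ_[p]) :
    ‖y ^ 2 - p * x ^ 2‖ = max (‖y‖ ^ 2) (‖(p : ℚ_[p])‖ * ‖x‖ ^ 2) := by
  have hp : (1 : ℝ) < p := by exact_mod_cast (Fact.out : p.Prime).one_lt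
  by_cases hx : x = 0
  · simp [hx]
  by_cases hy : y = 0
  · rw [hy, max_eq_right (by simp; positivity)]; simp
  rw [sub_eq_add_neg, IsUltrametricDist.norm_add_eq_max_of_norm_ne_norm, norm_neg, norm_mul,
    norm_pow, norm_pow]
  rw [norm_neg, norm_mul, norm_pow, norm_pow, Padic.norm_p, Padic.norm_eq_zpow_neg_valuation hx,
    Padic.norm_eq_zpow_neg_valuation hy, ← zpow_natCast, ← zpow_natCast, ← zpow_mul, ← zpow_mul,
    ← zpow_neg_one, ← zpow_add₀ (by positivity)]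
  intro k
  have := zpow_right_injective₀ (by positivity) hp.ne' k
  omega

theorem sl2_normB (v w : ℚ_[p] × ℚ_[p] × ℚ_[p]) : ‖sB v w‖ ≤ ‖v‖ * ‖w‖ := by
  have h2 : ‖(2 : ℚ_[p])‖ ≤ 1 := by simpa using Padic.norm_int_le_one (p := p) 2
  have a := fun u : ℚ_[p] × ℚ_[p] × ℚ_[p] => (norm_fst_le u.2).trans (norm_snd_le u)
  have b := fun u : ℚ_[p] × ℚ_[p] × ℚ_[p] => (norm_snd_le u.2).trans (norm_snd_le u)
  refine (IsUltrametricDist.norm_add_le_max _ _).trans (max_le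
    ((IsUltrametricDist.norm_add_le_max _ _).trans (max_le ?_ ?_)) ?_)
  · rw [mul_assoc, norm_mul, norm_mul]
    exact (mul_le_of_le_one_left (by positivity) h2).trans
      (mul_le_mul (a v) (a w) (norm_nonneg _) (norm_nonneg _))
  · rw [norm_mul]; exact mul_le_mul (norm_fst_le v) (b w) (norm_nonneg _) (norm_nonneg _)
  · rw [norm_mul, mul_comm]
    exact mul_le_mul (b v) (norm_fst_le w) (norm_nonneg _) (norm_nonneg _)

theorem sl2_normQ (v : ℚ_[p] × ℚ_[p] × ℚ_[p]) : ‖sQ v‖ ≤ ‖v‖ * ‖v‖ := by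
  have a := (norm_fst_le v.2).trans (norm_snd_le v)
  refine (IsUltrametricDist.norm_add_le_max _ _).trans (max_le ?_ ?_)
  · rw [sq, norm_mul]; exact mul_le_mul a a (norm_nonneg _) (norm_nonneg _)
  · rw [norm_mul]
    exact mul_le_mul (norm_fst_le v) ((norm_snd_le v.2).trans (norm_snd_le v)) (norm_nonneg _)
      (norm_nonneg _)

theorem sl2_bound {v : ℚ_[p] × ℚ_[p] × ℚ_[p]} {σ : ℝ} (h1 : ‖sQ v‖ ≤ σ ^ 2)
    (h2 : ‖sB v (1, 0, p)‖ ≤ σ) : ‖(p : ℚ_[p])‖ * ‖v‖ ≤ σ := by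
  obtain ⟨x, y, z⟩ := v
  have h0 := (norm_nonneg _).trans h2
  have q1 := (Padic.norm_p_lt_one (p := p)).le
  have q0 := norm_nonneg (p : ℚ_[p])
  have e : y ^ 2 - p * x ^ 2 = sQ (x, y, z) + -(x * sB (x, y, z) (1, 0, p)) := by
    simp only [sQ, sB]; ring
  have e' : z = sB (x, y, z) (1, 0, p) + -(p * x) := by simp only [sB]; ring
  have h3 := sl2_par x y
  have h4 : ‖y ^ 2 - p * x ^ 2‖ ≤ max (σ ^ 2) (‖x‖ * σ) := by
    rw [e]
    refine (IsUltrametricDist.norm_add_le_max _ _).trans (max_le_max h1 ?_)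
    rw [norm_neg, norm_mul]; gcongr
  rw [h3, max_le_iff] at h4
  have h5 : ‖z‖ ≤ max σ (‖(p : ℚ_[p])‖ * ‖x‖) := by
    rw [← norm_mul, ← norm_neg (p * x)]
    exact (congrArg norm e').le.trans
      ((IsUltrametricDist.norm_add_le_max _ _).trans (max_le_max h2 le_rfl))
  have a := norm_nonneg x
  have b := norm_nonneg y
  have c := norm_nonneg z
  rw [Prod.norm_def, Prod.norm_def]
  generalize ‖(p : ℚ_[p])‖ = q at *
  generalize ‖x‖ = X at *
  generalize ‖y‖ = Y at *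
  generalize ‖z‖ = Z at *
  have hx : q * X ≤ σ := by
    by_contra k
    rw [not_le] at k
    have k2 : σ < X := by nlinarith
    rcases le_max_iff.1 h4.2 with k3 | k3 <;> nlinarith
  have hy : q * Y ≤ σ := by
    refine (pow_le_pow_iff_left₀ (by positivity) h0 two_ne_zero).1 ?_
    have k1 : q ^ 2 ≤ 1 := by nlinarith
    rcases le_max_iff.1 h4.1 with k3 | k3
    · nlinarith [sq_nonneg Y]
    · have k4 : q * Y ^ 2 ≤ σ ^ 2 := by nlinarith
      nlinarith [mul_nonneg q0 (sq_nonneg Y)]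
  have hz : q * Z ≤ σ := (mul_le_of_le_one_left c q1).trans (h5.trans (max_le le_rfl hx))
  rw [mul_max_of_nonneg _ _ q0, mul_max_of_nonneg _ _ q0]
  exact max_le hx (max_le hy hz)

theorem sl2_core (φ : Module.End ℚ_[p] (ℚ_[p] × ℚ_[p] × ℚ_[p])) (hQ : ∀ v, sQ (φ v) = sQ v)
    {μ : ℚ_[p]} (hs : ‖φ (1, 0, p) - μ • (1, 0, (p : ℚ_[p]))‖ < ‖(p : ℚ_[p])‖) {ρ : ℝ}
    {v : ℚ_[p] × ℚ_[p] × ℚ_[p]} (h1 : ‖sQ v‖ ≤ ρ ^ 2) (h2 : ‖sB v (1, 0, p)‖ ≤ ρ) :
    ‖sB (φ v) (1, 0, p)‖ ≤ ρ := by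
  have pol : ∀ a b : ℚ_[p] × ℚ_[p] × ℚ_[p], sB a b = sQ (a + b) - sQ a - sQ b := fun a b => by
    simp only [sQ, sB, Prod.fst_add, Prod.snd_add]; ring
  have hB : sB (φ v) (φ (1, 0, p)) = sB v (1, 0, p) := by
    rw [pol, pol, ← map_add, hQ, hQ, hQ]
  have hT := hQ (1, 0, p)
  have q1 := Padic.norm_p_lt_one (p := p)
  have n1 : ‖((1, 0, p) : ℚ_[p] × ℚ_[p] × ℚ_[p])‖ ≤ 1 := by
    simp only [Prod.norm_def, norm_one, norm_zero, max_le_iff]; exact ⟨le_rfl, zero_le_one, q1.le⟩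
  obtain ⟨s, e⟩ : ∃ s, φ (1, 0, p) = μ • (1, 0, (p : ℚ_[p])) + s :=
    ⟨_, (add_sub_cancel _ _).symm⟩
  rw [e] at hB hT hs
  rw [add_sub_cancel_left] at hs
  have s0 := norm_nonneg s
  have hμ : 1 ≤ ‖μ‖ := by
    by_contra k
    rw [not_le] at k
    have e1 : (p : ℚ_[p]) = μ ^ 2 * p + (μ * sB (1, 0, p) s + sQ s) := by
      simp only [sQ, sB, Prod.fst_add, Prod.snd_add, Prod.smul_mk, smul_eq_mul] at hT ⊢
      linear_combination -hT
    have a := sl2_normB (1, 0, (p : ℚ_[p])) s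
    have b := sl2_normQ s
    have m0 := norm_nonneg μ
    have c := (congrArg norm e1).le.trans ((IsUltrametricDist.norm_add_le_max _ _).trans
      (max_le_max le_rfl (IsUltrametricDist.norm_add_le_max _ _)))
    rw [norm_mul, norm_mul, norm_pow] at c
    have a' : ‖sB (1, 0, (p : ℚ_[p])) s‖ ≤ ‖s‖ := a.trans (mul_le_of_le_one_left s0 n1)
    have m2 : ‖μ‖ ^ 2 < 1 := by nlinarith
    have := norm_nonneg (sB (1, 0, (p : ℚ_[p])) s)
    rcases le_max_iff.1 c with c | c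
    · nlinarith
    rcases le_max_iff.1 c with c | c <;> nlinarith
  by_contra k
  rw [not_le] at k
  have r0 := (norm_nonneg _).trans h2
  have h3 := sl2_bound (v := φ v) (σ := ‖sB (φ v) (1, 0, p)‖)
    (((congrArg norm (hQ v)).le.trans h1).trans (by gcongr)) le_rfl
  have e2 : μ * sB (φ v) (1, 0, p) = sB v (1, 0, p) + -sB (φ v) s := by
    rw [← hB]; simp only [sB, Prod.fst_add, Prod.snd_add, Prod.smul_mk, smul_eq_mul]; ring
  have c := (congrArg norm e2).le.trans (IsUltrametricDist.norm_add_le_max _ _)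
  rw [norm_mul, norm_neg] at c
  have a := sl2_normB (φ v) s
  have w0 := norm_nonneg (φ v)
  rcases le_max_iff.1 c with c | c
  · nlinarith
  · have w1 : ‖φ v‖ ≠ 0 := fun z => by rw [z] at a; nlinarith
    nlinarith [mul_lt_mul_of_pos_left hs (w0.lt_of_ne' w1)]

/-- automorphisms of `sl2` which almost fix an elliptic line preserve small sets -/
theorem sl2_inv (br : E →ₗ[ℚ_[p]] E →ₗ[ℚ_[p]] E) (alt : ∀ x, br x x = 0) {e h f : E} (he : e ≠ 0)
    (h1 : br h e = (2 : ℚ_[p]) • e) (h2 : br h f = (-2 : ℚ_[p]) • f) (h3 : br e f = h)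
    (hs : ∀ w, ∃ x y z : ℚ_[p], w = x • e + y • h + z • f) (K : ℝ) :
    ∃ t : E, t ≠ 0 ∧ ‖t‖ ≤ 1 ∧ ∃ η : ℝ, 0 < η ∧ ∀ r : ℝ, 0 < r → ∃ Ω : Set E,
      (∀ x ∈ Ω, ‖x‖ ≤ r) ∧ (∃ x ∈ Ω, x ≠ 0) ∧
      ∀ ψ : Module.End ℚ_[p] E, Function.Injective ψ → (∀ x y, ψ (br x y) = br (ψ x) (ψ y)) →
        (∃ μ : ℚ_[p], ‖μ‖ ≤ K ∧ ‖ψ t - μ • t‖ ≤ η) → ∀ x ∈ Ω, ψ x ∈ Ω := by
  have skew : ∀ x y, br x y = -br y x := fun x y => by
    have := alt (x + y)
    simp only [map_add, LinearMap.add_apply, alt, zero_add, add_zero] at this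
    exact eq_neg_of_add_eq_zero_right this
  obtain ⟨T, hT⟩ : ∃ T : (ℚ_[p] × ℚ_[p] × ℚ_[p]) →ₗ[ℚ_[p]] E,
      ∀ v, T v = v.1 • e + v.2.1 • h + v.2.2 • f :=
    ⟨(LinearMap.toSpanSingleton _ _ e).coprod ((LinearMap.toSpanSingleton _ _ h).coprod
      (LinearMap.toSpanSingleton _ _ f)), fun v => by simp [add_assoc]⟩
  have hbr : ∀ v w, br (T v) (T w) = T (sBr v w) := fun v w => by
    simp only [hT, sBr, map_add, map_smul, LinearMap.add_apply, LinearMap.smul_apply, alt, h1, h2,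
      h3, skew e h, skew f e, skew f h]
    module
  have hinj : Function.Injective T := (injective_iff_map_eq_zero T).2 fun v hv => by
    have one : ∀ x : ℚ_[p], T (x, 0, 0) = 0 → x = 0 := fun x k => by simpa [hT, he] using k
    have a := hbr (1, 0, 0) v
    have b := hbr (1, 0, 0) (sBr (1, 0, 0) v)
    rw [hv, map_zero] at a
    rw [← a, map_zero] at b
    have z : v.2.2 = 0 := by simpa using one (-2 * v.2.2) (by simpa [sBr] using b.symm)
    have y : v.2.1 = 0 := by simpa using one (-2 * v.2.1) (by simpa [sBr, z] using a.symm)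
    exact Prod.ext (one v.1 (by simpa [hT, y, z] using hv)) (Prod.ext y z)
  let L := (LinearEquiv.ofBijective T ⟨hinj, fun w => by
    obtain ⟨x, y, z, k⟩ := hs w; exact ⟨(x, y, z), by rw [hT, k]⟩⟩).toContinuousLinearEquiv
  have hL : ∀ v w, br (L v) (L w) = L (sBr v w) := hbr
  clear_value L
  obtain ⟨C, C0, hC⟩ := L.toContinuousLinearMap.bound
  obtain ⟨D, D0, hD⟩ := L.symm.toContinuousLinearMap.bound
  have q0 : 0 < ‖(p : ℚ_[p])‖ := norm_pos_iff.2 (Nat.cast_ne_zero.2 (Fact.out : p.Prime).ne_zero)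
  have q1 := Padic.norm_p_lt_one (p := p)
  obtain ⟨c, c0, c1⟩ := NormedField.exists_norm_lt ℚ_[p]
    (show 0 < (‖L (1, 0, p)‖ + 1)⁻¹ by positivity)
  refine ⟨c • L (1, 0, p), smul_ne_zero (norm_pos_iff.1 c0) (by simp), ?_,
    ‖c‖ * (‖(p : ℚ_[p])‖ / (2 * D)), by positivity, fun r r0 => ?_⟩
  · rw [norm_smul]
    rw [lt_inv_comm₀ c0 (by positivity), lt_inv_comm₀ (by positivity) c0, ← one_div,
      lt_div_iff₀ (by positivity)] at c1
    nlinarith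
  obtain ⟨ρ, ρ0, hρ⟩ : ∃ ρ : ℝ, 0 < ρ ∧ C * ρ = ‖(p : ℚ_[p])‖ * r :=
    ⟨‖(p : ℚ_[p])‖ * r / C, by positivity, by field_simp⟩
  refine ⟨{x | ‖sQ (L.symm x)‖ ≤ ρ ^ 2 ∧ ‖sB (L.symm x) (1, 0, p)‖ ≤ ρ}, fun x hx => ?_, ?_,
    fun ψ hi hψ ⟨μ, _, hμ⟩ x hx => ?_⟩
  · have a := sl2_bound hx.1 hx.2
    have b : ‖x‖ ≤ C * ‖L.symm x‖ := by simpa using hC (L.symm x)
    refine le_of_mul_le_mul_left ?_ q0
    nlinarith
  · obtain ⟨a, a0, a1⟩ := NormedField.exists_norm_lt ℚ_[p] ρ0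
    refine ⟨L (a, 0, 0), ⟨by simpa [sQ] using sq_nonneg ρ, ?_⟩, by simpa using norm_pos_iff.1 a0⟩
    simp only [ContinuousLinearEquiv.symm_apply_apply, sB, mul_zero, zero_add, add_zero, norm_mul]
    nlinarith
  · let φ : Module.End ℚ_[p] (ℚ_[p] × ℚ_[p] × ℚ_[p]) :=
      L.symm.toLinearEquiv.toLinearMap ∘ₗ ψ ∘ₗ L.toLinearEquiv.toLinearMap
    have hφ : ∀ v, φ v = L.symm (ψ (L v)) := fun _ => rfl
    have hQ := sl2_Q φ (L.symm.injective.comp (hi.comp L.injective)) fun v w => by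
      apply L.injective
      rw [← hL, hφ, hφ, hφ, ← hL, hψ]; simp
    have e1 : L.symm (ψ x) = φ (L.symm x) := by rw [hφ]; simp
    refine ⟨by rw [e1, hQ]; exact hx.1,
      (congrArg (‖sB · _‖) e1).le.trans (sl2_core φ hQ (μ := μ) ?_ hx.1 hx.2)⟩
    rw [map_smul, smul_comm, ← smul_sub, norm_smul] at hμ
    have a := hD (ψ (L (1, 0, p)) - μ • L (1, 0, p))
    have b := le_of_mul_le_mul_left hμ c0
    rw [le_div_iff₀ (by positivity)] at b
    simp only [ContinuousLinearEquiv.coe_coe, map_sub, map_smul,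
      ContinuousLinearEquiv.symm_apply_apply] at a
    rw [hφ]
    nlinarith

end Pool.Agent.Lib.MP_2dbb30_al.AN
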