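import Pool.Agent.Lib.MP_2dbb30_al.AN.Aut
import Pool.Agent.Lib.MP_2dbb30_al.AN.Alg
import Pool.Agent.Lib.MP_2dbb30_al.AN.Sl2

set_option autoImplicit false
set_option linter.unusedSectionVars false

open Topology Filter

namespace Pool.Agent.Lib.MP_2dbb30_al.AN

open Pool.Agent.Lib.MP_2dbb30_al.TF

variable {p : ℕ} [Fact p.Prime] {G : Type*} [Group G] [TopologicalSpace G] [IsTopologicalGroup G]
  [CompactSpace G] [T2Space G] [TotallyDisconnectedSpace G]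
  {E : Type*} [NormedAddCommGroup E] [NormedSpace ℚ_[p] E] [IsUltrametricDist E]
  [FiniteDimensional ℚ_[p] E] {U : Subgroup G} {lam : G → E} {Ad : G → Module.End ℚ_[p] E}
  {ad : E →ₗ[ℚ_[p]] E →ₗ[ℚ_[p]] E} {S : Submodule ℚ_[p] E}

theorem AdModel.inj (am : AdModel p U lam Ad ad) {g : G} (hg : g ∈ U) :
    Function.Injective (Ad g) := by
  have : ∀ x, Ad g⁻¹ (Ad g x) = x := fun x => by
    rw [← Module.End.mul_apply, ← am.mul _ (U.inv_mem hg) _ hg, inv_mul_cancel, am.one,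
      Module.End.one_apply]
  exact Function.LeftInverse.injective this

theorem norm_p_pos : 0 < ‖(p : ℚ_[p])‖ :=
  norm_pos_iff.2 (Nat.cast_ne_zero.2 (Fact.out : p.Prime).ne_zero)

theorem exists_pow_le {r : ℝ} (hr : 0 < r) : ∃ N : ℕ, ‖(p : ℚ_[p])‖ ^ N ≤ r := by
  obtain ⟨N, hN⟩ := exists_pow_lt_of_lt_one hr (Padic.norm_p_lt_one (p := p))
  exact ⟨N, hN.le⟩

theorem exists_ved (m : LogModel p U lam) (hG : ProP p G) (hss : SH p G) [Nontrivial E] (k : ℕ)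
    (H : Subgroup G) (hH : IsClosed (H : Set G))
    (h1 : ∀ a, Lv U lam (⊤ : Submodule ℚ_[p] E) k a → a ∈ H) (h2 : H ≤ U) :
    ∃ D f, VED p H D f := by
  refine ve_iff.1 (ve_of_selfSimilar hG H hH (hss H ?_ (m.fg (good_top U lam) k H hH h1
    fun a ha => ⟨h2 ha, trivial, by rw [pow_zero]; exact m.norm_le a (h2 ha)⟩)))
  obtain ⟨x, hx⟩ := exists_ne (0 : E)
  obtain ⟨N, a, ha, hax⟩ := m.exists_small (S := ⊤) (x := x) trivial k
  intro h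
  have h3 := h1 a ha
  rw [h, Subgroup.mem_bot] at h3
  rw [h3, m.one] at hax
  exact hx ((smul_eq_zero.1 hax.symm).resolve_left (pow_ne_zero _ (norm_pos_iff.1 norm_p_pos)))

theorem not_aniso (m : LogModel p U lam) (am : AdModel p U lam Ad ad) (hG : ProP p G)
    (hss : SH p G) [Nontrivial E]
    (hno : ∀ y, (∃ N : ℕ, (ad y : Module.End ℚ_[p] E) ^ N = 0) → y = 0) : False := by
  have h1 : ∀ a, Lv U lam (⊤ : Submodule ℚ_[p] E) 0 a → a ∈ U := fun a ha => ha.1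
  obtain ⟨D, f, hv⟩ := exists_ved m hG hss 0 U m.isClosed h1 le_rfl
  obtain ⟨φ, hφ, -, hi, hbr⟩ := ve_aut m am (good_top U lam) 0 h1
    (fun a ha => ⟨ha, trivial, by rw [pow_zero]; exact m.norm_le a ha⟩) hv
  have hφi : Function.Injective φ := (injective_iff_map_eq_zero φ).2 fun x => hi x trivial
  obtain ⟨w, hw⟩ := exists_ne (0 : E)
  obtain ⟨K, hK⟩ := bounded_orbit ad hno w
  have hK0 : 0 < K := (norm_pos_iff.2 hw).trans_le (hK 1 Function.injective_id fun _ _ => rfl)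
  obtain ⟨N, hN⟩ := exists_pow_le (p := p) (div_pos (norm_p_pos (p := p)) hK0)
  refine not_ved_of_inv m am 0 h1 le_rfl hv φ hφ
    {x | ∃ ψ : Module.End ℚ_[p] E, Function.Injective ψ ∧ (∀ x y, ψ (ad x y) = ad (ψ x) (ψ y)) ∧
      x = (p : ℚ_[p]) ^ N • ψ w} ?_
    ⟨_, ⟨1, Function.injective_id, fun _ _ => rfl, rfl⟩,
      smul_ne_zero (pow_ne_zero _ (norm_pos_iff.1 norm_p_pos)) hw⟩ ?_ ?_
  · rintro _ ⟨ψ, h2, h3, rfl⟩
    rw [norm_smul, norm_pow, zero_add, pow_one]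
    exact (mul_le_mul_of_nonneg_left (hK ψ h2 h3) (by positivity)).trans ((le_div_iff₀ hK0).1 hN)
  · rintro _ ⟨ψ, h2, h3, rfl⟩
    exact ⟨φ * ψ, hφi.comp h2, fun x y => by
      simp only [Module.End.mul_apply, h3, hbr _ trivial _ trivial], by rw [map_smul]; rfl⟩
  · rintro g hg _ ⟨ψ, h2, h3, rfl⟩
    exact ⟨Ad g * ψ, (am.inj hg).comp h2, fun x y => by
      simp only [Module.End.mul_apply, h3, am.aut g hg], by rw [map_smul]; rfl⟩

theorem not_sl2 (m : LogModel p U lam) (am : AdModel p U lam Ad ad) (hG : ProP p G)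
    (hss : SH p G) {e h f : E} (he : e ≠ 0)
    (h1 : ad h e = (2 : ℚ_[p]) • e) (h2 : ad h f = (-2 : ℚ_[p]) • f) (h3 : ad e f = h)
    (hs : ∀ w, ∃ x y z : ℚ_[p], w = x • e + y • h + z • f) : False := by
  have : Nontrivial E := ⟨e, 0, he⟩
  have hq0 := norm_p_pos (p := p)
  have hq1 : ‖(p : ℚ_[p])‖ ≤ 1 := (Padic.norm_p_lt_one (p := p)).le
  have hp0 : (p : ℚ_[p]) ≠ 0 := norm_pos_iff.1 hq0
  obtain ⟨t, -, ht1, η, hη, hΩ⟩ := sl2_inv ad am.alt he h1 h2 h3 hs ‖(p : ℚ_[p])‖⁻¹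
  obtain ⟨a, ha⟩ := exists_pow_le (p := p) (mul_pos hq0 hη)
  have haη : ‖(p : ℚ_[p])‖ ^ a ≤ η := ha.trans (mul_le_of_le_one_left hη.le hq1)
  obtain ⟨τ, hτU, hτ⟩ := m.surj t ht1
  obtain ⟨P, hPc, hP⟩ := m.exists_lvl (good_top U lam) a
  have hPU : P ≤ U := fun g hg => ((hP g).1 hg).1
  have hκU : ∀ μ, pw hG τ μ ∈ U := pw_mem hG m.isClosed hτU
  have hPn : ∀ g ∈ U, ∀ u ∈ P, g * u * g⁻¹ ∈ P := fun g hg u hu => by
    obtain ⟨hu1, -, hu2⟩ := (hP u).1 hu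
    refine (hP _).2 ⟨U.mul_mem (U.mul_mem hg hu1) (U.inv_mem hg), trivial, ?_⟩
    have h4 := m.norm_conj hg hu1
    have h5 : ‖(p : ℚ_[p])‖ ^ 2 * ‖lam g‖ * ‖lam u‖ ≤ ‖lam u‖ :=
      mul_le_of_le_one_left (norm_nonneg _)
        (mul_le_one₀ (pow_le_one₀ hq0.le hq1) (norm_nonneg _) (m.norm_le g hg))
    have h6 := IsUltrametricDist.norm_add_le_max (lam (g * u * g⁻¹) - lam u) (lam u)
    rw [sub_add_cancel] at h6
    exact h6.trans (max_le ((h4.trans h5).trans hu2) hu2)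
  let H : Subgroup G :=
    { carrier := (fun x : ℤ_[p] × G => pw hG τ x.1 * x.2) '' (Set.univ ×ˢ (P : Set G))
      one_mem' := ⟨(0, 1), ⟨trivial, P.one_mem⟩, by simp⟩
      mul_mem' := by
        rintro _ _ ⟨⟨μ, u⟩, ⟨-, hu⟩, rfl⟩ ⟨⟨ν, v⟩, ⟨-, hv⟩, rfl⟩
        refine ⟨(μ + ν, (pw hG τ ν)⁻¹ * u * (pw hG τ ν)⁻¹⁻¹ * v),
          ⟨trivial, P.mul_mem (hPn _ (U.inv_mem (hκU ν)) u hu) hv⟩, ?_⟩
        simp only [pw_add]; group
      inv_mem' := by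
        rintro _ ⟨⟨μ, u⟩, ⟨-, hu⟩, rfl⟩
        refine ⟨(-μ, pw hG τ μ * u⁻¹ * (pw hG τ μ)⁻¹),
          ⟨trivial, hPn _ (hκU μ) _ (P.inv_mem hu)⟩, ?_⟩
        simp only [pw_neg]; group }
  have hHc : IsClosed (H : Set G) :=
    ((isCompact_univ.prod hPc.isCompact).image
      (((continuous_pw hG τ).comp continuous_fst).mul continuous_snd)).isClosed
  have hH1 : ∀ u, Lv U lam (⊤ : Submodule ℚ_[p] E) a u → u ∈ H := fun u hu =>
    ⟨(0, u), ⟨trivial, (hP u).2 hu⟩, by simp⟩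
  have hH2 : H ≤ U := by
    rintro _ ⟨⟨μ, u⟩, ⟨-, hu⟩, rfl⟩
    exact U.mul_mem (hκU μ) (hPU hu)
  have hτH : τ ∈ H := ⟨(1, 1), ⟨trivial, P.one_mem⟩, by simp⟩
  obtain ⟨D, F, hv⟩ := exists_ved m hG hss a H hHc hH1 hH2
  obtain ⟨φ, hφ, -, hi, hbr⟩ := ve_aut m am (good_top U lam) a hH1
    (fun g hg => ⟨hH2 hg, trivial, by rw [pow_zero]; exact m.norm_le g (hH2 hg)⟩) hv
  have hφi : Function.Injective φ := (injective_iff_map_eq_zero φ).2 fun x => hi x trivial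
  obtain ⟨Ω, hΩ1, hΩ2, hΩ3⟩ := hΩ _ (pow_pos hq0 (a + 1))
  refine not_ved_of_inv m am a hH1 hH2 hv φ hφ Ω hΩ1 hΩ2
    (hΩ3 φ hφi (fun x y => hbr _ trivial _ trivial) ?_)
    fun g hg => hΩ3 _ (am.inj (hH2 hg)) (am.aut g (hH2 hg)) ⟨1, ?_, ?_⟩
  · have hD : τ ^ p ∈ D := (index_facts hv.2.1 hv.2.2.1).1 τ hτH
    obtain ⟨⟨μ, u⟩, ⟨-, hu⟩, hμ⟩ := hv.2.2.2.2.1 _ hD
    have h4 := hφ _ hD
    rw [m.pow τ hτU, hτ, map_smul, ← hμ] at h4
    have h5 := m.norm_inv_mul (hκU μ) (U.mul_mem (hκU μ) (hPU hu))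
    rw [inv_mul_cancel_left, m.pw hG hτU, hτ] at h5
    refine ⟨(p : ℚ_[p])⁻¹ * μ, ?_, ?_⟩
    · rw [norm_mul, norm_inv]
      exact mul_le_of_le_one_right (by positivity) μ.2
    · have h6 : φ t - ((p : ℚ_[p])⁻¹ * μ) • t =
          (p : ℚ_[p])⁻¹ • (lam (pw hG τ μ * u) - (μ : ℚ_[p]) • t) := by
        rw [smul_sub, mul_smul]
        simp only [] at h4
        rw [← h4, inv_smul_smul₀ hp0]
      rw [h6, norm_smul, norm_inv, ← h5, inv_mul_le_iff₀ hq0]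
      exact ((hP u).1 hu).2.2.trans ha
  · rw [norm_one]
    exact (one_le_inv₀ hq0).2 hq1
  · obtain ⟨⟨μ, u⟩, ⟨-, hu⟩, rfl⟩ := hg
    have h4 : Ad (pw hG τ μ) t = t := by
      rw [am.fix _ (hκU μ), m.pw hG hτU, hτ, map_smul, LinearMap.smul_apply, am.alt, smul_zero]
    have h5 : ∀ g ∈ U, ∀ x, ‖Ad g x - x‖ ≤ ‖lam g‖ * ‖x‖ := fun g hg x =>
      (am.near g hg x).trans (by
        rw [mul_assoc]
        exact mul_le_of_le_one_left (by positivity) (pow_le_one₀ hq0.le hq1))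
    have h6 : ‖Ad u t - t‖ ≤ η :=
      (h5 u (hPU hu) t).trans ((mul_le_of_le_one_right (norm_nonneg _) ht1).trans
        (((hP u).1 hu).2.2.trans haη))
    have h7 : Ad (pw hG τ μ * u) t - (1 : ℚ_[p]) • t =
        (Ad (pw hG τ μ) (Ad u t - t) - (Ad u t - t)) + (Ad u t - t) := by
      rw [am.mul _ (hκU μ) _ (hPU hu), Module.End.mul_apply, map_sub, h4, one_smul]; abel
    simp only []
    rw [h7]
    refine (IsUltrametricDist.norm_add_le_max _ _).trans (max_le ?_ h6)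
    exact (h5 _ (hκU μ) _).trans
      ((mul_le_of_le_one_left (norm_nonneg _) (m.norm_le _ (hκU μ))).trans h6)

end Pool.Agent.Lib.MP_2dbb30_al.AN
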