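import Pool.Agent.Lib.MP_2dbb30_al.AN.Defs

set_option autoImplicit false
set_option linter.unusedSectionVars false

open Topology Filter

namespace Pool.Agent.Lib.MP_2dbb30_al.AN

open Pool.Agent.Lib.MP_2dbb30_al.TF

variable {p : ℕ} [Fact p.Prime] {E : Type*} [NormedAddCommGroup E] [NormedSpace ℚ_[p] E]
  [IsUltrametricDist E] [CompleteSpace E]

theorem kq_pos : 0 < ‖(p : ℚ_[p])‖ :=
  norm_pos_iff.2 (Nat.cast_ne_zero.2 (Fact.out : p.Prime).ne_zero)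

theorem kq_lt : ‖(p : ℚ_[p])‖ < 1 := Padic.norm_p_lt_one

theorem k_ultra {a b : E} {r : ℝ} (ha : ‖a‖ ≤ r) (hb : ‖b‖ ≤ r) : ‖a + b‖ ≤ r :=
  (IsUltrametricDist.norm_add_le_max a b).trans (max_le ha hb)

/-- linearisation of a map close to multiplication by `p` -/
theorem koenigs (P : E → E) (κ : ℝ) (hκ0 : 0 ≤ κ) (hκ : κ ≤ ‖(p : ℚ_[p])‖ ^ 2) (h0 : P 0 = 0)
    (hP : ∀ x y, ‖x‖ ≤ 1 → ‖y‖ ≤ 1 →
      ‖P x - P y - (p : ℚ_[p]) • (x - y)‖ ≤ κ * max ‖x‖ ‖y‖ * ‖x - y‖) :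
    ∃ F : E → E, F 0 = 0 ∧
      (∀ x, ‖x‖ ≤ 1 →
        Tendsto (fun j : ℕ => ((p : ℚ_[p]) ^ j)⁻¹ • P^[j] x) atTop (𝓝 (F x))) ∧
      (∀ x y, ‖x‖ ≤ 1 → ‖y‖ ≤ 1 →
        ‖F x - F y - (x - y)‖ ≤ κ / ‖(p : ℚ_[p])‖ * max ‖x‖ ‖y‖ * ‖x - y‖) ∧
      ∀ z, ‖z‖ ≤ 1 → ∃ x, ‖x‖ ≤ 1 ∧ F x = z := by
  have q0 := kq_pos (p := p)
  have q1 := kq_lt (p := p)
  set q := ‖(p : ℚ_[p])‖ with hq
  have hp0 : (p : ℚ_[p]) ≠ 0 := norm_pos_iff.1 q0
  have hκq : κ / q ≤ q := by rw [div_le_iff₀ q0]; nlinarith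
  have hκq0 : 0 ≤ κ / q := div_nonneg hκ0 q0.le
  have hA : ∀ x y, ‖x‖ ≤ 1 → ‖y‖ ≤ 1 → ‖P x - P y‖ ≤ q * ‖x - y‖ := by
    intro x y hx hy
    have e : P x - P y = (P x - P y - (p : ℚ_[p]) • (x - y)) + (p : ℚ_[p]) • (x - y) := by abel
    rw [e]
    refine k_ultra ((hP x y hx hy).trans ?_) (by rw [norm_smul])
    have h1 : max ‖x‖ ‖y‖ ≤ 1 := max_le hx hy
    have h2 : κ * max ‖x‖ ‖y‖ ≤ q := by
      have : κ * max ‖x‖ ‖y‖ ≤ κ := mul_le_of_le_one_right hκ0 h1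
      nlinarith
    exact mul_le_mul_of_nonneg_right h2 (norm_nonneg _)
  have hz : ∀ j : ℕ, P^[j] 0 = 0 := fun j => Function.iterate_fixed h0 j
  have hB : ∀ x, ‖x‖ ≤ 1 → ∀ j : ℕ, ‖P^[j] x‖ ≤ q ^ j * ‖x‖ := by
    intro x hx j
    induction j with
    | zero => simp
    | succ j ih =>
      have h1 : ‖P^[j] x‖ ≤ 1 :=
        ih.trans (mul_le_one₀ (pow_le_one₀ q0.le q1.le) (norm_nonneg _) hx)
      have := hA (P^[j] x) 0 h1 (by simp)
      rw [h0, sub_zero, sub_zero] at this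
      rw [Function.iterate_succ_apply', pow_succ]
      nlinarith [mul_le_mul_of_nonneg_left ih q0.le]
  have hB1 : ∀ x, ‖x‖ ≤ 1 → ∀ j : ℕ, ‖P^[j] x‖ ≤ 1 := fun x hx j =>
    (hB x hx j).trans (mul_le_one₀ (pow_le_one₀ q0.le q1.le) (norm_nonneg _) hx)
  have hC : ∀ x y, ‖x‖ ≤ 1 → ‖y‖ ≤ 1 → ∀ j : ℕ, ‖P^[j] x - P^[j] y‖ ≤ q ^ j * ‖x - y‖ := by
    intro x y hx hy j
    induction j with
    | zero => simp
    | succ j ih =>
      have := hA _ _ (hB1 x hx j) (hB1 y hy j)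
      rw [Function.iterate_succ_apply', Function.iterate_succ_apply', pow_succ]
      nlinarith [mul_le_mul_of_nonneg_left ih q0.le]
  have hD : ∀ x y, ‖x‖ ≤ 1 → ‖y‖ ≤ 1 → ∀ j : ℕ,
      ‖((p : ℚ_[p]) ^ (j + 1))⁻¹ • (P^[j + 1] x - P^[j + 1] y) -
        ((p : ℚ_[p]) ^ j)⁻¹ • (P^[j] x - P^[j] y)‖ ≤
        κ / q * max ‖x‖ ‖y‖ * ‖x - y‖ * q ^ j := by
    intro x y hx hy j
    have e : ((p : ℚ_[p]) ^ (j + 1))⁻¹ • (P^[j + 1] x - P^[j + 1] y) -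
        ((p : ℚ_[p]) ^ j)⁻¹ • (P^[j] x - P^[j] y) = ((p : ℚ_[p]) ^ (j + 1))⁻¹ •
          (P (P^[j] x) - P (P^[j] y) - (p : ℚ_[p]) • (P^[j] x - P^[j] y)) := by
      rw [smul_sub _ (P _ - P _), smul_smul, Function.iterate_succ_apply',
        Function.iterate_succ_apply']
      congr 2
      field_simp
      exact pow_succ _ _
    rw [e, norm_smul, norm_inv, norm_pow, ← hq]
    have h1 := hP _ _ (hB1 x hx j) (hB1 y hy j)
    have h2 : max ‖P^[j] x‖ ‖P^[j] y‖ ≤ q ^ j * max ‖x‖ ‖y‖ :=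
      max_le ((hB x hx j).trans (by gcongr; exact le_max_left _ _))
        ((hB y hy j).trans (by gcongr; exact le_max_right _ _))
    have h3 := hC x y hx hy j
    have h4 : κ * max ‖P^[j] x‖ ‖P^[j] y‖ * ‖P^[j] x - P^[j] y‖ ≤
        κ * (q ^ j * max ‖x‖ ‖y‖) * (q ^ j * ‖x - y‖) := by gcongr
    have h5 : 0 < q ^ (j + 1) := pow_pos q0 _
    rw [inv_mul_le_iff₀ h5]
    refine (h1.trans h4).trans (le_of_eq ?_)
    field_simp
    ring
  have hE : ∀ x y, ‖x‖ ≤ 1 → ‖y‖ ≤ 1 → ∀ j : ℕ,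
      ‖((p : ℚ_[p]) ^ j)⁻¹ • (P^[j] x - P^[j] y) - (x - y)‖ ≤
        κ / q * max ‖x‖ ‖y‖ * ‖x - y‖ := by
    intro x y hx hy j
    have hn : 0 ≤ κ / q * max ‖x‖ ‖y‖ * ‖x - y‖ := by positivity
    induction j with
    | zero => simpa using hn
    | succ j ih =>
      have h1 := (hD x y hx hy j).trans
        (mul_le_of_le_one_right hn (pow_le_one₀ q0.le q1.le))
      have := k_ultra h1 ih
      rwa [sub_add_sub_cancel] at this
  have hF : ∀ x : E, ∃ l : E, ‖x‖ ≤ 1 →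
      Tendsto (fun j : ℕ => ((p : ℚ_[p]) ^ j)⁻¹ • P^[j] x) atTop (𝓝 l) := by
    intro x
    by_cases hx : ‖x‖ ≤ 1
    · have hc : CauchySeq (fun j : ℕ => ((p : ℚ_[p]) ^ j)⁻¹ • P^[j] x) := by
        refine cauchySeq_of_le_geometric q (κ / q * max ‖x‖ ‖(0 : E)‖ * ‖x - 0‖) q1 fun j => ?_
        have := hD x 0 hx (by simp) j
        rw [hz, hz, sub_zero, sub_zero] at this
        rw [dist_comm, dist_eq_norm]
        exact this
      obtain ⟨l, hl⟩ := cauchySeq_tendsto_of_complete hc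
      exact ⟨l, fun _ => hl⟩
    · exact ⟨0, fun h => absurd h hx⟩
  choose F hF using hF
  have F0 : F 0 = 0 := by
    have := hF 0 (by simp)
    simp only [hz, smul_zero] at this
    exact (tendsto_nhds_unique this tendsto_const_nhds)
  have hL : ∀ x y, ‖x‖ ≤ 1 → ‖y‖ ≤ 1 →
      ‖F x - F y - (x - y)‖ ≤ κ / q * max ‖x‖ ‖y‖ * ‖x - y‖ := by
    intro x y hx hy
    have h1 := (((hF x hx).sub (hF y hy)).sub_const (x - y)).norm
    refine le_of_tendsto' h1 fun j => ?_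
    have := hE x y hx hy j
    rwa [smul_sub] at this
  have hL2 : ∀ x y, ‖x‖ ≤ 1 → ‖y‖ ≤ 1 → ‖F x - F y - (x - y)‖ ≤ q * ‖x - y‖ := by
    intro x y hx hy
    refine (hL x y hx hy).trans (mul_le_mul_of_nonneg_right ?_ (norm_nonneg _))
    exact (mul_le_of_le_one_right hκq0 (max_le hx hy)).trans hκq
  refine ⟨F, F0, hF, hL, fun z hz1 => ?_⟩
  let T : E → E := fun x => z + -(F x - x)
  have hm : Set.MapsTo T (Metric.closedBall 0 1) (Metric.closedBall 0 1) := by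
    intro x hx
    rw [mem_closedBall_zero_iff] at hx ⊢
    refine k_ultra hz1 ?_
    have := hL2 x 0 hx (by simp)
    rw [F0, sub_zero, sub_zero] at this
    rw [norm_neg]
    exact this.trans (mul_le_one₀ q1.le (norm_nonneg _) hx)
  have hc : ContractingWith ⟨q, q0.le⟩ (hm.restrict T _ _) := by
    refine ⟨q1, LipschitzWith.of_dist_le_mul fun x y => ?_⟩
    have := hL2 y x (mem_closedBall_zero_iff.1 y.2) (mem_closedBall_zero_iff.1 x.2)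
    change dist (T x) (T y) ≤ q * dist (x : E) y
    rw [dist_eq_norm, dist_eq_norm, norm_sub_rev (x : E) y]
    refine le_of_eq_of_le (congrArg norm ?_) this
    simp only [T]
    abel
  obtain ⟨x, hx, hfix, -⟩ := hc.exists_fixedPoint' Metric.isClosed_closedBall.isComplete hm
    (x := 0) (by simp) (edist_ne_top _ _)
  refine ⟨x, mem_closedBall_zero_iff.1 hx, ?_⟩
  have h1 : z + -(F x - x) = x := hfix
  have h2 : F x = z + -(F x - x) - x + F x := by rw [h1]; abel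
  have h3 : z + -(F x - x) - x + F x = z := by abel
  exact h2.trans h3

end Pool.Agent.Lib.MP_2dbb30_al.AN
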