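import Pool.Agent.Lib.MP_2dbb30_al.AN.Defs

set_option autoImplicit false
set_option linter.unusedSectionVars false

open Topology Filter

namespace Pool.Agent.Lib.MP_2dbb30_al.AN

open Pool.Agent.Lib.MP_2dbb30_al.TF

variable {p : ℕ} [Fact p.Prime] {G : Type*} [Group G] [TopologicalSpace G] [IsTopologicalGroup G]
  [CompactSpace G] [T2Space G] [TotallyDisconnectedSpace G]
  {E : Type*} [NormedAddCommGroup E] [NormedSpace ℚ_[p] E] [IsUltrametricDist E]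
  [FiniteDimensional ℚ_[p] E] {U : Subgroup G} {lam : G → E} {Ad : G → Module.End ℚ_[p] E}
  {ad : E →ₗ[ℚ_[p]] E →ₗ[ℚ_[p]] E} {S : Submodule ℚ_[p] E}

theorem log_q_pos : 0 < ‖(p : ℚ_[p])‖ :=
  norm_pos_iff.2 (Nat.cast_ne_zero.2 (Fact.out : p.Prime).ne_zero)

theorem log_q_lt : ‖(p : ℚ_[p])‖ < 1 := Padic.norm_p_lt_one

theorem log_q_sq : ‖(p : ℚ_[p])‖ ^ 2 < 1 := pow_lt_one₀ log_q_pos.le log_q_lt two_ne_zero

theorem LogModel.norm_pow_p (m : LogModel p U lam) {a : G} (ha : a ∈ U) (j : ℕ) :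
    ‖lam (a ^ p ^ j)‖ = ‖(p : ℚ_[p])‖ ^ j * ‖lam a‖ := by
  rw [m.pow a ha, norm_smul, Nat.cast_pow, norm_pow]

theorem LogModel.isClosed (m : LogModel p U lam) : IsClosed (U : Set G) :=
  U.isClosed_of_isOpen m.isOpen

theorem LogModel.one (m : LogModel p U lam) : lam 1 = 0 := by
  have h := m.pow 1 U.one_mem 0
  rwa [pow_zero, Nat.cast_zero, zero_smul] at h

theorem LogModel.mul_of_commute (m : LogModel p U lam) {a b : G} (ha : a ∈ U) (hb : b ∈ U)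
    (h : Commute a b) : lam (a * b) = lam a + lam b := by
  have key : ∀ j : ℕ, ‖lam (a * b) - lam a - lam b‖ ≤ ‖(p : ℚ_[p])‖ ^ j := by
    intro j
    have h1 := m.mul _ (U.pow_mem ha (p ^ j)) _ (U.pow_mem hb (p ^ j))
    rw [← h.mul_pow, m.norm_pow_p ha, m.norm_pow_p hb, m.pow _ (U.mul_mem ha hb), m.pow _ ha,
      m.pow _ hb, ← smul_sub, ← smul_sub, norm_smul, Nat.cast_pow, norm_pow] at h1
    have q0 : 0 < ‖(p : ℚ_[p])‖ ^ j := pow_pos log_q_pos j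
    have h2 : ‖(p : ℚ_[p])‖ ^ 2 * ‖lam a‖ * ‖lam b‖ ≤ 1 :=
      mul_le_one₀ (mul_le_one₀ log_q_sq.le (norm_nonneg _) (m.norm_le a ha)) (norm_nonneg _)
        (m.norm_le b hb)
    refine le_of_mul_le_mul_left (h1.trans ?_) q0
    calc _ = ‖(p : ℚ_[p])‖ ^ j * ‖(p : ℚ_[p])‖ ^ j *
          (‖(p : ℚ_[p])‖ ^ 2 * ‖lam a‖ * ‖lam b‖) := by ring
      _ ≤ _ := mul_le_of_le_one_right (mul_pos q0 q0).le h2
  have h3 := ge_of_tendsto' (tendsto_pow_atTop_nhds_zero_of_lt_one (log_q_pos (p := p)).le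
    log_q_lt) key
  have h4 := norm_le_zero_iff.1 h3
  rw [sub_sub, sub_eq_zero] at h4
  exact h4

theorem LogModel.inv (m : LogModel p U lam) {a : G} (ha : a ∈ U) : lam a⁻¹ = -lam a := by
  have h := m.mul_of_commute ha (U.inv_mem ha) (Commute.refl a).inv_right
  rw [mul_inv_cancel, m.one] at h
  exact eq_neg_of_add_eq_zero_right h.symm

theorem LogModel.pw (m : LogModel p U lam) (hG : ProP p G) {a : G} (ha : a ∈ U) (μ : ℤ_[p]) :
    lam (TF.pw hG a μ) = (μ : ℚ_[p]) • lam a := by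
  have h1 : Continuous fun μ : ℤ_[p] => lam (TF.pw hG a μ) :=
    m.cont.comp_continuous (continuous_pw hG a) fun μ => pw_mem hG m.isClosed ha μ
  have h2 : Continuous fun μ : ℤ_[p] => (μ : ℚ_[p]) • lam a :=
    continuous_subtype_val.smul continuous_const
  refine PadicInt.denseRange_natCast.induction_on
    (p := fun μ : ℤ_[p] => lam (TF.pw hG a μ) = (μ : ℚ_[p]) • lam a) μ (isClosed_eq h1 h2)
    fun n => ?_
  rw [pw_natCast, m.pow a ha, PadicInt.coe_natCast]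

theorem LogModel.norm_mul_le (m : LogModel p U lam) {a b : G} (ha : a ∈ U) (hb : b ∈ U) :
    ‖lam (a * b)‖ ≤ max ‖lam a‖ ‖lam b‖ := by
  have h1 := m.mul a ha b hb
  have h2 : ‖(p : ℚ_[p])‖ ^ 2 * ‖lam a‖ * ‖lam b‖ ≤ ‖lam b‖ :=
    mul_le_of_le_one_left (norm_nonneg _)
      (mul_le_one₀ log_q_sq.le (norm_nonneg _) (m.norm_le a ha))
  have e : lam (a * b) = (lam (a * b) - lam a - lam b) + (lam a + lam b) := by abel
  rw [e]
  exact (IsUltrametricDist.norm_add_le_max _ _).trans (max_le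
    ((h1.trans h2).trans (le_max_right _ _)) (IsUltrametricDist.norm_add_le_max _ _))

theorem LogModel.norm_inv_mul (m : LogModel p U lam) {a b : G} (ha : a ∈ U) (hb : b ∈ U) :
    ‖lam (a⁻¹ * b)‖ = ‖lam b - lam a‖ := by
  have hu := U.mul_mem (U.inv_mem ha) hb
  have h1 := m.mul a ha _ hu
  rw [mul_inv_cancel_left] at h1
  have h2 : ‖(p : ℚ_[p])‖ ^ 2 * ‖lam a‖ < 1 :=
    (mul_le_of_le_one_right (sq_nonneg _) (m.norm_le a ha)).trans_lt log_q_sq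
  rcases eq_or_lt_of_le (norm_nonneg (lam (a⁻¹ * b))) with h0 | h0
  · rw [← h0, mul_zero, norm_eq_zero.1 h0.symm, sub_zero] at h1
    rw [← h0, le_antisymm h1 (norm_nonneg _)]
  · have h3 : ‖lam b - lam a - lam (a⁻¹ * b)‖ < ‖lam (a⁻¹ * b)‖ :=
      h1.trans_lt (mul_lt_of_lt_one_left h0 h2)
    have h4 := IsUltrametricDist.norm_add_eq_max_of_norm_ne_norm h3.ne
    rw [sub_add_cancel, max_eq_right h3.le] at h4
    exact h4.symm

theorem LogModel.norm_conj (m : LogModel p U lam) {g a : G} (hg : g ∈ U) (ha : a ∈ U) :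
    ‖lam (g * a * g⁻¹) - lam a‖ ≤ ‖(p : ℚ_[p])‖ ^ 2 * ‖lam g‖ * ‖lam a‖ := by
  have hb := U.mul_mem (U.mul_mem hg ha) (U.inv_mem hg)
  have h1 := m.mul _ hb g hg
  have h2 := m.mul g hg a ha
  rw [inv_mul_cancel_right] at h1
  have e : lam (g * a * g⁻¹) - lam a =
      (lam (g * a) - lam g - lam a) + -(lam (g * a) - lam (g * a * g⁻¹) - lam g) := by abel
  have h3 : ‖lam (g * a * g⁻¹) - lam a‖ ≤ max (‖(p : ℚ_[p])‖ ^ 2 * ‖lam g‖ * ‖lam a‖)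
      (‖(p : ℚ_[p])‖ ^ 2 * ‖lam g‖ * ‖lam (g * a * g⁻¹)‖) := by
    rw [e]
    refine (IsUltrametricDist.norm_add_le_max _ _).trans (max_le_max h2 ?_)
    rw [norm_neg, mul_right_comm]
    exact h1
  have h4 : ‖(p : ℚ_[p])‖ ^ 2 * ‖lam g‖ < 1 :=
    (mul_le_of_le_one_right (sq_nonneg _) (m.norm_le g hg)).trans_lt log_q_sq
  have h5 : 0 ≤ ‖(p : ℚ_[p])‖ ^ 2 * ‖lam g‖ := mul_nonneg (sq_nonneg _) (norm_nonneg _)
  rcases le_or_gt ‖lam (g * a * g⁻¹)‖ ‖lam a‖ with c | c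
  · exact h3.trans (max_le le_rfl (mul_le_mul_of_nonneg_left c h5))
  · exfalso
    have h6 : ‖lam (g * a * g⁻¹)‖ ≠ ‖-lam a‖ := by
      rw [norm_neg]
      exact c.ne'
    have h7 := IsUltrametricDist.norm_add_eq_max_of_norm_ne_norm h6
    rw [← sub_eq_add_neg, norm_neg, max_eq_left c.le] at h7
    rw [h7, max_eq_right (mul_le_mul_of_nonneg_left c.le h5)] at h3
    exact absurd h3 (not_le.2 (mul_lt_of_lt_one_left ((norm_nonneg _).trans_lt c) h4))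

theorem LogModel.exists_root (m : LogModel p U lam) {k j : ℕ} {a : G}
    (ha : Lv U lam S (k + j) a) : ∃ b, Lv U lam S k b ∧ b ^ p ^ j = a := by
  obtain ⟨h1, h2, h3⟩ := ha
  have q0 : 0 < ‖(p : ℚ_[p])‖ ^ j := pow_pos log_q_pos j
  have p0 : ((p : ℚ_[p]) ^ j) ≠ 0 := pow_ne_zero _ (norm_pos_iff.1 log_q_pos)
  have h4 : ‖((p : ℚ_[p]) ^ j)⁻¹ • lam a‖ ≤ ‖(p : ℚ_[p])‖ ^ k := by
    rw [norm_smul, norm_inv, norm_pow, inv_mul_le_iff₀ q0, ← pow_add, add_comm]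
    exact h3
  obtain ⟨b, hb, e⟩ := m.surj _ (h4.trans (pow_le_one₀ log_q_pos.le log_q_lt.le))
  refine ⟨b, ⟨hb, e ▸ S.smul_mem _ h2, e ▸ h4⟩, m.inj (U.pow_mem hb _) h1 ?_⟩
  rw [m.pow b hb, e, Nat.cast_pow, smul_inv_smul₀ p0]

theorem LogModel.exists_small (m : LogModel p U lam) {x : E} (hx : x ∈ S) (k : ℕ) :
    ∃ (N : ℕ) (a : G), Lv U lam S k a ∧ lam a = (p : ℚ_[p]) ^ N • x := by
  have h1 := (tendsto_pow_atTop_nhds_zero_of_lt_one (log_q_pos (p := p)).le log_q_lt).mul_const ‖x‖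
  rw [zero_mul] at h1
  obtain ⟨N, hN⟩ := (h1.eventually (ge_mem_nhds (pow_pos (log_q_pos (p := p)) k))).exists
  have h4 : ‖(p : ℚ_[p]) ^ N • x‖ ≤ ‖(p : ℚ_[p])‖ ^ k := by
    rw [norm_smul, norm_pow]
    exact hN
  obtain ⟨b, hb, e⟩ := m.surj _ (h4.trans (pow_le_one₀ log_q_pos.le log_q_lt.le))
  exact ⟨N, b, ⟨hb, e ▸ S.smul_mem _ hx, e ▸ h4⟩, e⟩

theorem LogModel.exists_pow_lv (m : LogModel p U lam) {a : G} (ha : Lv U lam S 0 a) (k : ℕ) :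
    Lv U lam S k (a ^ p ^ k) := by
  refine ⟨U.pow_mem ha.1 _, ?_, ?_⟩
  · rw [m.pow a ha.1]
    exact S.smul_mem _ ha.2.1
  · rw [m.norm_pow_p ha.1]
    exact mul_le_of_le_one_right (pow_pos log_q_pos k).le (m.norm_le a ha.1)

theorem LogModel.exists_lvl (m : LogModel p U lam) (hS : Good U lam S) (k : ℕ) :
    ∃ P : Subgroup G, IsClosed (P : Set G) ∧ ∀ a, a ∈ P ↔ Lv U lam S k a := by
  refine ⟨⟨⟨⟨{a | Lv U lam S k a}, fun {a b} ha hb => ⟨U.mul_mem ha.1 hb.1,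
    hS a ha.1 b hb.1 ha.2.1 hb.2.1, (m.norm_mul_le ha.1 hb.1).trans (max_le ha.2.2 hb.2.2)⟩⟩,
    U.one_mem, ?_, ?_⟩, fun {a} ha => ⟨U.inv_mem ha.1, ?_, ?_⟩⟩, ?_, fun a => Iff.rfl⟩
  · rw [m.one]
    exact S.zero_mem
  · rw [m.one, norm_zero]
    exact (pow_pos log_q_pos k).le
  · rw [m.inv ha.1]
    exact S.neg_mem ha.2.1
  · rw [m.inv ha.1, norm_neg]
    exact ha.2.2
  · exact m.cont.preimage_isClosed_of_isClosed m.isClosed
      (t := (S : Set E) ∩ {x | ‖x‖ ≤ ‖(p : ℚ_[p])‖ ^ k})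
      (S.closed_of_finiteDimensional.inter (isClosed_le continuous_norm continuous_const))

end Pool.Agent.Lib.MP_2dbb30_al.AN
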