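import Pool.Agent.Lib.MP_2dbb30_al.AN.Log

set_option autoImplicit false
set_option linter.unusedSectionVars false

open Topology Filter

namespace Pool.Agent.Lib.MP_2dbb30_al.AN

open Pool.Agent.Lib.MP_2dbb30_al.TF

variable {p : ℕ} [Fact p.Prime] {G : Type*} [Group G] [TopologicalSpace G] [IsTopologicalGroup G]
  [CompactSpace G] [T2Space G] [TotallyDisconnectedSpace G]
  {E : Type*} [NormedAddCommGroup E] [NormedSpace ℚ_[p] E] [IsUltrametricDist E]
  [FiniteDimensional ℚ_[p] E] {U : Subgroup G} {lam : G → E} {Ad : G → Module.End ℚ_[p] E}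
  {ad : E →ₗ[ℚ_[p]] E →ₗ[ℚ_[p]] E} {S : Submodule ℚ_[p] E}

open scoped commutatorElement

theorem solvable_of_metabelian {K : Type*} [Group K] (A : Subgroup K)
    (h1 : ∀ a b : K, ⁅a, b⁆ ∈ A) (h2 : ∀ a ∈ A, ∀ b ∈ A, a * b = b * a) : Group.IsSolvable K := by
  refine ⟨⟨2, ?_⟩⟩
  have h3 : derivedSeries K 1 ≤ A := by
    rw [derivedSeries_succ, Subgroup.commutator_le]
    exact fun a _ b _ => h1 a b
  rw [derivedSeries_succ, eq_bot_iff, Subgroup.commutator_le]
  intro a ha b hb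
  rw [Subgroup.mem_bot, commutatorElement_eq_one_iff_mul_comm]
  exact h2 a (h3 ha) b (h3 hb)

theorem solvable_of_open (hG : ProP p G) (U : Subgroup G) (hU : IsOpen (U : Set G))
    [Group.IsSolvable U] : Group.IsSolvable G := by
  obtain ⟨N, hN, hNo, hNU⟩ := exists_open_normal (hU.mem_nhds U.one_mem)
  obtain ⟨k, hk⟩ := hG N hN hNo
  have hfin : Finite (G ⧸ N) := Subgroup.quotient_finite_of_isOpen N hNo
  have hP : IsPGroup p (G ⧸ N) := IsPGroup.of_card hk
  have := hP.isNilpotent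
  have hle : N ≤ U := hNU
  have : Group.IsSolvable N :=
    Group.isSolvable_of_isSolvable_injective (f := Subgroup.inclusion hle)
      (Subgroup.inclusion_injective hle)
  exact Group.isSolvable_of_ker_le_range N.subtype (QuotientGroup.mk' N) (by simp)

/-- an invariant line with abelian centraliser makes `U` metabelian -/
theorem solvable_of_line (m : LogModel p U lam) (am : AdModel p U lam Ad ad) {e : E} (he : e ≠ 0)
    (hC : ∀ x y, ad x e = 0 → ad y e = 0 → ad x y = 0) (hl : ∀ x, ∃ s : ℚ_[p], ad x e = s • e) :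
    Group.IsSolvable U := by
  have hinv : ∀ g ∈ U, ∀ x, Ad g⁻¹ (Ad g x) = x := fun g hg x => by
    rw [← Module.End.mul_apply, ← am.mul _ (U.inv_mem hg) _ hg, inv_mul_cancel, am.one,
      Module.End.one_apply]
  have hline : ∀ g ∈ U, ∃ s : ℚ_[p], Ad g e = s • e := fun g hg => by
    have := (am.inv g hg (Submodule.span ℚ_[p] {e})).2 (fun x hx => by
      obtain ⟨c, rfl⟩ := Submodule.mem_span_singleton.1 hx
      obtain ⟨s, hs⟩ := hl (lam g)
      rw [map_smul, hs]
      exact Submodule.smul_mem _ _ (Submodule.smul_mem _ _ (Submodule.mem_span_singleton_self e)))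
      e (Submodule.mem_span_singleton_self e)
    obtain ⟨s, hs⟩ := Submodule.mem_span_singleton.1 this
    exact ⟨s, hs.symm⟩
  let A : Subgroup U :=
    { carrier := {g | Ad g e = e}
      one_mem' := by
        change Ad 1 e = e
        rw [am.one, Module.End.one_apply]
      mul_mem' := fun {a b} ha hb => by
        change Ad (a * b) e = e
        rw [am.mul _ a.2 _ b.2, Module.End.mul_apply, hb, ha]
      inv_mem' := fun {a} ha => by
        change Ad (a : G)⁻¹ e = e
        have := hinv a a.2 e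
        rwa [ha] at this }
  refine solvable_of_metabelian A (fun a b => ?_) fun a ha b hb => ?_
  · change Ad (a * b * (a : G)⁻¹ * (b : G)⁻¹) e = e
    obtain ⟨s, hs⟩ := hline a a.2
    obtain ⟨t, ht⟩ := hline b b.2
    obtain ⟨s', hs'⟩ := hline _ (U.inv_mem a.2)
    obtain ⟨t', ht'⟩ := hline _ (U.inv_mem b.2)
    have h1 := hinv a a.2 e
    have h2 := hinv b b.2 e
    rw [hs, map_smul, hs'] at h1
    rw [ht, map_smul, ht'] at h2
    rw [am.mul _ (U.mul_mem (U.mul_mem a.2 b.2) (U.inv_mem a.2)) _ (U.inv_mem b.2),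
      am.mul _ (U.mul_mem a.2 b.2) _ (U.inv_mem a.2), am.mul _ a.2 _ b.2]
    simp only [Module.End.mul_apply, ht', hs', ht, hs, map_smul]
    rw [smul_comm t s, smul_comm s' s, smul_comm s' t, smul_comm s t, smul_comm t' t, h1, h2]
  · have h1 := hC _ _ ((am.fix a a.2 e).1 ha) ((am.fix b b.2 e).1 hb)
    have h2 := am.conj a a.2 b b.2
    rw [(am.fix a a.2 _).2 h1] at h2
    have h3 := m.inj (U.mul_mem (U.mul_mem a.2 b.2) (U.inv_mem a.2)) b.2 h2
    exact Subtype.ext (mul_inv_eq_iff_eq_mul.1 h3)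

theorem solvable_of_gen {V : Type*} [AddCommGroup V] [Module ℤ_[p] V] [TopologicalSpace V]
    [IsTopologicalAddGroup V] {A : Subgroup G} {ι : V → G} {ρ : G →* Module.End ℤ_[p] V}
    (m : Model A ι ρ) (hG : ProP p G) (y : G) (hgen : ∀ g, ∃ v μ, g = ι v * pw hG y μ) :
    Group.IsSolvable G := by
  refine solvable_of_metabelian A (fun a b => ?_) fun a ha b hb => ?_
  · obtain ⟨w1, μ1, rfl⟩ := hgen a
    obtain ⟨w2, μ2, rfl⟩ := hgen b
    refine (m.mem _).2 ⟨w1 + ρ (pw hG y μ1) w2 - ρ (pw hG y μ2) w1 - w2, ?_⟩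
    have hc : pw hG y μ1 * pw hG y μ2 = pw hG y μ2 * pw hG y μ1 := by
      rw [← pw_add, ← pw_add, add_comm]
    rw [m.sub, m.sub, m.add, m.conj, m.conj, commutatorElement_def]
    have : (pw hG y μ1)⁻¹ * pw hG y μ2 = pw hG y μ2 * (pw hG y μ1)⁻¹ := by
      rw [inv_mul_eq_iff_eq_mul, ← mul_assoc, hc, mul_inv_cancel_right]
    calc _ = ι w1 * pw hG y μ1 * ι w2 * ((pw hG y μ1)⁻¹ * pw hG y μ2) * (ι w1)⁻¹ *
          (pw hG y μ2)⁻¹ * (ι w2)⁻¹ := by group
      _ = _ := by rw [this]; group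
  · obtain ⟨v, rfl⟩ := (m.mem a).1 ha
    obtain ⟨w, rfl⟩ := (m.mem b).1 hb
    rw [← m.add, ← m.add, add_comm]

end Pool.Agent.Lib.MP_2dbb30_al.AN
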