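import Pool.Agent.Lib.MP_2dbb30_al.AN.Chart
import Pool.Agent.Lib.MP_2dbb30_al.AN.ChartLog
import Pool.Agent.Lib.MP_2dbb30_al.AN.Ad
import Pool.Agent.Lib.MP_2dbb30_al.AN.Eigen
import Pool.Agent.Lib.MP_2dbb30_al.AN.Iso
import Pool.Agent.Lib.MP_2dbb30_al.AN.Solv

set_option autoImplicit false
set_option linter.unusedSectionVars false

open Topology Filter

namespace Pool.Agent.Lib.MP_2dbb30_al.AN

open Pool.Agent.Lib.MP_2dbb30_al.TF

open scoped Manifold ContDiff

variable {p : ℕ} [Fact p.Prime] {G : Type*} [Group G] [TopologicalSpace G] [IsTopologicalGroup G]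
  [CompactSpace G] [T2Space G] [TotallyDisconnectedSpace G]

theorem solvable_of_lie' (hG : ProP p G) (hss : SH p G)
    (hL : ∃ (n : ℕ) (_ : ChartedSpace (Fin n → ℚ_[p]) G),
      LieGroup 𝓘(ℚ_[p], Fin n → ℚ_[p]) ω G) : Group.IsSolvable G := by
  obtain ⟨n, _, _⟩ := hL
  obtain ⟨U, c, cm⟩ := exists_chartModel (n := n) hG
  obtain ⟨lam, m⟩ := logModel_of_chart cm
  obtain ⟨Ad, ad, am⟩ := m.exists_ad
  suffices Group.IsSolvable U from solvable_of_open hG U m.isOpen
  rcases subsingleton_or_nontrivial (Fin n → ℚ_[p]) with hE | hE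
  · have : Subsingleton U := ⟨fun a b => Subtype.ext (m.inj a.2 b.2 (Subsingleton.elim _ _))⟩
    infer_instance
  by_cases hno : ∀ y, (∃ N : ℕ, (ad y : Module.End ℚ_[p] (Fin n → ℚ_[p])) ^ N = 0) → y = 0
  · exact (not_aniso m am hG hss hno).elim
  push Not at hno
  obtain ⟨e, hnil, he⟩ := hno
  have hC := cent_abelian m am hG hss he
  rcases line_or_sl2 ad am.alt am.leib he hnil hC (eigen' m am hG hss he) with
    hl | ⟨h, f, h1, h2, h3, hs⟩
  · exact solvable_of_line m am he hC hl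
  · exact (not_sl2 m am hG hss he h1 h2 h3 hs).elim

end Pool.Agent.Lib.MP_2dbb30_al.AN
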